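import Pool.Agent.Lib.MP_b76e55_an.Moore

/-!
The co-area step, random signs, colouring and pairing, and the extremal vertex set.
-/

namespace Pool.Agent.Lib.MP_b76e55_an

open Finset MeasureTheory

variable {M J : Type*}

/-- Indicator of a finite set. -/
def ind [DecidableEq M] (A : Finset M) (x : M) : ℝ := if x ∈ A then 1 else 0

theorem coarea [Fintype M] [DecidableEq M] [Fintype J] (X : J → Finset M) (p q : J → M → M)
    (Ed : Finset (M × M)) {C : ℝ} (hC : 0 ≤ C)
    (h : ∀ A : Finset M, ∑ j, |∑ x ∈ X j, (ind A (p j x) - ind A (q j x))| ≤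
      C * ∑ e ∈ Ed, |ind A e.1 - ind A e.2|) (f : M → ℝ) :
    ∑ j, |∑ x ∈ X j, (f (p j x) - f (q j x))| ≤ C * ∑ e ∈ Ed, |f e.1 - f e.2| := by
  obtain ⟨n, hn⟩ : ∃ n, (univ.image f).card ≤ n + 1 := ⟨_, Nat.le_succ _⟩
  induction n generalizing f with
  | zero =>
    have : ∀ x y, f x - f y = 0 := fun x y => sub_eq_zero.2
      (card_le_one.1 hn _ (mem_image_of_mem f (mem_univ x)) _ (mem_image_of_mem f (mem_univ y)))
    simp [this]
  | succ n ih =>
    by_cases h1 : (univ.image f).card ≤ n + 1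
    · exact ih f h1
    have h2 : (univ.image f).Nonempty := card_pos.1 (by omega)
    set a := (univ.image f).max' h2 with ha
    have h3 : ((univ.image f).erase a).card = n + 1 := by
      rw [card_erase_of_mem (max'_mem _ h2)]; omega
    have h4 : ((univ.image f).erase a).Nonempty := card_pos.1 (by omega)
    set b := ((univ.image f).erase a).max' h4 with hb
    have h5 : b ∈ (univ.image f).erase a := max'_mem _ h4
    have h6 : b < a := lt_of_le_of_ne (le_max' _ _ (mem_of_mem_erase h5)) (ne_of_mem_erase h5)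
    have h7 : ∀ x, f x ≠ a → f x ≤ b := fun x hx =>
      le_max' _ _ (mem_erase.2 ⟨hx, mem_image_of_mem f (mem_univ x)⟩)
    let A := univ.filter fun x => f x = a
    have h8 : ∀ x, (f x = a ∧ min (f x) b = b ∧ ind A x = 1) ∨
        (f x ≤ b ∧ min (f x) b = f x ∧ ind A x = 0) := fun x => by
      by_cases hx : f x = a
      · exact Or.inl ⟨hx, min_eq_right (hx ▸ h6.le), by simp [ind, A, hx]⟩
      · exact Or.inr ⟨h7 x hx, min_eq_left (h7 x hx), by simp [ind, A, hx]⟩
    have i1 := ih (fun x => min (f x) b) (h3 ▸ card_le_card fun y hy => by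
      obtain ⟨x, -, rfl⟩ := mem_image.1 hy
      rcases h8 x with c | c
      · rw [c.2.1]; exact h5
      · rw [c.2.1]
        exact mem_erase.2 ⟨(c.1.trans_lt h6).ne, mem_image_of_mem f (mem_univ x)⟩)
    have i2 := mul_le_mul_of_nonneg_left (h A) (sub_pos.2 h6).le
    have e1 : ∀ x y, f x - f y = (min (f x) b - min (f y) b) + (a - b) * (ind A x - ind A y) := by
      intro x y
      rcases h8 x with c | c <;> rcases h8 y with d | d <;> rw [c.2.1, c.2.2, d.2.1, d.2.2] <;>
        linarith [c.1, d.1]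
    have e2 : ∀ x y, |min (f x) b - min (f y) b| + (a - b) * |ind A x - ind A y| ≤ |f x - f y| := by
      intro x y
      rcases h8 x with c | c <;> rcases h8 y with d | d <;> rw [c.2.1, c.2.2, d.2.1, d.2.2]
      · simp
      · rw [abs_of_nonneg (sub_nonneg.2 d.1), c.1, abs_of_nonneg (by linarith [d.1] : 0 ≤ a - f y)]
        simp
      · rw [abs_of_nonpos (sub_nonpos.2 c.1), d.1, abs_of_nonpos (by linarith [c.1] : f x - a ≤ 0)]
        simp
      · simp
    have i3 := mul_le_mul_of_nonneg_left (sum_le_sum fun e (_ : e ∈ Ed) => e2 e.1 e.2) hC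
    rw [sum_add_distrib, ← mul_sum] at i3
    have i4 : ∑ j, |∑ x ∈ X j, (f (p j x) - f (q j x))| ≤
        ∑ j, |∑ x ∈ X j, (min (f (p j x)) b - min (f (q j x)) b)| +
          (a - b) * ∑ j, |∑ x ∈ X j, (ind A (p j x) - ind A (q j x))| := by
      rw [mul_sum, ← sum_add_distrib]
      refine sum_le_sum fun j _ => ?_
      rw [sum_congr rfl fun x _ => e1 _ _, sum_add_distrib, ← mul_sum]
      exact (abs_add_le _ _).trans (by rw [abs_mul, abs_of_pos (sub_pos.2 h6)])
    nlinarith

theorem l1_of_real [Fintype J] {α : Type*} {mα : MeasurableSpace α} {ν : Measure α}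
    (X : J → Finset M) (p q : J → M → M) (Ed : Finset (M × M)) {C : ℝ}
    (h : ∀ f : M → ℝ, ∑ j, |∑ x ∈ X j, (f (p j x) - f (q j x))| ≤ C * ∑ e ∈ Ed, |f e.1 - f e.2|)
    (f : M → Lp ℝ 1 ν) :
    ∑ j, ‖∑ x ∈ X j, (f (p j x) - f (q j x))‖ ≤ C * ∑ e ∈ Ed, ‖f e.1 - f e.2‖ := by
  simp only [L1.norm_eq_integral_norm]
  rw [← integral_finsetSum _ fun _ _ => (L1.integrable_coeFn _).norm,
    ← integral_finsetSum _ fun _ _ => (L1.integrable_coeFn _).norm, ← integral_const_mul]
  refine integral_mono_ae (integrable_finsetSum _ fun _ _ => (L1.integrable_coeFn _).norm)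
    ((integrable_finsetSum _ fun _ _ => (L1.integrable_coeFn _).norm).const_mul _) ?_
  have a1 : ∀ᵐ a ∂ν, ∀ j, (∑ x ∈ X j, (f (p j x) - f (q j x)) : Lp ℝ 1 ν) a =
      ∑ x ∈ X j, (f (p j x) a - f (q j x) a) := by
    refine ae_all_iff.2 fun j => ?_
    filter_upwards [Lp.coeFn_finsetSum (X j) fun x => f (p j x) - f (q j x),
      (ae_ball_iff (X j).countable_toSet).2 fun x _ => Lp.coeFn_sub (f (p j x)) (f (q j x))]
      with a b1 b2
    rw [b1, Finset.sum_apply]
    exact sum_congr rfl fun x hx => b2 x hx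
  filter_upwards [a1, (ae_ball_iff Ed.countable_toSet).2 fun e _ => Lp.coeFn_sub (f e.1) (f e.2)]
    with a b1 b2
  simp only [b1, Real.norm_eq_abs]
  rw [sum_congr rfl fun e he => congrArg abs (b2 e he)]
  exact h fun x => f x a

theorem sign_sq [Fintype M] [DecidableEq M] (X : Finset M) (a : M → ℝ) :
    ∑ ε : M → Bool, (∑ x ∈ X, if ε x then a x else -a x) ^ 2 =
      2 ^ Fintype.card M * ∑ x ∈ X, a x ^ 2 := by
  induction X using Finset.induction_on with
  | empty => simp
  | insert y X hy ih =>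
    let e : Equiv.Perm (M → Bool) := Function.Involutive.toPerm
      (fun ε => Function.update ε y (!ε y)) fun ε => by simp
    let g : (M → Bool) → ℝ := fun ε =>
      (if ε y then a y else -a y) * ∑ x ∈ X, if ε x then a x else -a x
    have h1 : ∀ ε, g (e ε) = -g ε := fun ε => by
      have : ∑ x ∈ X, (if e ε x then a x else -a x) = ∑ x ∈ X, if ε x then a x else -a x :=
        sum_congr rfl fun x hx => by
          have : x ≠ y := fun h => hy (h ▸ hx)
          simp [e, this]
      simp only [g, this]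
      cases h : ε y <;> simp [e, h]
    have h2 : ∑ ε, g ε = 0 := by
      have := Equiv.sum_comp e g
      simp only [h1, sum_neg_distrib] at this
      linarith
    have h3 : ∀ ε : M → Bool, (∑ x ∈ insert y X, if ε x then a x else -a x) ^ 2 =
        a y ^ 2 + 2 * g ε + (∑ x ∈ X, if ε x then a x else -a x) ^ 2 := fun ε => by
      rw [sum_insert hy]
      simp only [g]
      split_ifs <;> ring
    rw [sum_congr rfl fun ε _ => h3 ε, sum_add_distrib, sum_add_distrib, ← mul_sum, h2, ih,
      sum_insert hy]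
    simp
    ring

theorem exists_colouring [DecidableEq M] (r : M → M → Prop) [DecidableRel r]
    (hr : ∀ x y, r x y → r y x) {V : ℕ} (hV0 : 0 < V) (U : Finset M)
    (hV : ∀ x, ((U.filter fun y => r x y).erase x).card < V) :
    ∃ col : M → Fin V, ∀ x ∈ U, ∀ y ∈ U, x ≠ y → r x y → col x ≠ col y := by
  induction U using Finset.induction_on with
  | empty => exact ⟨fun _ => ⟨0, hV0⟩, by simp⟩
  | insert z U hz ih =>
    obtain ⟨col, hcol⟩ := ih fun x => lt_of_le_of_lt (card_le_card
      (erase_subset_erase _ (filter_subset_filter _ (subset_insert _ _)))) (hV x)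
    obtain ⟨c, -, hc⟩ := exists_mem_notMem_of_card_lt_card (t := (univ : Finset (Fin V)))
      (s := (((insert z U).filter fun y => r z y).erase z).image col)
      (card_image_le.trans_lt (by simpa using hV z))
    have key : ∀ y ∈ U, r z y → c ≠ col y := fun y hy h e => hc (mem_image.2
      ⟨y, mem_erase.2 ⟨fun h => hz (h ▸ hy), by simp [hy, h]⟩, e.symm⟩)
    refine ⟨Function.update col z c, fun x hx y hy hne h => ?_⟩
    rcases mem_insert.1 hx with rfl | hx' <;> rcases mem_insert.1 hy with rfl | hy'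
    · exact absurd rfl hne
    · rw [Function.update_self, Function.update_of_ne hne.symm]
      exact key y hy' h
    · rw [Function.update_self, Function.update_of_ne hne]
      exact (key x hx' (hr _ _ h)).symm
    · rw [Function.update_of_ne (ne_of_mem_of_not_mem hx' hz),
        Function.update_of_ne (ne_of_mem_of_not_mem hy' hz)]
      exact hcol x hx' y hy' hne h

theorem exists_pairing [DecidableEq M] {V : ℕ} (col : M → Fin V) (U : Finset M) :
    ∃ (X : Finset M) (φ : M → M), X ⊆ U ∧ (∀ x ∈ X, φ x ∈ U ∧ φ x ∉ X ∧ col (φ x) = col x) ∧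
      Set.InjOn φ X ∧ U.card ≤ 2 * X.card + V := by
  induction U using Finset.strongInduction with
  | H U ih =>
    by_cases h : Set.InjOn col U
    · refine ⟨∅, id, by simp, by simp, by simp, ?_⟩
      simpa using card_le_card_of_injOn (t := univ) col (by simp [Set.MapsTo]) h
    · simp only [Set.InjOn, mem_coe, not_forall] at h
      obtain ⟨x, hx, y, hy, e, hne⟩ := h
      obtain ⟨X, φ, a1, a2, a3, a4⟩ := ih ((U.erase x).erase y)
        ((erase_subset _ _).trans_ssubset (erase_ssubset hx))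
      have b1 : ∀ z ∈ X, z ≠ x ∧ z ≠ y ∧ z ∈ U := fun z hz => by
        have := a1 hz
        simp only [mem_erase] at this
        tauto
      have b2 : ∀ z ∈ X, φ z ≠ x ∧ φ z ≠ y ∧ φ z ∈ U := fun z hz => by
        have := (a2 z hz).1
        simp only [mem_erase] at this
        tauto
      have b3 : ∀ z ∈ X, Function.update φ x y z = φ z := fun z hz =>
        Function.update_of_ne (b1 z hz).1 _ _
      refine ⟨insert x X, Function.update φ x y, insert_subset hx fun z hz => (b1 z hz).2.2,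
        fun z hz => ?_, fun z hz w hw hzw => ?_, ?_⟩
      · rcases mem_insert.1 hz with rfl | hz
        · rw [Function.update_self, mem_insert, not_or]
          exact ⟨hy, ⟨Ne.symm hne, fun h => (b1 y h).2.1 rfl⟩, e.symm⟩
        · rw [b3 z hz, mem_insert, not_or]
          exact ⟨(b2 z hz).2.2, ⟨(b2 z hz).1, (a2 z hz).2.1⟩, (a2 z hz).2.2⟩
      · rcases mem_insert.1 (mem_coe.1 hz) with rfl | hz' <;>
          rcases mem_insert.1 (mem_coe.1 hw) with rfl | hw'
        · rfl
        · rw [Function.update_self, b3 w hw'] at hzw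
          exact absurd hzw.symm (b2 w hw').2.1
        · rw [Function.update_self, b3 z hz'] at hzw
          exact absurd hzw (b2 z hz').2.1
        · rw [b3 z hz', b3 w hw'] at hzw
          exact a3 hz' hw' hzw
      · rw [card_erase_of_mem (mem_erase.2 ⟨Ne.symm hne, hy⟩), card_erase_of_mem hx] at a4
        rw [card_insert_of_notMem fun h => (b1 x h).1 rfl]
        omega

theorem extremal [Fintype M] [DecidableEq M] (e : Finset M → ℝ) {a Δ : ℝ} {m V : ℕ} (ha : 3 ≤ a)
    (hΔ : 0 ≤ Δ) (hm : 0 < m) (hmV : Δ ^ 2 * V ≤ m) (hn : m ≤ Fintype.card M)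
    (h0 : a * Fintype.card M ≤ e univ) (h1 : ∀ S, e S ≤ Δ * S.card)
    (h2 : ∀ S : Finset M, S.card < 2 * m → e S ≤ (9 / 10 : ℝ) * a * S.card) :
    ∃ (U : Finset M) (ρ : ℝ), 0 < ρ ∧ 2 * m ≤ U.card ∧ e U ≤ ρ * U.card ∧ ∀ S ⊆ U,
      2 * S.card ≤ U.card →
        ρ * min (S.card : ℝ) √(V * S.card) ≤ 20 * (e U - e S - e (U \ S)) := by
  set κ : ℝ := (1 / 20 : ℝ) * a * √m with hκ
  have hκ0 : 0 ≤ κ := by positivity
  clear_value κ
  obtain ⟨U, u1, u2⟩ := exists_max_image (univ.filter fun U : Finset M => m ≤ U.card)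
    (fun U => (e U + κ * √U.card) / U.card) ⟨univ, by simpa using hn⟩
  simp only [mem_filter, mem_univ, true_and] at u1 u2
  set ρ := (e U + κ * √U.card) / U.card with hρ
  have hm' : (0 : ℝ) < m := by exact_mod_cast hm
  have pos : ∀ S : Finset M, m ≤ S.card → (0 : ℝ) < S.card := fun S h =>
    hm'.trans_le (by exact_mod_cast h)
  have u3 : ∀ S : Finset M, m ≤ S.card → e S + κ * √S.card ≤ ρ * S.card := fun S h =>
    (div_le_iff₀ (pos S h)).1 (u2 S h)
  have u4 : e U + κ * √U.card = ρ * U.card := by rw [hρ, div_mul_cancel₀ _ (pos U u1).ne']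
  clear_value ρ
  have u5 : a ≤ ρ := by
    have b1 := u3 univ (by simpa using hn)
    have b2 := pos univ (by simpa using hn)
    rw [card_univ] at b1 b2
    have : 0 ≤ κ * √(Fintype.card M : ℝ) := by positivity
    exact le_of_mul_le_mul_right (by linarith) b2
  have hU := pos U u1
  have su := Real.mul_self_sqrt hU.le
  have su0 := Real.sqrt_pos.2 hU
  have u6 : κ ≤ (1 / 20 : ℝ) * ρ * √U.card := by
    have : √(m : ℝ) ≤ √U.card := Real.sqrt_le_sqrt (by exact_mod_cast u1)
    rw [hκ]
    gcongr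
    linarith
  have u7 : κ * √U.card ≤ (1 / 20 : ℝ) * ρ * U.card := by
    have := mul_le_mul_of_nonneg_right u6 su0.le
    rwa [mul_assoc ((1 / 20 : ℝ) * ρ), su] at this
  have u8 : 2 * m ≤ U.card := by
    by_contra h
    have := h2 U (not_le.1 h)
    nlinarith
  refine ⟨U, ρ, by linarith, u8, by nlinarith [mul_nonneg hκ0 su0.le], fun S hS h => ?_⟩
  have c1 : (U \ S).card + S.card = U.card := card_sdiff_add_card_eq_card hS
  have c2 := u3 (U \ S) (by omega)
  have c3 : ((U \ S).card : ℝ) + S.card = U.card := by exact_mod_cast c1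
  have c4 : (S.card : ℝ) ≤ (U \ S).card := by exact_mod_cast (by omega)
  have s0 : (0 : ℝ) ≤ S.card := Nat.cast_nonneg _
  have st := Real.mul_self_sqrt (s0.trans c4)
  have st0 := Real.sqrt_nonneg ((U \ S).card : ℝ)
  have ss := Real.mul_self_sqrt s0
  have ss0 := Real.sqrt_nonneg (S.card : ℝ)
  rcases lt_or_ge S.card m with hs | hs
  · have d1 := h2 S (by omega)
    have d2 : √((U \ S).card : ℝ) ≤ √U.card := Real.sqrt_le_sqrt (by linarith)
    have d3 : √U.card * (√U.card - √((U \ S).card : ℝ)) ≤ S.card := by nlinarith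
    have d4 : κ * (√U.card - √((U \ S).card : ℝ)) ≤ (1 / 20 : ℝ) * ρ * S.card := by
      refine (mul_le_mul_of_nonneg_right u6 (sub_nonneg.2 d2)).trans ?_
      rw [mul_assoc]
      exact mul_le_mul_of_nonneg_left d3 (by linarith)
    have d5 := mul_le_mul_of_nonneg_left (min_le_left (S.card : ℝ) √(V * S.card))
      (by linarith : 0 ≤ ρ)
    nlinarith
  · have d1 := u3 S hs
    have d2 : √(S.card : ℝ) ≤ √((U \ S).card : ℝ) := Real.sqrt_le_sqrt c4
    have d3 : √(U.card : ℝ) ≤ √((U \ S).card : ℝ) + √S.card / 2 :=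
      Real.sqrt_le_iff.2 ⟨by linarith, by nlinarith⟩
    have d4 : ρ ≤ (11 / 10 : ℝ) * Δ := by
      have := h1 U
      have : (19 / 20 : ℝ) * ρ * U.card ≤ Δ * U.card := by linarith
      have := le_of_mul_le_mul_right this hU
      linarith
    have d5 : Δ * √V ≤ √m := Real.le_sqrt_of_sq_le (by
      rw [mul_pow, Real.sq_sqrt (Nat.cast_nonneg _)]; exact hmV)
    have d6 : ρ * √V ≤ 10 * κ := by
      have := Real.sqrt_nonneg (V : ℝ)
      have := Real.sqrt_nonneg (m : ℝ)
      rw [hκ]
      nlinarith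
    have d7 := mul_le_mul_of_nonneg_left (min_le_right (S.card : ℝ) √(V * S.card))
      (by linarith : 0 ≤ ρ)
    rw [Real.sqrt_mul (Nat.cast_nonneg _), ← mul_assoc] at d7
    rw [Real.sqrt_mul (Nat.cast_nonneg _)]
    have d8 := mul_le_mul_of_nonneg_right d6 ss0
    have d9 := mul_le_mul_of_nonneg_left d3 hκ0
    nlinarith

end Pool.Agent.Lib.MP_b76e55_an
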