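import Mathlib

/-!
Linearisation of a bi-Lipschitz map on an abelian group by discrete smoothing and averaging.
-/

namespace Pool.Agent.Lib.MP_b76e55_an

open Finset

variable {W E : Type*} [AddCommGroup W] [NormedAddCommGroup E] [NormedSpace ℝ E]

/-- Average along the direction `v`. -/
noncomputable def av (L : ℕ) (v : W) (h : W → E) : W → E :=
  fun z => (L : ℝ)⁻¹ • ∑ l ∈ range L, h (z + l • v)

/-- Average along all directions of a list. -/
noncomputable def avs (L : ℕ) (vs : List W) (h : W → E) : W → E := vs.foldr (av L) h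

theorem av_norm {L : ℕ} (hL : 0 < L) (v : W) {h : W → E} {B : ℝ} {z : W}
    (hb : ∀ l < L, ‖h (z + l • v)‖ ≤ B) : ‖av L v h z‖ ≤ B := by
  have h0 : (0 : ℝ) < L := by exact_mod_cast hL
  rw [av, norm_smul, Real.norm_of_nonneg (by positivity), inv_mul_le_iff₀ h0]
  refine (norm_sum_le _ _).trans ((sum_le_card_nsmul _ _ B fun l hl =>
    hb l (mem_range.1 hl)).trans (by simp))

theorem avs_norm {L : ℕ} (hL : 0 < L) (vs : List W) {h : W → E} {B : ℝ}
    (hb : ∀ z, ‖h z‖ ≤ B) (z : W) : ‖avs L vs h z‖ ≤ B := by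
  induction vs generalizing z with
  | nil => exact hb z
  | cons a l ih => exact av_norm hL a fun _ _ => ih _

theorem av_diff (L : ℕ) (v a b : W) (h : W → E) (z : W) :
    av L v h (z + a) - av L v h (z + b) = av L v (fun y => h (y + a) - h (y + b)) z := by
  simp only [av, sum_sub_distrib, smul_sub, add_right_comm z]

theorem avs_diff (L : ℕ) (vs : List W) (a b : W) (h : W → E) (z : W) :
    avs L vs h (z + a) - avs L vs h (z + b) = avs L vs (fun y => h (y + a) - h (y + b)) z := by
  induction vs generalizing z with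
  | nil => rfl
  | cons c l ih =>
    change av L c (avs L l h) _ - av L c (avs L l h) _ = av L c (avs L l _) z
    rw [av_diff]
    exact congrFun (congrArg _ (funext ih)) z

theorem avs_shift {L : ℕ} (hL : 0 < L) {vs : List W} {v : W} (hv : v ∈ vs) {h : W → E} {B : ℝ}
    (hb : ∀ z, ‖h z‖ ≤ B) (z : W) : ‖avs L vs h (z + v) - avs L vs h z‖ ≤ 2 * B / L := by
  have h0 : (0 : ℝ) < L := by exact_mod_cast hL
  induction vs generalizing z with
  | nil => simp at hv
  | cons c l ih =>
    change ‖av L c (avs L l h) _ - av L c (avs L l h) _‖ ≤ _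
    rcases List.mem_cons.1 hv with rfl | hv
    · have e : av L v (avs L l h) (z + v) - av L v (avs L l h) z =
          (L : ℝ)⁻¹ • (avs L l h (z + L • v) - avs L l h (z + 0 • v)) := by
        rw [← sum_range_sub (fun i => avs L l h (z + i • v)), av, av, ← smul_sub, ← sum_sub_distrib]
        simp only [succ_nsmul', add_assoc]
      rw [e, norm_smul, Real.norm_of_nonneg (by positivity), inv_mul_eq_div]
      gcongr
      have a1 := avs_norm hL l hb (z + L • v)
      have a2 := avs_norm hL l hb (z + 0 • v)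
      exact (norm_sub_le _ _).trans (by linarith)
    · have e := av_diff L c v 0 (avs L l h) z
      simp only [add_zero] at e
      rw [e]
      exact av_norm hL c fun _ _ => ih hv _

theorem avs_close {L : ℕ} (hL : 0 < L) (vs : List W) {h : W → E} {B : W → ℝ}
    (hb : ∀ z v, ‖h (z + v) - h z‖ ≤ B v) : ∃ R, ∀ z, ‖avs L vs h z - h z‖ ≤ R := by
  have h0 : (L : ℝ) ≠ 0 := by exact_mod_cast hL.ne'
  induction vs with
  | nil => exact ⟨0, fun z => by simp [avs]⟩
  | cons c l ih =>
    obtain ⟨R, hR⟩ := ih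
    refine ⟨R + ∑ i ∈ range L, |B (i • c)|, fun z => ?_⟩
    have e : avs L (c :: l) h z - h z = av L c (fun y => avs L l h y - h z) z := by
      change av L c (avs L l h) z - _ = _
      simp only [av, sum_sub_distrib, smul_sub, sum_const, card_range]
      rw [← Nat.cast_smul_eq_nsmul ℝ, smul_smul, inv_mul_cancel₀ h0, one_smul]
    rw [e]
    refine av_norm hL c fun i hi => ?_
    have a1 := hR (z + i • c)
    have a2 := (hb z (i • c)).trans (le_abs_self _)
    have a3 := single_le_sum (f := fun i => |B (i • c)|) (fun _ _ => abs_nonneg _) (mem_range.2 hi)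
    have a4 := norm_sub_le_norm_sub_add_norm_sub (avs L l h (z + i • c)) (h (z + i • c)) (h z)
    linarith

theorem av_comm (L : ℕ) (v w : W) (h : W → E) : av L v (av L w h) = av L w (av L v h) := by
  funext z
  simp only [av, ← smul_sum]
  rw [sum_comm]
  simp only [add_right_comm z]

theorem le_av {L : ℕ} (hL : 0 < L) (v : W) {h : W → ℝ} {c : ℝ} (hb : ∀ z, c ≤ h z) (z : W) :
    c ≤ av L v h z := by
  have h0 : (0 : ℝ) < L := by exact_mod_cast hL
  rw [av, smul_eq_mul, le_inv_mul_iff₀ h0]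
  exact le_trans (by simp) (card_nsmul_le_sum _ _ c fun l _ => hb _)

theorem le_avs {L : ℕ} (hL : 0 < L) {vs : List W} {v : W} (hv : v ∈ vs) {h : W → ℝ} {c : ℝ}
    (hb : ∀ z, c ≤ av L v h z) (z : W) : c ≤ avs L vs h z := by
  have key : ∀ l : List W, ∀ z, c ≤ av L v (avs L l h) z := by
    intro l
    induction l with
    | nil => exact hb
    | cons a l ih =>
      change ∀ z, c ≤ av L v (av L a (avs L l h)) z
      rw [av_comm]
      exact le_av hL a ih
  induction vs generalizing z with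
  | nil => simp at hv
  | cons a l ih =>
    rcases List.mem_cons.1 hv with rfl | hv
    · exact key l z
    · exact le_av hL a (ih hv) z

theorem sum_avs_le {J : Type*} [Fintype J] {L : ℕ} (hL : 0 < L) (vs : List W) {h : J → W → ℝ}
    {K : ℝ} (hb : ∀ z, ∑ j, h j z ≤ K) (z : W) : ∑ j, avs L vs (h j) z ≤ K := by
  have h0 : (0 : ℝ) < L := by exact_mod_cast hL
  induction vs generalizing z with
  | nil => exact hb z
  | cons a l ih =>
    change ∑ j, av L a (avs L l (h j)) z ≤ K
    simp only [av, smul_eq_mul, ← mul_sum]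
    rw [sum_comm, inv_mul_le_iff₀ h0]
    exact (sum_le_card_nsmul _ _ K fun _ _ => ih _).trans (by simp)

omit [NormedSpace ℝ E] in
theorem approx_add {M : Type*} {G : W → E} {b : M → W} {η : ℝ} (hη : 0 ≤ η)
    (hG : ∀ x y z, ‖(G (z + b y + b x) - G (z + b y)) - (G (z + b x) - G z)‖ ≤ η)
    (X : Finset M) (p : M → M) (z : W) :
    ‖G (z + ∑ x ∈ X, b (p x)) - G z - ∑ x ∈ X, (G (z + b (p x)) - G z)‖ ≤ (X.card : ℝ) ^ 2 * η := by
  classical
  have key : ∀ (Y : Finset M) (y : M), ‖(G (z + ∑ x ∈ Y, b (p x) + b y) -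
      G (z + ∑ x ∈ Y, b (p x))) - (G (z + b y) - G z)‖ ≤ Y.card * η := by
    intro Y y
    induction Y using Finset.induction_on with
    | empty => simp
    | insert a Y ha ih =>
      rw [sum_insert ha, card_insert_of_notMem ha, add_comm (b (p a)), ← add_assoc]
      have a1 := hG y (p a) (z + ∑ x ∈ Y, b (p x))
      refine (norm_sub_le_norm_sub_add_norm_sub _ _ _).trans ((add_le_add a1 ih).trans ?_)
      push_cast
      linarith
  induction X using Finset.induction_on with
  | empty => simp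
  | insert a X ha ih =>
    rw [sum_insert ha, sum_insert ha, card_insert_of_notMem ha, add_comm (b (p a)), ← add_assoc]
    have a1 := key X (p a)
    refine le_trans (le_of_eq ?_) ((norm_add_le _ _).trans ((add_le_add a1 ih).trans ?_))
    · congr 1; abel
    · push_cast
      have : (0 : ℝ) ≤ X.card := by positivity
      nlinarith

theorem linearize {M J : Type*} [Fintype M] [Fintype J] (Φ : W → E) (N : W → ℝ) {s D C : ℝ}
    (hs : 0 < s) (hC : 0 ≤ C)
    (hlo : ∀ z v, s * N v ≤ ‖Φ (z + v) - Φ z‖) (hhi : ∀ z v, ‖Φ (z + v) - Φ z‖ ≤ s * D * N v)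
    (b : M → W) (X : J → Finset M) (p q : J → M → M) (Ed : Finset (M × M)) (n : J → ℝ)
    (hn : ∀ j (L : ℕ), L * n j ≤ N (L • ∑ x ∈ X j, (b (p j x) - b (q j x))))
    (h : ∀ f : M → E, ∑ j, ‖∑ x ∈ X j, (f (p j x) - f (q j x))‖ ≤
      C * ∑ e ∈ Ed, ‖f e.1 - f e.2‖) :
    ∑ j, n j ≤ C * (D * ∑ e ∈ Ed, N (b e.1 - b e.2)) := by
  classical
  set B : ℝ := ∑ x, |s * D * N (b x)| with hB
  have hB0 : 0 ≤ B := sum_nonneg fun _ _ => abs_nonneg _
  set K : ℝ := ∑ j, 2 * ((X j).card : ℝ) ^ 2 with hK
  have lim : ∀ a c d : ℝ, (∀ L : ℕ, 0 < L → a ≤ c + d / L) → a ≤ c := by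
    intro a c d hh
    have t : Filter.Tendsto (fun L : ℕ => c + d / L) Filter.atTop (nhds (c + 0)) :=
      tendsto_const_nhds.add (tendsto_const_div_atTop_nhds_zero_nat d)
    rw [add_zero] at t
    exact ge_of_tendsto t (Filter.eventually_atTop.2 ⟨1, hh⟩)
  refine le_of_mul_le_mul_left (lim _ _ (K * (2 * B)) fun m hm => ?_) hs
  have hm0 : (0 : ℝ) < m := by exact_mod_cast hm
  set G := avs m (univ.toList.map b) Φ with hG
  have g1 : ∀ x y z, ‖(G (z + b y + b x) - G (z + b y)) - (G (z + b x) - G z)‖ ≤ 2 * B / m := by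
    intro x y z
    have e := avs_diff m (univ.toList.map b) (b x) 0 Φ
    simp only [add_zero] at e
    rw [hG, e, e]
    refine avs_shift hm (List.mem_map.2 ⟨y, by simp, rfl⟩) (fun z => ?_) z
    exact ((hhi z (b x)).trans (le_abs_self _)).trans
      (single_le_sum (f := fun x => |s * D * N (b x)|) (fun _ _ => abs_nonneg _) (mem_univ x))
  have g2 : ∀ u v z, ‖G (z + u) - G (z + v)‖ ≤ s * D * N (u - v) := by
    intro u v z
    rw [hG, avs_diff]
    refine avs_norm hm _ (fun y => ?_) z
    have := hhi (y + v) (u - v)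
    rwa [add_assoc, add_sub_cancel] at this
  obtain ⟨R, hR⟩ := avs_close hm (univ.toList.map b) hhi
  let k : J → W → ℝ := fun j z => ‖G (z + ∑ x ∈ X j, b (p j x)) - G (z + ∑ x ∈ X j, b (q j x))‖
  have g3 : ∀ z, ∑ j, k j z ≤ s * (C * (D * ∑ e ∈ Ed, N (b e.1 - b e.2))) + K * (2 * B) / m := by
    intro z
    have a1 := h fun x => G (z + b x) - G z
    have a2 : ∑ e ∈ Ed, ‖(G (z + b e.1) - G z) - (G (z + b e.2) - G z)‖ ≤
        s * (D * ∑ e ∈ Ed, N (b e.1 - b e.2)) := by
      rw [← mul_assoc, mul_sum]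
      exact sum_le_sum fun e _ => by rw [sub_sub_sub_cancel_right]; exact g2 _ _ _
    have a3 : ∀ j, k j z ≤ ‖∑ x ∈ X j, ((G (z + b (p j x)) - G z) - (G (z + b (q j x)) - G z))‖ +
        2 * ((X j).card : ℝ) ^ 2 * (2 * B / m) := by
      intro j
      have b1 := approx_add (by positivity) g1 (X j) (p j) z
      have b2 := approx_add (by positivity) g1 (X j) (q j) z
      rw [sum_sub_distrib]
      generalize ∑ x ∈ X j, (G (z + b (p j x)) - G z) = u at *
      generalize ∑ x ∈ X j, (G (z + b (q j x)) - G z) = v at *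
      have e : G (z + ∑ x ∈ X j, b (p j x)) - G (z + ∑ x ∈ X j, b (q j x)) = (u - v) +
          ((G (z + ∑ x ∈ X j, b (p j x)) - G z - u) - (G (z + ∑ x ∈ X j, b (q j x)) - G z - v)) := by
        abel
      simp only [k]
      rw [e]
      refine (norm_add_le _ _).trans (add_le_add le_rfl ((norm_sub_le _ _).trans ?_))
      linarith
    refine (sum_le_sum fun j _ => a3 j).trans ?_
    rw [sum_add_distrib, ← sum_mul, mul_div_assoc K, mul_left_comm s C]
    exact add_le_add (a1.trans (mul_le_mul_of_nonneg_left a2 hC)) le_rfl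
  refine lim _ _ (Fintype.card J * (2 * R)) fun L hL => ?_
  have hL0 : (0 : ℝ) < L := by exact_mod_cast hL
  let μ : J → W := fun j => ∑ x ∈ X j, (b (p j x) - b (q j x))
  have g4 : ∀ j z, s * n j - 2 * R / L ≤ av L (μ j) (k j) z := by
    intro j z
    set y := z + ∑ x ∈ X j, b (q j x) with hy
    have a1 : ∀ l : ℕ, k j (z + l • μ j) = ‖G (y + (l + 1) • μ j) - G (y + l • μ j)‖ := by
      intro l
      simp only [k, hy, μ, succ_nsmul, sum_sub_distrib]
      congr 3 <;> abel
    have a2 := norm_sum_le (range L) fun l => G (y + (l + 1) • μ j) - G (y + l • μ j)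
    rw [sum_range_sub (fun l => G (y + l • μ j)), zero_smul, add_zero] at a2
    have a3 := hlo y (L • μ j)
    have a4 := mul_le_mul_of_nonneg_left (hn j L) hs.le
    have a5 := hR (y + L • μ j)
    have a6 := hR y
    have a7 : Φ (y + L • μ j) - Φ y = (G (y + L • μ j) - G y) -
        (G (y + L • μ j) - Φ (y + L • μ j)) + (G y - Φ y) := by abel
    have a8 := (norm_add_le _ _).trans (add_le_add (norm_sub_le (G (y + L • μ j) - G y)
      (G (y + L • μ j) - Φ (y + L • μ j))) (le_refl ‖G y - Φ y‖))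
    rw [← a7] at a8
    rw [av, smul_eq_mul, le_inv_mul_iff₀ hL0, mul_sub, mul_div_cancel₀ _ hL0.ne']
    simp only [a1]
    nlinarith
  have g5 := sum_avs_le hL (univ.toList.map μ) g3 0
  have g6 := sum_le_sum fun j (_ : j ∈ univ) =>
    le_avs hL (vs := univ.toList.map μ) (List.mem_map.2 ⟨j, by simp, rfl⟩) (g4 j) 0
  rw [sum_sub_distrib, ← mul_sum, sum_const, card_univ, nsmul_eq_mul] at g6
  rw [mul_div_assoc (Fintype.card J : ℝ)]
  linarith

end Pool.Agent.Lib.MP_b76e55_an
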