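import Pool.Agent.Lib.MP_b76e55_an.Comb
import Pool.Agent.Lib.MP_b76e55_an.Lin

/-!
The family of test measures.
-/

namespace Pool.Agent.Lib.MP_b76e55_an

open Finset SimpleGraph

variable {M : Type*} [Fintype M] [DecidableEq M] {G : SimpleGraph M} [DecidableRel G.Adj]

theorem sign_bound {V : ℕ} (col : M → Fin V) (X : Finset M) (a : M → ℝ) {s : ℝ}
    (h1 : ∀ x, a x ^ 2 = |a x|) (h2 : ∑ x ∈ X, |a x| ≤ s) :
    ∑ j : Fin V × (M → Bool), |∑ x ∈ X.filter (fun x => col x = j.1),
      if j.2 x then a x else -a x| ≤ 2 ^ Fintype.card M * min s √(V * s) := by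
  rw [mul_min_of_nonneg _ _ (by positivity)]
  refine le_min ?_ ?_
  · calc _ ≤ ∑ j : Fin V × (M → Bool), ∑ x ∈ X.filter (fun x => col x = j.1), |a x| :=
          sum_le_sum fun j _ => (abs_sum_le_sum_abs _ _).trans (sum_le_sum fun x _ => by
            split_ifs <;> simp)
      _ = 2 ^ Fintype.card M * ∑ x ∈ X, |a x| := by
          rw [Fintype.sum_prod_type_right]
          simp [sum_fiberwise]
      _ ≤ _ := by gcongr
  · have a1 := sq_sum_le_card_mul_sum_sq (s := univ) (f := fun j : Fin V × (M → Bool) =>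
      |∑ x ∈ X.filter (fun x => col x = j.1), if j.2 x then a x else -a x|)
    simp only [sq_abs] at a1
    rw [Fintype.sum_prod_type (f := fun j : Fin V × (M → Bool) =>
      (∑ x ∈ X.filter (fun x => col x = j.1), if j.2 x then a x else -a x) ^ 2)] at a1
    simp only [sign_sq, ← mul_sum, sum_fiberwise, h1] at a1
    have hs : 0 ≤ s := (sum_nonneg fun _ _ => abs_nonneg _).trans h2
    refine abs_le_of_sq_le_sq' (a1.trans ?_) (by positivity) |>.2
    rw [mul_pow, Real.sq_sqrt (by positivity)]
    simp only [card_univ, Fintype.card_prod, Fintype.card_fin, Fintype.card_fun, Fintype.card_bool]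
    push_cast
    calc _ ≤ (V : ℝ) * 2 ^ Fintype.card M * (2 ^ Fintype.card M * s) := by gcongr
      _ = _ := by ring

omit [Fintype M] in
theorem cut_le (U A : Finset M) : ((darts G U).card : ℝ) - (darts G (U ∩ A)).card -
    (darts G (U \ (U ∩ A))).card ≤ ∑ e ∈ darts G U, |ind A e.1 - ind A e.2| := by
  let T := (darts G U).filter fun e => ¬ (e.1 ∈ A ↔ e.2 ∈ A)
  have a1 : darts G U ⊆ darts G (U ∩ A) ∪ (darts G (U \ (U ∩ A)) ∪ T) := by
    intro e he
    have := mem_darts.1 he
    simp only [mem_union, mem_darts, mem_inter, mem_sdiff, T, mem_filter]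
    tauto
  have a2 := (card_le_card a1).trans ((card_union_le _ _).trans
    (Nat.add_le_add_left (card_union_le _ _) _))
  have a3 : (T.card : ℝ) ≤ ∑ e ∈ darts G U, |ind A e.1 - ind A e.2| := by
    rw [card_eq_sum_ones, sum_filter]
    push_cast
    exact sum_le_sum fun e _ => by
      by_cases h1 : e.1 ∈ A <;> by_cases h2 : e.2 ∈ A <;> simp [ind, h1, h2]
  have a4 : ((darts G U).card : ℝ) ≤ (darts G (U ∩ A)).card +
      ((darts G (U \ (U ∩ A))).card + T.card) := by exact_mod_cast a2
  linarith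

theorem core (hc : G.Connected) {a : ℝ} (ha : 3 ≤ a)
    (h0 : a * Fintype.card M ≤ ∑ v, G.degree v) {r k : ℕ} (hk : 2 * k + 2 ≤ G.girth)
    (hr : ((2 * (G.maxDegree ^ 2 * (G.maxDegree + 1) ^ r) : ℕ) : ℝ) ≤ (9 / 20 * a) ^ k) :
    ∃ (V : ℕ) (X : Fin V × (M → Bool) → Finset M) (p q : Fin V × (M → Bool) → M → M)
      (Ed : Finset (M × M)) (C : ℝ), 0 ≤ C ∧ (∀ e ∈ Ed, G.Adj e.1 e.2) ∧
      (∀ j, ∀ x ∈ X j, ∀ y ∈ X j, r < G.dist (p j x) (q j y)) ∧ (0 : ℝ) < ∑ j, ((X j).card : ℝ) ∧
      C * Ed.card ≤ 80 * ∑ j, ((X j).card : ℝ) ∧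
      ∀ f : M → ℝ, ∑ j, |∑ x ∈ X j, (f (p j x) - f (q j x))| ≤ C * ∑ e ∈ Ed, |f e.1 - f e.2| := by
  set V := (G.maxDegree + 1) ^ r with hV
  set m := G.maxDegree ^ 2 * V with hm
  have hV0 : 0 < V := by positivity
  have := hc.nonempty
  have n0 : (0 : ℝ) < Fintype.card M := by exact_mod_cast Fintype.card_pos
  rw [← darts_univ] at h0
  have d0 : ∀ S, ((darts G S).card : ℝ) ≤ G.maxDegree * S.card := fun S => by
    exact_mod_cast darts_card_le S
  have d1 : 0 < G.maxDegree := by
    have := le_of_mul_le_mul_right (h0.trans (d0 univ)) n0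
    exact_mod_cast (by linarith : (0 : ℝ) < G.maxDegree)
  have d2 : V ≤ m := Nat.le_mul_of_pos_left _ (by positivity)
  have d3 : ∀ S : Finset M, S.Nonempty → 9 / 10 * a * S.card ≤ (darts G S).card →
      2 * m ≤ S.card := fun S h1 h2 => by
    exact_mod_cast hr.trans (moore hc hk (by linarith) h1 (by linarith))
  obtain ⟨U, ρ, u0, u1, u2, u3⟩ := extremal (fun S => ((darts G S).card : ℝ)) (m := m) (V := V) ha
    (Nat.cast_nonneg G.maxDegree) (by omega) (by rw [hm]; push_cast; rfl)
    (by have := d3 univ univ_nonempty (by rw [card_univ]; nlinarith); rw [card_univ] at this; omega)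
    h0 d0 (fun S hS => by
      rcases S.eq_empty_or_nonempty with rfl | h
      · simp [darts]
      · exact (not_le.1 fun h' => absurd (d3 S h h') (by omega)).le)
  obtain ⟨col, hcol⟩ := exists_colouring (fun x y => G.dist x y ≤ r)
    (fun x y h => by rwa [G.dist_comm]) hV0 U fun x => by
      have b1 := ball_card_le hc x r
      have b2 : x ∈ univ.filter fun v => G.dist x v ≤ r := by simp
      exact lt_of_le_of_lt (card_le_card (erase_subset_erase _
        (filter_subset_filter _ (subset_univ U)))) ((card_erase_lt_of_mem b2).trans_le b1)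
  obtain ⟨X, φ, x1, x2, x3, x4⟩ := exists_pairing col U
  have e1 : ∑ j : Fin V × (M → Bool), ((X.filter fun x => col x = j.1).card : ℝ) =
      2 ^ Fintype.card M * X.card := by
    rw [Fintype.sum_prod_type_right]
    simp only [card_eq_sum_ones, Nat.cast_sum, sum_fiberwise]
    simp
  have e2 : (U.card : ℝ) ≤ 4 * X.card := by exact_mod_cast (by omega)
  have e3 : (0 : ℝ) < X.card := by exact_mod_cast (by omega)
  refine ⟨V, fun j => X.filter fun x => col x = j.1, fun j x => if j.2 x then x else φ x,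
    fun j x => if j.2 x then φ x else x, darts G U, 2 ^ Fintype.card M * (20 / ρ), by positivity,
    fun e he => (mem_darts.1 he).2.2, fun j x hx y hy => ?_, by rw [e1]; positivity, ?_,
    coarea _ _ _ _ (by positivity) fun A => ?_⟩
  · simp only [mem_filter] at hx hy
    have b1 := x2 x hx.1
    have b2 := x2 y hy.1
    refine not_le.1 fun h => ?_
    by_cases c1 : j.2 x <;> by_cases c2 : j.2 y <;> simp only [c1, c2, if_true, if_false,
      Bool.false_eq_true] at h
    · exact hcol _ (x1 hx.1) _ b2.1 (fun e => b2.2.1 (e ▸ hx.1)) h (by rw [b2.2.2, hx.2, hy.2])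
    · exact hcol _ (x1 hx.1) _ (x1 hy.1) (fun e => c2 (e ▸ c1)) h (by rw [hx.2, hy.2])
    · exact hcol _ b1.1 _ b2.1 (fun e => c1 (x3 hx.1 hy.1 e ▸ c2)) h
        (by rw [b1.2.2, b2.2.2, hx.2, hy.2])
    · exact hcol _ b1.1 _ (x1 hy.1) (fun e => b1.2.1 (e ▸ hy.1)) h (by rw [b1.2.2, hx.2, hy.2])
  · rw [e1, mul_assoc, mul_left_comm 80]
    refine mul_le_mul_of_nonneg_left ?_ (by positivity)
    rw [div_mul_eq_mul_div, div_le_iff₀ u0]
    nlinarith
  · wlog hA : 2 * (U ∩ A).card ≤ U.card generalizing A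
    · have b1 := this Aᶜ (by
        have := card_sdiff_add_card_inter U A
        rw [← sdiff_eq_inter_compl]
        omega)
      have b2 : ∀ x y, ind Aᶜ x - ind Aᶜ y = -(ind A x - ind A y) := fun x y => by
        by_cases h1 : x ∈ A <;> by_cases h2 : y ∈ A <;> simp [ind, h1, h2]
      simpa only [b2, sum_neg_distrib, abs_neg] using b1
    have b1 := sign_bound col X (fun x => ind A x - ind A (φ x)) (s := (U ∩ A).card)
      (fun x => by by_cases h1 : x ∈ A <;> by_cases h2 : φ x ∈ A <;> simp [ind, h1, h2]) (by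
        calc _ ≤ ∑ x ∈ X, ind A x + ∑ x ∈ X.image φ, ind A x := by
              rw [sum_image x3, ← sum_add_distrib]
              exact sum_le_sum fun x _ => by
                by_cases h1 : x ∈ A <;> by_cases h2 : φ x ∈ A <;> simp [ind, h1, h2]
          _ ≤ ∑ x ∈ U, ind A x := by
              rw [← sum_union (disjoint_right.2 fun y hy => by
                obtain ⟨x, hx, rfl⟩ := mem_image.1 hy
                exact (x2 x hx).2.1)]
              refine sum_le_sum_of_subset_of_nonneg (union_subset x1 fun y hy => ?_)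
                fun x _ _ => by unfold ind; positivity
              obtain ⟨x, hx, rfl⟩ := mem_image.1 hy
              exact (x2 x hx).1
          _ = _ := by simp [ind])
    have b2 := (u3 _ inter_subset_left hA).trans
      (mul_le_mul_of_nonneg_left (cut_le U A) (by norm_num))
    refine le_trans (le_of_eq (sum_congr rfl fun j _ => congrArg _
      (sum_congr rfl fun x _ => ?_))) (b1.trans ?_)
    · split_ifs <;> simp
    · rw [mul_assoc]
      gcongr
      rw [div_mul_eq_mul_div, le_div_iff₀ u0]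
      linarith

end Pool.Agent.Lib.MP_b76e55_an
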