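import Pool.Agent.Lib.MP_b76e55_an.Comb
import Pool.Agent.Lib.MP_b76e55_an.Lin

/-!
From a bi-Lipschitz map of the transportation cost space into `L₁` to a system of weighted cuts.
-/

namespace Pool.Agent.Lib.MP_b76e55_an

open Finset MeasureTheory

variable {M : Type} [Fintype M] [DecidableEq M]

/-- The length of the set of thresholds whose super-level set is `A`. -/
noncomputable def kap (g : M → ℝ) (A : Finset M) : ℝ :=
  volume.real ((fun τ : ℝ => univ.filter fun x => τ < g x) ⁻¹' {A})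

omit [DecidableEq M] in
theorem kap_nonneg (g : M → ℝ) (A : Finset M) : 0 ≤ kap g A := measureReal_nonneg

theorem kap_set {α : Type*} [MeasurableSpace α] {g : M → α → ℝ} (hg : ∀ x, Measurable (g x))
    (A : Finset M) : MeasurableSet {e : α × ℝ | (univ.filter fun x => e.2 < g x e.1) = A} := by
  have : {e : α × ℝ | (univ.filter fun x => e.2 < g x e.1) = A} =
      ⋂ x, {e : α × ℝ | e.2 < g x e.1 ↔ x ∈ A} := by
    ext e
    simp [Finset.ext_iff]
  rw [this]
  refine MeasurableSet.iInter fun x => ?_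
  have h : MeasurableSet {e : α × ℝ | e.2 < g x e.1} :=
    measurableSet_lt measurable_snd ((hg x).comp measurable_fst)
  by_cases hx : x ∈ A
  · simpa [hx] using h
  · simpa [hx, Set.compl_def] using h.compl

theorem kap_meas {α : Type*} [MeasurableSpace α] {g : M → α → ℝ} (hg : ∀ x, Measurable (g x))
    (A : Finset M) : Measurable fun a => kap (fun x => g x a) A :=
  (measurable_measure_prodMk_left (ν := (volume : Measure ℝ)) (kap_set hg A)).ennreal_toReal

theorem kap_sum (g : M → ℝ) (x y : M) :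
    ∑ A, kap g A * (ind A x * (1 - ind A y)) = max (g x - g y) 0 := by
  have hm : ∀ A : Finset M, MeasurableSet ((fun τ : ℝ => univ.filter fun x => τ < g x) ⁻¹' {A}) :=
    fun A => (measurable_prodMk_left (x := ())) (kap_set (α := Unit) (g := fun x _ => g x)
      (fun _ => measurable_const) A)
  have hs : (fun τ : ℝ => univ.filter fun x => τ < g x) ⁻¹'
      ↑(univ.filter fun A : Finset M => x ∈ A ∧ y ∉ A) = Set.Ico (g y) (g x) := by
    ext τ
    simp [and_comm]
  have h := sum_measureReal_preimage_singleton (μ := (volume : Measure ℝ))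
    (univ.filter fun A : Finset M => x ∈ A ∧ y ∉ A) (fun A _ => hm A) (fun A hA => by
      refine ne_top_of_le_ne_top (b := volume (Set.Ico (g y) (g x))) (by simp) (measure_mono ?_)
      rw [← hs]
      exact Set.preimage_mono (by simpa using hA))
  rw [hs, Real.volume_real_Ico, sum_filter] at h
  rw [← h]
  refine sum_congr rfl fun A _ => ?_
  by_cases h1 : x ∈ A <;> by_cases h2 : y ∈ A <;> simp [ind, kap, h1, h2]

theorem kap_abs (g : M → ℝ) (x y : M) : ∑ A, kap g A * |ind A x - ind A y| = |g x - g y| := by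
  have e : ∀ A, |ind A x - ind A y| = ind A x * (1 - ind A y) + ind A y * (1 - ind A x) := by
    intro A
    by_cases h1 : x ∈ A <;> by_cases h2 : y ∈ A <;> simp [ind, h1, h2]
  simp only [e, mul_add, sum_add_distrib, kap_sum]
  rcases le_total (g x) (g y) with h | h
  · rw [max_eq_right (by linarith), max_eq_left (by linarith), abs_of_nonpos (by linarith)]
    ring
  · rw [max_eq_left (by linarith), max_eq_right (by linarith), abs_of_nonneg (by linarith)]
    ring

theorem kap_sub (g : M → ℝ) (x y : M) : ∑ A, kap g A * (ind A x - ind A y) = g x - g y := by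
  have e : ∀ A, ind A x - ind A y = ind A x * (1 - ind A y) - ind A y * (1 - ind A x) :=
    fun A => by ring
  simp only [e, mul_sub (kap g _), sum_sub_distrib, kap_sum]
  rcases le_total (g x) (g y) with h | h
  · rw [max_eq_right (by linarith), max_eq_left (by linarith)]
    ring
  · rw [max_eq_left (by linarith), max_eq_right (by linarith)]
    ring

theorem l1_cut {α : Type*} {mα : MeasurableSpace α} {ν₀ : Measure α} (f : M → Lp ℝ 1 ν₀) :
    ∃ ν : Finset M → ℝ, (∀ A, 0 ≤ ν A) ∧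
      (∀ x y, ∑ A, ν A * |ind A x - ind A y| ≤ ‖f x - f y‖) ∧
      ∀ (c : M → ℝ) (o : M), ‖∑ x, c x • (f x - f o)‖ ≤
        ∑ A, ν A * |∑ x, c x * (ind A x - ind A o)| := by
  have hm : ∀ A, Measurable fun a => kap (fun x => f x a) A :=
    kap_meas fun x => (Lp.stronglyMeasurable (f x)).measurable
  have hi : ∀ A (φ : ℝ), ((∀ x y, ind A x = ind A y) → φ = 0) →
      Integrable (fun a => kap (fun x => f x a) A * φ) ν₀ := by
    intro A φ h
    by_cases hA : ∀ x y, ind A x = ind A y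
    · simp [h hA]
    · push Not at hA
      obtain ⟨x, y, hxy⟩ := hA
      refine Integrable.mul_const ?_ _
      refine ((L1.integrable_coeFn (f x)).sub (L1.integrable_coeFn (f y))).abs.mono'
        (hm A).aestronglyMeasurable (ae_of_all _ fun a => ?_)
      rw [Real.norm_of_nonneg (kap_nonneg _ _), Pi.sub_apply, ← kap_abs (fun x => f x a) x y]
      refine le_trans ?_ (single_le_sum (f := fun A => kap (fun x => f x a) A * |ind A x - ind A y|)
        (fun A _ => mul_nonneg (kap_nonneg _ _) (abs_nonneg _)) (mem_univ A))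
      have : |ind A x - ind A y| = 1 := by
        by_cases h1 : x ∈ A <;> by_cases h2 : y ∈ A <;> simp_all [ind]
      simp [this]
  refine ⟨fun A => ∫ a, kap (fun x => f x a) A ∂ν₀, fun A => integral_nonneg fun a => kap_nonneg _ _,
    fun x y => ?_, fun c o => ?_⟩
  · simp only [← integral_mul_const]
    rw [← integral_finsetSum _ fun A _ => hi A _ fun h => by simp [h x y], L1.norm_eq_integral_norm]
    refine le_of_eq (integral_congr_ae ?_)
    filter_upwards [Lp.coeFn_sub (f x) (f y)] with a ha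
    rw [ha, kap_abs]
    rfl
  · simp only [← integral_mul_const]
    have h1 := fun A (_ : A ∈ univ) => hi A |∑ x, c x * (ind A x - ind A o)| fun h => by
      simp [h _ o]
    rw [← integral_finsetSum _ h1, L1.norm_eq_integral_norm]
    refine integral_mono_ae (L1.integrable_coeFn _).norm (integrable_finsetSum _ h1) ?_
    filter_upwards [Lp.coeFn_fun_finsetSum univ fun x => c x • (f x - f o),
      ae_all_iff.2 fun x => Lp.coeFn_smul (c x) (f x - f o),
      ae_all_iff.2 fun x => Lp.coeFn_sub (f x) (f o)] with a b1 b2 b3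
    simp only [b1, b2, Pi.smul_apply, b3, Pi.sub_apply, smul_eq_mul, Real.norm_eq_abs]
    simp only [← kap_sub (fun x => f x a) _ o, mul_sum]
    rw [sum_comm]
    refine (abs_sum_le_sum_abs _ _).trans (sum_le_sum fun A _ => le_of_eq ?_)
    rw [← abs_of_nonneg (kap_nonneg (fun x => f x a) A), ← abs_mul, abs_of_nonneg (kap_nonneg _ _),
      mul_sum]
    exact congrArg _ (sum_congr rfl fun x _ => by ring)

section
variable {W E : Type*} [AddCommGroup W] [NormedAddCommGroup E] [NormedSpace ℝ E]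

theorem avs_ge {L : ℕ} (hL : 0 < L) (vs : List W) {h : W → ℝ} {c : ℝ} (hb : ∀ z, c ≤ h z) (z : W) :
    c ≤ avs L vs h z := by
  induction vs generalizing z with
  | nil => exact hb z
  | cons a l ih => exact le_av hL a ih z

theorem avs_le {L : ℕ} (hL : 0 < L) (vs : List W) {h : W → ℝ} {c : ℝ} (hb : ∀ z, h z ≤ c) (z : W) :
    avs L vs h z ≤ c := by
  simpa using sum_avs_le (J := Unit) hL vs (h := fun _ => h) (K := c) (by simpa using hb) z

theorem avs_lin {I : Type*} [Fintype I] (L : ℕ) (vs : List W) (h : W → I → ℝ) (φ : I → ℝ) (z : W) :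
    ∑ A, avs L vs (fun z => h z A) z * φ A = avs L vs (fun z => ∑ A, h z A * φ A) z := by
  induction vs generalizing z with
  | nil => rfl
  | cons a l ih =>
    change ∑ A, av L a (avs L l _) z * φ A = av L a (avs L l _) z
    simp only [av, smul_eq_mul, ← ih, mul_assoc, ← mul_sum, sum_mul]
    rw [sum_comm]

omit [NormedSpace ℝ E] [DecidableEq M] in
theorem approx_nat {G : W → E} {b : M → W} {η : ℝ} (hη : 0 ≤ η)
    (hG : ∀ x y z, ‖(G (z + b y + b x) - G (z + b y)) - (G (z + b x) - G z)‖ ≤ η)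
    (k : M → ℕ) (z : W) : ‖G (z + ∑ x, k x • b x) - G z - ∑ x, k x • (G (z + b x) - G z)‖ ≤
      ((∑ x, k x : ℕ) : ℝ) ^ 2 * η := by
  have h := approx_add (M := Σ _ : M, ℕ) (G := G) (b := fun e => b e.1) hη
    (fun x y z => hG x.1 y.1 z) (univ.sigma fun x => range (k x)) id z
  simp only [id, sum_sigma, card_sigma, sum_const, card_range] at h
  exact h

theorem finite_tests {J : Type*} [Fintype J] (Φ : W → E) (N : W → ℝ) {s D : ℝ} (hs : 0 < s)
    (hlo : ∀ z v, s * N v ≤ ‖Φ (z + v) - Φ z‖) (hhi : ∀ z v, ‖Φ (z + v) - Φ z‖ ≤ s * D * N v)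
    (b : M → W) (o : M) (ho : b o = 0)
    (hcut : ∀ f : M → E, ∃ ν : Finset M → ℝ, (∀ A, 0 ≤ ν A) ∧
      (∀ x y, ∑ A, ν A * |ind A x - ind A y| ≤ ‖f x - f y‖) ∧
      ∀ (c : M → ℝ) (o : M), ‖∑ x, c x • (f x - f o)‖ ≤
        ∑ A, ν A * |∑ x, c x * (ind A x - ind A o)|)
    (P Q : J → M → ℕ) (n : J → ℝ)
    (hn : ∀ j (L : ℕ), L * n j ≤ N (L • (∑ x, P j x • b x - ∑ x, Q j x • b x)))
    {ε : ℝ} (hε : 0 < ε) : ∃ ν : Finset M → ℝ, (∀ A, 0 ≤ ν A) ∧
      (∀ x y, ∑ A, ν A * |ind A x - ind A y| ≤ D * N (b x - b y)) ∧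
      ∀ j, n j ≤ ∑ A, ν A * |∑ x, ((P j x : ℝ) - Q j x) * (ind A x - ind A o)| + ε := by
  have big : ∀ d : ℝ, ∃ L : ℕ, 0 < L ∧ d / L ≤ s * ε / 2 := fun d => by
    obtain ⟨L, hL⟩ := exists_nat_gt (max (d / (s * ε / 2)) 0)
    have h0 : (0 : ℝ) < L := (le_max_right _ _).trans_lt hL
    refine ⟨L, by exact_mod_cast h0, ?_⟩
    have := (le_max_left _ _).trans_lt hL
    rw [div_lt_iff₀ (by positivity)] at this
    rw [div_le_iff₀ h0]
    linarith
  set B : ℝ := ∑ x, |s * D * N (b x)| with hB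
  have hB0 : 0 ≤ B := sum_nonneg fun _ _ => abs_nonneg _
  set K : ℝ := ∑ j, (((∑ x, P j x : ℕ) : ℝ) ^ 2 + ((∑ x, Q j x : ℕ) : ℝ) ^ 2) with hK
  obtain ⟨m, hm, hm1⟩ := big (K * (2 * B))
  have hm0 : (0 : ℝ) < m := by exact_mod_cast hm
  set G := avs m (univ.toList.map b) Φ with hG
  have g1 : ∀ x y z, ‖(G (z + b y + b x) - G (z + b y)) - (G (z + b x) - G z)‖ ≤ 2 * B / m := by
    intro x y z
    have e := avs_diff m (univ.toList.map b) (b x) 0 Φ
    simp only [add_zero] at e
    rw [hG, e, e]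
    refine avs_shift hm (List.mem_map.2 ⟨y, by simp, rfl⟩) (fun z => ?_) z
    exact ((hhi z (b x)).trans (le_abs_self _)).trans
      (single_le_sum (f := fun x => |s * D * N (b x)|) (fun _ _ => abs_nonneg _) (mem_univ x))
  have g2 : ∀ u v z, ‖G (z + u) - G (z + v)‖ ≤ s * D * N (u - v) := by
    intro u v z
    rw [hG, avs_diff]
    refine avs_norm hm _ (fun y => ?_) z
    have := hhi (y + v) (u - v)
    rwa [add_assoc, add_sub_cancel] at this
  obtain ⟨R, hR⟩ := avs_close hm (univ.toList.map b) hhi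
  obtain ⟨L, hL, hL1⟩ := big (2 * R)
  have hL0 : (0 : ℝ) < L := by exact_mod_cast hL
  choose ν n1 n2 n3 using fun z => hcut fun x => G (z + b x) - G z
  let k : J → W → ℝ := fun j z => ‖G (z + ∑ x, P j x • b x) - G (z + ∑ x, Q j x • b x)‖
  have g3 : ∀ j z, k j z - s * ε / 2 ≤
      ∑ A, ν z A * |∑ x, ((P j x : ℝ) - Q j x) * (ind A x - ind A o)| := by
    intro j z
    refine le_trans ?_ (n3 z _ o)
    have b1 := approx_nat (by positivity) g1 (P j) z
    have b2 := approx_nat (by positivity) g1 (Q j) z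
    have b3 : ((∑ x, P j x : ℕ) : ℝ) ^ 2 + ((∑ x, Q j x : ℕ) : ℝ) ^ 2 ≤ K :=
      single_le_sum (f := fun j => ((∑ x, P j x : ℕ) : ℝ) ^ 2 + ((∑ x, Q j x : ℕ) : ℝ) ^ 2)
        (fun _ _ => by positivity) (mem_univ j)
    have b4 := mul_le_mul_of_nonneg_right b3 (by positivity : 0 ≤ 2 * B / m)
    rw [mul_div_assoc] at hm1
    simp only [ho, add_zero, sub_self, sub_zero, sub_smul, sum_sub_distrib, Nat.cast_smul_eq_nsmul]
    generalize ∑ x, P j x • (G (z + b x) - G z) = u at *
    generalize ∑ x, Q j x • (G (z + b x) - G z) = v at *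
    have e : G (z + ∑ x, P j x • b x) - G (z + ∑ x, Q j x • b x) = (u - v) +
        ((G (z + ∑ x, P j x • b x) - G z - u) - (G (z + ∑ x, Q j x • b x) - G z - v)) := by
      abel
    have b5 := (norm_add_le _ _).trans (add_le_add (le_refl ‖u - v‖) (norm_sub_le
      (G (z + ∑ x, P j x • b x) - G z - u) (G (z + ∑ x, Q j x • b x) - G z - v)))
    rw [← e] at b5
    simp only [k]
    linarith
  let μ : J → W := fun j => ∑ x, P j x • b x - ∑ x, Q j x • b x
  have g4 : ∀ j z, s * n j - s * ε / 2 ≤ av L (μ j) (k j) z := by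
    intro j z
    set y := z + ∑ x, Q j x • b x with hy
    have a1 : ∀ l : ℕ, k j (z + l • μ j) = ‖G (y + (l + 1) • μ j) - G (y + l • μ j)‖ := by
      intro l
      simp only [k, hy, μ, succ_nsmul]
      congr 3 <;> abel
    have a2 := norm_sum_le (range L) fun l => G (y + (l + 1) • μ j) - G (y + l • μ j)
    rw [sum_range_sub (fun l => G (y + l • μ j)), zero_smul, add_zero] at a2
    have a3 := hlo y (L • μ j)
    have a4 := mul_le_mul_of_nonneg_left (hn j L) hs.le
    have a5 := hR (y + L • μ j)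
    have a6 := hR y
    have a7 : Φ (y + L • μ j) - Φ y = (G (y + L • μ j) - G y) -
        (G (y + L • μ j) - Φ (y + L • μ j)) + (G y - Φ y) := by abel
    have a8 := (norm_add_le _ _).trans (add_le_add (norm_sub_le (G (y + L • μ j) - G y)
      (G (y + L • μ j) - Φ (y + L • μ j))) (le_refl ‖G y - Φ y‖))
    rw [← a7] at a8
    rw [div_le_iff₀ hL0] at hL1
    rw [av, smul_eq_mul, le_inv_mul_iff₀ hL0]
    simp only [a1]
    nlinarith
  refine ⟨fun A => s⁻¹ * avs L (univ.toList.map μ) (fun z => ν z A) 0, fun A =>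
    mul_nonneg (by positivity) (avs_ge hL _ (fun z => n1 z A) 0), fun x y => ?_, fun j => ?_⟩
  · simp only [mul_assoc, ← mul_sum, avs_lin]
    rw [inv_mul_le_iff₀ hs, ← mul_assoc]
    refine avs_le hL _ (fun z => (n2 z x y).trans ?_) 0
    rw [sub_sub_sub_cancel_right]
    exact g2 _ _ _
  · simp only [mul_assoc, ← mul_sum, avs_lin]
    rw [← sub_le_iff_le_add, le_inv_mul_iff₀ hs]
    refine le_avs hL (v := μ j) (List.mem_map.2 ⟨j, by simp, rfl⟩) (fun z => ?_) 0
    have a1 := g4 j z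
    simp only [av, smul_eq_mul] at a1 ⊢
    have a2 := sum_le_sum fun l (_ : l ∈ range L) => g3 j (z + l • μ j)
    rw [sum_sub_distrib, sum_const, card_range, nsmul_eq_mul] at a2
    rw [le_inv_mul_iff₀ hL0] at a1 ⊢
    nlinarith

end

/-- A system of weighted cuts that norms the transportation cost space with distortion `D`. -/
structure Cuts [MetricSpace M] (ν : Finset M → ℝ) (D : ℝ) : Prop where
  nonneg : ∀ A, 0 ≤ ν A
  upper : ∀ x y, ∑ A, ν A * |ind A x - ind A y| ≤ D * dist x y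
  lower : ∀ μ : M → ℝ, ∑ x, μ x = 0 → ∀ f : M → ℝ, (∀ x y, f x - f y ≤ dist x y) →
    ∑ x, μ x * f x ≤ ∑ A, ν A * |∑ x ∈ A, μ x|

theorem exists_cuts [MetricSpace M] [Nonempty M] {α : Type*} {mα : MeasurableSpace α}
    {ν₀ : Measure α} (N : (M → ℝ) → ℝ)
    (hN1 : ∀ μ : M → ℝ, ∑ x, μ x = 0 → ∀ f : M → ℝ, (∀ x y, f x - f y ≤ dist x y) →
      ∑ x, μ x * f x ≤ N μ)
    (hN2 : ∀ u v, N (Pi.single u 1 - Pi.single v 1) ≤ dist u v)
    (F : (M → ℝ) → Lp ℝ 1 ν₀) {s D : ℝ} (hs : 0 < s) (hD : 0 ≤ D)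
    (hF : ∀ u v : M → ℝ, ∑ x, u x = 0 → ∑ x, v x = 0 →
      s * N (u - v) ≤ ‖F u - F v‖ ∧ ‖F u - F v‖ ≤ s * D * N (u - v)) :
    ∃ ν, Cuts (M := M) ν D := by
  obtain ⟨o⟩ := ‹Nonempty M›
  let W := LinearMap.ker (Fintype.linearCombination ℝ fun _ : M => (1 : ℝ))
  have hW : ∀ w : M → ℝ, w ∈ W ↔ ∑ x, w x = 0 := fun w => by
    simp [W, Fintype.linearCombination_apply]
  let b : M → W := fun x => ⟨Pi.single x 1 - Pi.single o 1, (hW _).2 (by simp)⟩
  set B : ℝ := D * ∑ x : M, ∑ y : M, dist x y with hB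
  let I := (M → ℕ) × (M → ℕ) × {f : M → ℝ // ∀ x y, f x - f y ≤ dist x y}
  let t : I → Set (Finset M → ℝ) := fun i => {ν | ∑ x, ((i.1 x : ℝ) - i.2.1 x) * (i.2.2.1 x - i.2.2.1 o)
    ≤ ∑ A, ν A * |∑ x, ((i.1 x : ℝ) - i.2.1 x) * (ind A x - ind A o)| + 1}
  let S : Set (Finset M → ℝ) := Set.pi Set.univ (fun _ => Set.Icc 0 B) ∩
    ⋂ x, ⋂ y, {ν | ∑ A, ν A * |ind A x - ind A y| ≤ D * dist x y}
  have hS : IsCompact S := (isCompact_univ_pi fun _ => isCompact_Icc).inter_right
    (isClosed_iInter fun x => isClosed_iInter fun y => isClosed_le (by fun_prop) continuous_const)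
  obtain ⟨ν, hν1, hν2⟩ := hS.inter_iInter_nonempty t
    (fun i => isClosed_le continuous_const (by fun_prop)) (fun u => by
      obtain ⟨ν, n1, n2, n3⟩ := finite_tests (J := u) (fun w : W => F w.1) (fun w => N w.1) hs
        (fun z v => by simpa using (hF (z + v).1 z.1 ((hW _).1 (z + v).2) ((hW _).1 z.2)).1)
        (fun z v => by simpa using (hF (z + v).1 z.1 ((hW _).1 (z + v).2) ((hW _).1 z.2)).2)
        b o (by simp [b]) l1_cut (fun j => j.1.1) (fun j => j.1.2.1)
        (fun j => ∑ x, ((j.1.1 x : ℝ) - j.1.2.1 x) * (j.1.2.2.1 x - j.1.2.2.1 o))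
        (fun j L => by
          refine le_trans (le_of_eq ?_) (hN1 _ ((hW _).1 (Subtype.property _)) _ j.1.2.2.2)
          have e : ∀ k : M → ℕ, ∑ y, ((∑ x, k x • b x : W) : M → ℝ) y * j.1.2.2.1 y =
              ∑ x, (k x : ℝ) * (j.1.2.2.1 x - j.1.2.2.1 o) := fun k => by
            simp only [b, Submodule.coe_sum, Submodule.coe_smul_of_tower, Finset.sum_apply,
              nsmul_eq_mul, sum_mul]
            rw [sum_comm]
            refine sum_congr rfl fun x _ => ?_
            simp [mul_assoc, ← mul_sum, sub_mul, Pi.single_apply]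
          simp only [Submodule.coe_smul_of_tower, Submodule.coe_sub, Pi.smul_apply, Pi.sub_apply,
            nsmul_eq_mul, mul_assoc, ← mul_sum, sub_mul, sum_sub_distrib, e]) one_pos
      have key : ∀ φ : Finset M → ℝ, (∀ A, (∀ x y, ind A x = ind A y) → φ A = 0) →
          ∑ A, (if ∀ x y, ind A x = ind A y then 0 else ν A) * φ A = ∑ A, ν A * φ A :=
        fun φ h => sum_congr rfl fun A _ => by
          split_ifs with hA
          · simp [h A hA]
          · rfl
      have n4 : ∀ x y, ∑ A, ν A * |ind A x - ind A y| ≤ D * dist x y := fun x y =>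
        (n2 x y).trans (mul_le_mul_of_nonneg_left (by simpa [b] using hN2 x y) hD)
      have d1 : ∀ x y : M, D * dist x y ≤ B := fun x y => mul_le_mul_of_nonneg_left
        ((single_le_sum (f := fun y => dist x y) (fun _ _ => dist_nonneg) (mem_univ y)).trans
          (single_le_sum (f := fun x => ∑ y : M, dist x y)
            (fun _ _ => sum_nonneg fun _ _ => dist_nonneg) (mem_univ x))) hD
      refine ⟨fun A => if ∀ x y, ind A x = ind A y then 0 else ν A, ⟨fun A _ => ?_, ?_⟩, ?_⟩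
      · beta_reduce
        split_ifs with hA
        · exact ⟨le_rfl, by simpa using d1 o o⟩
        · push Not at hA
          obtain ⟨x, y, hxy⟩ := hA
          refine ⟨n1 A, le_trans ?_ ((n4 x y).trans (d1 x y))⟩
          refine le_trans ?_ (single_le_sum (f := fun A => ν A * |ind A x - ind A y|)
            (fun A _ => mul_nonneg (n1 A) (abs_nonneg _)) (mem_univ A))
          have : |ind A x - ind A y| = 1 := by
            by_cases h1 : x ∈ A <;> by_cases h2 : y ∈ A <;> simp_all [ind]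
          simp [this]
      · simp only [Set.mem_iInter, Set.mem_ofPred_eq]
        intro x y
        rw [key _ fun A h => by simp [h x y]]
        exact n4 x y
      · simp only [Set.mem_iInter, t, Set.mem_ofPred_eq]
        intro i hi
        rw [key _ fun A h => by simp [h _ o]]
        exact n3 ⟨i, hi⟩)
  have n1 : ∀ A, 0 ≤ ν A := fun A => (hν1.1 A (Set.mem_univ _)).1
  refine ⟨ν, n1, fun x y => Set.mem_iInter.1 (Set.mem_iInter.1 hν1.2 x) y, fun μ hμ f hf => ?_⟩
  have e1 : ∀ g : M → ℝ, ∑ x, μ x * (g x - g o) = ∑ x, μ x * g x := fun g => by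
    simp only [mul_sub, sum_sub_distrib, ← sum_mul, hμ, zero_mul, sub_zero]
  have key : ∀ L : ℕ, L * (∑ x, μ x * f x - ∑ A, ν A * |∑ x ∈ A, μ x|) ≤
      ∑ x, |f x - f o| + ∑ A, ν A * ∑ x, |ind A x - ind A o| + 1 := by
    intro L
    have h := Set.mem_iInter.1 hν2 ⟨fun x => ⌊L * μ x⌋.toNat, fun x => (-⌊L * μ x⌋).toNat, f, hf⟩
    have e2 : ∀ z : ℤ, ((z.toNat : ℝ) - ((-z).toNat : ℝ)) = z := fun z => by
      exact_mod_cast Int.toNat_sub_toNat_neg z
    simp only [t, Set.mem_ofPred_eq, e2] at h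
    have e3 : ∀ g : M → ℝ, |∑ x, (⌊L * μ x⌋ : ℝ) * (g x - g o) - L * ∑ x, μ x * g x| ≤
        ∑ x, |g x - g o| := fun g => by
      rw [← e1, mul_sum, ← sum_sub_distrib]
      refine (abs_sum_le_sum_abs _ _).trans (sum_le_sum fun x _ => ?_)
      rw [← mul_assoc, ← sub_mul, abs_mul]
      refine mul_le_of_le_one_left (abs_nonneg _) (abs_le.2 ⟨?_, ?_⟩)
      · linarith [Int.lt_floor_add_one (L * μ x)]
      · linarith [Int.floor_le (L * μ x)]
    have e4 : ∑ A, ν A * |∑ x, (⌊L * μ x⌋ : ℝ) * (ind A x - ind A o)| ≤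
        ∑ A, ν A * (L * |∑ x ∈ A, μ x| + ∑ x, |ind A x - ind A o|) :=
      sum_le_sum fun A _ => mul_le_mul_of_nonneg_left (by
        have a1 := e3 (ind A)
        have a2 : ∑ x, μ x * ind A x = ∑ x ∈ A, μ x := by simp [ind]
        rw [a2] at a1
        have a3 := abs_sub_abs_le_abs_sub (∑ x, (⌊L * μ x⌋ : ℝ) * (ind A x - ind A o))
          (L * ∑ x ∈ A, μ x)
        rw [abs_mul, Nat.abs_cast] at a3
        linarith) (n1 A)
    simp only [mul_add, sum_add_distrib, mul_left_comm _ (L : ℝ), ← mul_sum] at e4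
    have e5 := (abs_le.1 (e3 f)).1
    rw [mul_sub]
    linarith
  by_contra hc
  obtain ⟨L, hL⟩ := exists_nat_gt ((∑ x, |f x - f o| + ∑ A, ν A * ∑ x, |ind A x - ind A o| + 1) /
    (∑ x, μ x * f x - ∑ A, ν A * |∑ x ∈ A, μ x|))
  rw [div_lt_iff₀ (by linarith)] at hL
  linarith [key L]

end Pool.Agent.Lib.MP_b76e55_an
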