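import Pool.Agent.Lib.MP_b76e55_an.Scale

/-!
Decompositions of the whole space, duality and trees.
-/

namespace Pool.Agent.Lib.MP_b76e55_an

open Finset

variable {M : Type} [Fintype M] [DecidableEq M] [MetricSpace M]

section
variable {m : M → M → ℝ} {ν : Finset M → ℝ} {D : ℝ} {T : ℕ}

theorem scale' (hm : ∀ x y, 0 ≤ m x y) (hs : ∀ x y, m x y = m y x) (hν : Cuts ν D) (hD : 1 ≤ D)
    (hT : 1 ≤ T) (hL : Real.log (Fintype.card M) ≤ 2 ^ T) {R : ℝ} (hR : 0 < R) (C : Finset M)
    (hC : ∀ x ∈ C, ∀ y ∈ C, dist x y ≤ 2 * R) :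
    ∃ p : M → M, (∀ x ∈ C, p x ∈ C) ∧ (∀ x ∈ C, ∀ y ∈ C, p x = p y → dist x y ≤ R) ∧
      cost m C p ≤ 210000 * D * T ^ 2 / R * ∑ x ∈ C, wt m x := by
  rcases C.eq_empty_or_nonempty with rfl | ⟨o, -⟩
  · exact ⟨id, by simp, by simp, by simp [cost]⟩
  have : Nonempty M := ⟨o⟩
  have n0 : (0 : ℝ) < Fintype.card M := by exact_mod_cast Fintype.card_pos
  have T1 : (1 : ℝ) ≤ T := by exact_mod_cast hT
  set q := D * T with hq
  have q1 : 1 ≤ q := one_le_mul_of_one_le_of_one_le hD T1
  have q2 : q ≤ q * T := le_mul_of_one_le_right (by linarith) T1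
  set t := R / (8 * T) with ht
  have t0 : 0 < t := by positivity
  have t1 : R = 8 * T * t := by
    rw [ht]
    field_simp
  set L := Real.log (Fintype.card M) with hL'
  set g : ℕ → ℝ := fun j => L / 2 ^ j + (2080 * q * T + 1040 * q + 2) with hg
  have g1 : g T + 2080 * q * T ≤ 5203 * (q * T) := by
    have : L / 2 ^ T ≤ 1 := (div_le_one (by positivity)).2 hL
    simp only [hg]
    linarith
  have hσ : Valid g fun _ (_ : M) => (Fintype.card M : ℝ)⁻¹ := ⟨fun _ _ => by positivity,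
    fun _ => by simp, fun x => by
      simp [bm, hg, ← hL']
      positivity⟩
  obtain ⟨p, p1, p2, p3⟩ := scale (T := T) (t := t) (K := 2080 * q) (θ := 260 * q) (g := g)
    (N := ⌈10406 * (q * T)⌉₊ + 1) hm hs hν (by linarith) hR t0 (by linarith) (by positivity)
    (by positivity) rfl (by rw [t1]; nlinarith) (by rw [t1]; nlinarith) (fun j => by
      rw [div_div, le_div_iff₀ (by positivity)]
      have e : -(g j + 2080 * q * T) / 2 = -g (j + 1) + (260 * q + 260 * q + 1) := by
        simp only [hg, pow_succ]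
        field_simp
        ring
      rw [e, Real.exp_add, Real.exp_add, Real.exp_add, ← sq]
      gcongr
      · linarith [Real.add_one_le_exp (260 * q)]
      · linarith [Real.add_one_le_exp 1]) (by
      rw [pow_succ']
      refine mul_le_mul_of_nonneg_left ((Real.exp_le_exp.2 g1).trans ?_) zero_le_two
      rw [← Real.le_log_iff_exp_le (by positivity), Real.log_pow]
      nlinarith [Nat.le_ceil (10406 * (q * T)), Real.log_two_gt_d9]) C hC _ hσ
  refine ⟨p, p1, p2, p3.trans ?_⟩
  have w0 : 0 ≤ ∑ x ∈ C, wt m x := sum_nonneg fun x _ => wt_nonneg hm x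
  have a1 : ∑ x ∈ C, wt m x * psi T t (2080 * q) g (fun _ _ => (Fintype.card M : ℝ)⁻¹) x ≤
      T * ∑ x ∈ C, wt m x := by
    rw [mul_comm (T : ℝ), sum_mul]
    exact sum_le_sum fun x _ => mul_le_mul_of_nonneg_left (psi_le hσ x) (wt_nonneg hm x)
  refine (add_le_add le_rfl (mul_le_mul_of_nonneg_left a1 (by positivity))).trans ?_
  rw [← mul_assoc (128 * D / t), ← add_mul]
  refine mul_le_mul_of_nonneg_right ?_ w0
  have a2 : 128 * D / t * T = 1024 * (q * T) / R := by
    rw [ht, hq]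
    field_simp
    ring
  rw [a2, ← add_div]
  refine div_le_div_of_nonneg_right ?_ hR.le
  have a3 := Nat.ceil_lt_add_one (by positivity : 0 ≤ 10406 * (q * T))
  have a4 : D * T ^ 2 = q * T := by rw [hq]; ring
  push_cast
  linarith

theorem sep (hm : ∀ x y, 0 ≤ m x y) (hs : ∀ x y, m x y = m y x) (hν : Cuts ν D) (hD : 1 ≤ D)
    (hT : 1 ≤ T) (hL : Real.log (Fintype.card M) ≤ 2 ^ T) {R : ℝ} (hR : 0 < R) :
    ∃ p : M → M, (∀ x y, p x = p y → dist x y ≤ R) ∧
      cost m univ p ≤ 420000 * D * T ^ 2 / R * ∑ x, wt m x := by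
  have w0 : 0 ≤ ∑ x, wt m x := sum_nonneg fun x _ => wt_nonneg hm x
  obtain ⟨j, hj⟩ : ∃ j : ℕ, ∀ x y : M, dist x y ≤ 2 ^ j * R := by
    obtain ⟨j, hj⟩ := pow_unbounded_of_one_lt ((∑ x : M, ∑ y : M, dist x y) / R) one_lt_two
    exact ⟨j, fun x y => ((single_le_sum (f := fun y => dist x y) (fun _ _ => dist_nonneg)
      (mem_univ y)).trans (single_le_sum (f := fun x => ∑ y : M, dist x y)
        (fun _ _ => sum_nonneg fun _ _ => dist_nonneg) (mem_univ x))).trans
          ((div_lt_iff₀ hR).1 hj).le⟩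
  induction j generalizing R with
  | zero =>
    rcases isEmpty_or_nonempty M with h | ⟨⟨o⟩⟩
    · exact ⟨id, h.elim, by simp [cost]⟩
    · refine ⟨fun _ => o, fun x y _ => by simpa using hj x y, ?_⟩
      simp only [cost, if_true, sum_const_zero]
      positivity
  | succ j ih =>
    obtain ⟨p, p1, p2⟩ := ih (R := 2 * R) (by positivity) fun x y => by
      rw [← mul_assoc, ← pow_succ]
      exact hj x y
    choose s s1 s2 s3 using fun c : M => scale' hm hs hν hD hT hL hR (univ.filter fun x => p x = c)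
      fun x hx y hy => p1 x y ((mem_filter.1 hx).2.trans (mem_filter.1 hy).2.symm)
    have s4 : ∀ x, p (s (p x) x) = p x := fun x => (mem_filter.1 (s1 _ x (by simp))).2
    refine ⟨fun x => s (p x) x, fun x y h => ?_, ?_⟩
    · have e : p x = p y := by rw [← s4 x, ← s4 y, show s (p x) x = _ from h]
      exact s2 (p y) x (by simpa using e) y (by simp) (by simpa [e] using h)
    · have a1 := sum_le_sum fun c (_ : c ∈ univ) => s3 c
      rw [← mul_sum, sum_fiberwise] at a1
      have a2 : cost m univ (fun x => s (p x) x) ≤ cost m univ p +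
          ∑ c, cost m (univ.filter fun x => p x = c) (s c) := by
        have e : ∑ c, cost m (univ.filter fun x => p x = c) (s c) = ∑ x, ∑ y,
            if p y = p x then (if s (p x) x = s (p x) y then 0 else m x y) else 0 := by
          refine Eq.trans (sum_congr rfl fun c _ => sum_congr rfl fun x hx => ?_)
            (sum_fiberwise univ p _)
          rw [sum_filter, (mem_filter.1 hx).2]
        rw [e, cost, cost, ← sum_add_distrib]
        refine sum_le_sum fun x _ => ?_
        rw [← sum_add_distrib]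
        refine sum_le_sum fun y _ => ?_
        by_cases h : p x = p y
        · simp [h]
        · rw [if_neg h, if_neg (Ne.symm h), add_zero]
          split_ifs <;> simp [hm x y]
      have a3 : 420000 * D * T ^ 2 / (2 * R) = 210000 * D * T ^ 2 / R := by
        field_simp
        ring
      rw [a3] at p2
      have a4 : 420000 * D * T ^ 2 / R = 2 * (210000 * D * T ^ 2 / R) := by ring
      rw [a4]
      linarith

theorem sep' (hm : ∀ x y, 0 ≤ m x y) (hν : Cuts ν D) (hD : 1 ≤ D)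
    (hT : 1 ≤ T) (hL : Real.log (Fintype.card M) ≤ 2 ^ T) {R : ℝ} (hR : 0 < R) :
    ∃ p : M → M, (∀ x y, p x = p y → dist x y ≤ R) ∧
      ∑ x, ∑ y, m x y * (if p x = p y then 0 else 1) ≤
        ∑ x, ∑ y, m x y * (420000 * D * T ^ 2 / R * dist x y) := by
  obtain ⟨p, p1, p2⟩ := sep (m := fun x y => m x y + m y x)
    (fun x y => add_nonneg (hm x y) (hm y x)) (fun x y => add_comm _ _) hν hD hT hL hR
  refine ⟨p, p1, ?_⟩
  have e1 : cost (fun x y => m x y + m y x) univ p = ∑ x, ∑ y, m x y * (if p x = p y then 0 else 1) +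
      ∑ x, ∑ y, m y x * (if p y = p x then 0 else 1) := by
    simp only [cost, ← sum_add_distrib]
    refine sum_congr rfl fun x _ => sum_congr rfl fun y _ => ?_
    by_cases h : p x = p y
    · simp [h]
    · simp [h, Ne.symm h]
  have e2 : ∑ x, wt (fun x y => m x y + m y x) x =
      ∑ x, ∑ y, m x y * dist x y + ∑ x, ∑ y, m y x * dist y x := by
    simp only [wt, add_mul, sum_add_distrib, dist_comm]
  rw [e1, e2, sum_comm (f := fun x y => m y x * _), sum_comm (f := fun x y => m y x * _)] at p2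
  simp only [mul_left_comm _ (420000 * D * T ^ 2 / R), ← mul_sum]
  linarith

end

theorem minimax {ι P : Type} [Fintype ι] [Fintype P] (v : ι → P → ℝ) (c : P → ℝ)
    (h : ∀ m : P → ℝ, (∀ e, 0 ≤ m e) → ∃ i, ∑ e, m e * v i e ≤ ∑ e, m e * c e) :
    ∃ (k : ℕ) (w : Fin k → ℝ) (s : Fin k → ι), (∀ i, 0 ≤ w i) ∧ ∑ i, w i = 1 ∧
      ∀ e, ∑ i, w i * v (s i) e ≤ c e := by
  classical
  suffices H : ∃ w : ι → ℝ, (∀ i, 0 ≤ w i) ∧ ∑ i, w i = 1 ∧ ∀ e, ∑ i, w i * v i e ≤ c e by
    obtain ⟨w, w1, w2, w3⟩ := H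
    let s := (Fintype.equivFin ι).symm
    exact ⟨_, w ∘ s, s, fun i => w1 _, (s.sum_comp w).trans w2,
      fun e => (s.sum_comp fun i => w i * v i e).le.trans (w3 e)⟩
  by_contra hc
  let L := Fintype.linearCombination ℝ v
  obtain ⟨f, a, b, f1, f2, f3⟩ := geometric_hahn_banach_compact_closed
    ((convex_stdSimplex ℝ ι).linear_image L)
    ((isCompact_stdSimplex ℝ ι).image L.continuous_of_finiteDimensional) (convex_Iic c)
    isClosed_Iic (Set.disjoint_left.2 (by
      rintro _ ⟨w, hw, rfl⟩ h'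
      exact hc ⟨w, hw.1, hw.2, fun e => by
        simpa [L, Fintype.linearCombination_apply] using h' e⟩))
  have e : ∀ u : P → ℝ, ∑ e, -f (Pi.single e 1) * u e = -f u := fun u => by
    conv_rhs => rw [pi_eq_sum_univ' u]
    simp [mul_comm]
  obtain ⟨i, hi⟩ := h (fun e => -f (Pi.single e 1)) fun e => by
    by_contra h0
    have h1 : 0 < f (Pi.single e 1) := by linarith
    have h2 := f3 c Set.self_mem_Iic
    have h3 := f3 (c - ((f c - b) / f (Pi.single e 1)) • Pi.single e 1)
      (Set.mem_Iic.2 (sub_le_self _ (smul_nonneg (div_nonneg (by linarith) h1.le) (by simp))))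
    rw [map_sub, map_smul, smul_eq_mul, div_mul_cancel₀ _ h1.ne'] at h3
    linarith
  rw [e, e] at hi
  have h1 := f1 (v i) ⟨Pi.single i 1, single_mem_stdSimplex ℝ i, by simp [L]⟩
  linarith [f3 c Set.self_mem_Iic]

section
variable {ν : Finset M → ℝ} {D : ℝ} {T : ℕ}

theorem random_tree (hν : Cuts ν D) (hD : 1 ≤ D) (hT : 1 ≤ T)
    (hL : Real.log (Fintype.card M) ≤ 2 ^ T) {r Δ : ℝ} (hΔ : 0 < Δ) {J : ℕ}
    (hJ : Δ / 2 ^ (J + 1) < r) :
    ∃ (k : ℕ) (w : Fin k → ℝ) (t : Fin k → M → M → ℝ), (∀ i, 0 ≤ w i) ∧ ∑ i, w i = 1 ∧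
      (∀ i x, t i x x = 0) ∧ (∀ i x y, t i x y = t i y x) ∧
      (∀ i x y z, t i x y ≤ max (t i x z) (t i y z)) ∧
      (∀ i x y, r ≤ dist x y → min (dist x y) Δ ≤ t i x y) ∧
      ∀ x y, ∑ i, w i * t i x y ≤ 840000 * D * T ^ 2 * (J + 1 : ℕ) * dist x y := by
  classical
  let τ : (Fin (J + 1) → M → M) → M → M → ℝ := fun p x y =>
    ⨆ j, if p j x = p j y then 0 else Δ / 2 ^ j.1
  have τ0 : ∀ (p : Fin (J + 1) → M → M) x y j, 0 ≤ if p j x = p j y then 0 else Δ / 2 ^ j.1 :=
    fun p x y j => by positivity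
  have τ1 : ∀ p x y j, (if p j x = p j y then 0 else Δ / 2 ^ j.1) ≤ τ p x y := fun p x y j =>
    le_ciSup (f := fun j : Fin (J + 1) => if p j x = p j y then 0 else Δ / 2 ^ j.1)
      (Finite.bddAbove_range _) j
  have τ2 : ∀ p x y, τ p x y = τ p y x := fun p x y => by simp only [τ, eq_comm]
  obtain ⟨k, w, s, w1, w2, w3⟩ := minimax
    (ι := {p : Fin (J + 1) → M → M // ∀ j x y, p j x = p j y → dist x y ≤ Δ / 2 ^ (j.1 + 1)})
    (fun p (e : M × M) => τ p.1 e.1 e.2) (fun e => 840000 * D * T ^ 2 * (J + 1 : ℕ) * dist e.1 e.2)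
    fun m hm => by
      choose p p1 p2 using fun j : Fin (J + 1) => sep' (m := fun x y => m (x, y)) (fun x y => hm _) hν hD
        hT hL (R := Δ / 2 ^ (j.1 + 1)) (by positivity)
      refine ⟨⟨p, p1⟩, ?_⟩
      have a1 := sum_le_sum fun j (_ : j ∈ univ) =>
        mul_le_mul_of_nonneg_left (p2 j) (by positivity : 0 ≤ Δ / 2 ^ j.1)
      simp only [← Fintype.sum_prod_type', mul_sum] at a1
      simp only [Fintype.sum_prod_type_right (α₁ := Fin (J + 1))] at a1
      refine (sum_le_sum fun e _ => ?_).trans (a1.trans (sum_le_sum fun e _ => le_of_eq ?_))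
      · refine (mul_le_mul_of_nonneg_left (Real.iSup_le (fun j => single_le_sum
          (fun j _ => τ0 p e.1 e.2 j) (mem_univ j)) (sum_nonneg fun j _ => τ0 p e.1 e.2 j))
          (hm e)).trans (le_of_eq ?_)
        rw [mul_sum]
        exact sum_congr rfl fun j _ => by split_ifs <;> ring
      · rw [sum_congr rfl (g := fun _ => m e * (840000 * D * T ^ 2 * dist e.1 e.2)) fun j _ => by
          field_simp
          ring]
        simp
        ring
  refine ⟨k, w, fun i => τ (s i).1, w1, w2, fun i x => by simp [τ], fun i => τ2 _,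
    fun i x y z => Real.iSup_le (fun j => ?_) (le_max_of_le_left (Real.iSup_nonneg (τ0 _ _ _))),
    fun i x y h => ?_, fun x y => w3 (x, y)⟩
  · split_ifs with h
    · exact le_max_of_le_left (Real.iSup_nonneg (τ0 _ _ _))
    · by_cases h1 : (s i).1 j x = (s i).1 j z
      · exact le_max_of_le_right (by simpa [← h1, Ne.symm h] using τ1 (s i).1 y z j)
      · exact le_max_of_le_left (by simpa [h1] using τ1 (s i).1 x z j)
  · have h1 : ∃ j : ℕ, Δ / 2 ^ (j + 1) < dist x y := ⟨J, hJ.trans_le h⟩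
    have h2 := Nat.lt_succ_of_le (Nat.find_min' h1 (hJ.trans_le h))
    have h3 := Nat.find_spec h1
    have h4 := fun j => Nat.find_min h1 (m := j)
    generalize Nat.find h1 = j at h2 h3 h4
    have h5 := τ1 (s i).1 x y ⟨j, h2⟩
    rw [if_neg fun e => h3.not_ge ((s i).2 ⟨j, h2⟩ x y e)] at h5
    refine le_trans ?_ h5
    rcases j with _ | j
    · simp
    · exact min_le_of_left_le (not_lt.1 (h4 j j.lt_succ_self))

end

end Pool.Agent.Lib.MP_b76e55_an
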