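import Mathlib

/-!
Linear algebra over a finite field: a density increment large deviation bound and greedy
constructions of the two halves of a code.
-/

namespace Pool.Agent.Lib.MP_b76e55_an.Inv

open Finset Module
open scoped Classical

variable {k V : Type} [Field k] [Fintype k] [AddCommGroup V] [Module k V] [Fintype V]

/-- The number of elements of a subspace. -/
noncomputable def cd (F : Submodule k V) : ℕ := #{y : V | y ∈ F}

theorem cd_eq (F : Submodule k V) : cd F = Fintype.card k ^ finrank k F := by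
  rw [← Module.card_eq_pow_finrank, cd, Fintype.card_subtype]

theorem cd_pos (F : Submodule k V) : 0 < cd F := by
  rw [cd_eq]; exact pow_pos Fintype.card_pos _

theorem two_mul_cd {E F : Submodule k V} (h : E < F) : 2 * cd E ≤ cd F := by
  rw [cd_eq, cd_eq]
  have h1 := Submodule.finrank_lt_finrank_of_lt h
  have h2 : 2 ≤ Fintype.card k := Fintype.one_lt_card
  calc _ ≤ Fintype.card k ^ (finrank k E + 1) := by rw [pow_succ']; gcongr
    _ ≤ _ := Nat.pow_le_pow_right (by omega) h1

omit [Fintype k] in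
theorem finrank_inf_ker (F : Submodule k V) (ψ : Dual k V) :
    finrank k F ≤ finrank k (F ⊓ LinearMap.ker ψ :) + 1 := by
  have h1 := LinearMap.finrank_range_add_finrank_ker (ψ.domRestrict F)
  have h2 := Submodule.finrank_le (LinearMap.range (ψ.domRestrict F))
  rw [finrank_self] at h2
  have h3 : LinearMap.ker (ψ.domRestrict F) = (F ⊓ LinearMap.ker ψ).comap F.subtype := by
    ext x; simp
  have h4 := (Submodule.comapSubtypeEquivOfLe (inf_le_left : F ⊓ LinearMap.ker ψ ≤ F)).finrank_eq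
  rw [h3] at h1
  omega

omit [Fintype k] [Fintype V] in
theorem inf_ker_lt {F : Submodule k V} {ψ : Dual k V} (h : ¬ F ≤ LinearMap.ker ψ) :
    F ⊓ LinearMap.ker ψ < F := lt_of_le_of_ne inf_le_left fun h' => h (inf_eq_left.1 h')

/-- The mass of the functionals that do not vanish at a point. -/
noncomputable def wt {ι : Type} (I : Finset ι) (m : ι → ℝ) (ψ : ι → Dual k V) (x : V) : ℝ :=
  ∑ i ∈ I with ψ i x ≠ 0, m i

theorem large_dev {ι : Type} (I : Finset ι) {m : ι → ℝ} (hm : ∀ i, 0 ≤ m i) (ψ : ι → Dual k V)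
    (μ : ℝ) (r : ℕ) : ∀ (F : Submodule k V) (q : V),
    (∀ E ≤ F, finrank k F ≤ finrank k E + r →
      μ / 2 ≤ ∑ i ∈ I with ¬ E ≤ LinearMap.ker (ψ i), m i) →
    #{y | y ∈ F ∧ wt I m ψ (q + y) < μ / 8} * 3 ^ r ≤ 2 ^ r * cd F := by
  induction r with
  | zero =>
    intro F q _
    simpa [cd] using card_le_card fun y => by simp +contextual
  | succ r ih =>
    intro F q h
    set S : Finset V := {y | y ∈ F ∧ wt I m ψ (q + y) < μ / 8} with hS
    rcases S.eq_empty_or_nonempty with h0 | h0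
    · simp [h0]
    set I' := I.filter fun i => ¬ F ≤ LinearMap.ker (ψ i) with hI'
    have h1 := h F le_rfl (by omega)
    have h2 : ∑ i ∈ I', m i * #{y ∈ S | ψ i (q + y) ≠ 0} < ∑ i ∈ I', m i * (#S / 4) := by
      calc _ = ∑ y ∈ S, wt I' m ψ (q + y) := by
            simp only [wt, sum_filter, card_filter]
            rw [sum_comm]
            refine sum_congr rfl fun i _ => ?_
            push_cast
            rw [mul_sum]
            exact sum_congr rfl fun y _ => by split_ifs <;> simp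
        _ ≤ ∑ y ∈ S, wt I m ψ (q + y) := sum_le_sum fun y _ =>
            sum_le_sum_of_subset_of_nonneg (filter_subset_filter _ (filter_subset _ _))
              fun i _ _ => hm i
        _ < ∑ y ∈ S, μ / 8 := sum_lt_sum_of_nonempty h0 fun y hy => (mem_filter.1 hy).2.2
        _ ≤ _ := by
            rw [← sum_mul, sum_const, nsmul_eq_mul]
            nlinarith [(Nat.cast_nonneg _ : (0 : ℝ) ≤ #S)]
    obtain ⟨i, hi, h3⟩ := exists_lt_of_sum_lt h2
    have h4 : (#{y ∈ S | ψ i (q + y) ≠ 0} : ℝ) < #S / 4 := lt_of_mul_lt_mul_left h3 (hm i)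
    have h5 := card_filter_add_card_filter_not (s := S) fun y => ψ i (q + y) ≠ 0
    have h6 : 4 * #{y ∈ S | ψ i (q + y) ≠ 0} < #S := by
      have : (4 * #{y ∈ S | ψ i (q + y) ≠ 0} : ℝ) < #S := by linarith
      exact_mod_cast this
    obtain ⟨y0, hy0⟩ : (S.filter fun y => ¬ ψ i (q + y) ≠ 0).Nonempty := card_pos.1 (by omega)
    have h7 := ih (F ⊓ LinearMap.ker (ψ i)) (q + y0) fun E hE hr =>
      h E (hE.trans inf_le_left) (by have := finrank_inf_ker F (ψ i); omega)
    have h8 := two_mul_cd (inf_ker_lt (mem_filter.1 hi).2)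
    have h9 : #{y ∈ S | ¬ ψ i (q + y) ≠ 0} ≤
        #{y | y ∈ F ⊓ LinearMap.ker (ψ i) ∧ wt I m ψ (q + y0 + y) < μ / 8} := by
      refine card_le_card_of_injOn (fun y => y - y0) (fun y hy => ?_) (sub_left_injective.injOn)
      simp only [hS, coe_filter, mem_filter, mem_univ, true_and, Set.mem_ofPred_eq, not_not,
        map_add] at hy hy0 ⊢
      refine ⟨⟨F.sub_mem hy.1.1 hy0.1.1, ?_⟩, by simpa [add_assoc] using hy.1.2⟩
      simp only [SetLike.mem_coe, LinearMap.mem_ker, map_sub]
      linear_combination hy.2 - hy0.2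
    have h10 : 3 * #S ≤ 4 * #{y ∈ S | ¬ ψ i (q + y) ≠ 0} := by omega
    have h11 := Nat.mul_le_mul_right (3 ^ r) (h10.trans (Nat.mul_le_mul_left 4 h9))
    have h12 := Nat.mul_le_mul_left (2 ^ r) h8
    rw [pow_succ, pow_succ]
    nlinarith

theorem code_X {σ : Type} (F : Submodule k V) (P : V → Prop) (r : ℕ)
    (hP : ∀ q, #{y | y ∈ F ∧ ¬ P (q + y)} * 3 ^ r ≤ 2 ^ r * cd F) (A : Submodule k V)
    (I : Finset σ) (hI : Fintype.card k ^ (finrank k A + #I) * 2 ^ r < 3 ^ r) :
    ∃ (y : σ → V) (A' : Submodule k V), (∀ S, y S ∈ F) ∧ A ≤ A' ∧ (∀ S ∈ I, y S ∈ A') ∧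
      finrank k A' ≤ finrank k A + #I ∧
      ∀ a ∈ A, ∀ c : σ → k, (∃ S ∈ I, c S ≠ 0) → P (a + ∑ S ∈ I, c S • y S) := by
  have hQ : 1 ≤ Fintype.card k := Fintype.card_pos
  induction I using Finset.induction_on with
  | empty => exact ⟨0, A, by simp, le_rfl, by simp, by simp, by simp⟩
  | insert T I hT ih =>
    rw [card_insert_of_notMem hT] at hI ⊢
    obtain ⟨y, A', h1, h2, h3, h4, h5⟩ := ih (lt_of_le_of_lt
      (Nat.mul_le_mul_right _ (Nat.pow_le_pow_right hQ (by omega))) hI)
    obtain ⟨z, hz, h6⟩ : ∃ z ∈ F, ∀ a ∈ A', ∀ c : k, c ≠ 0 → P (a + c • z) := by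
      by_contra hc
      push Not at hc
      have b1 : cd F ≤ ∑ a ∈ (univ.filter (· ∈ A') ×ˢ univ.filter (· ≠ (0 : k))),
          #{y | y ∈ F ∧ ¬ P (a.1 + a.2 • y)} := by
        refine le_trans (card_le_card fun y hy => ?_) card_biUnion_le
        obtain ⟨a, ha, c, hc0, hc1⟩ := hc y (mem_filter.1 hy).2
        exact mem_biUnion.2 ⟨(a, c), by simp [ha, hc0], by simp [hc1, (mem_filter.1 hy).2]⟩
      have b2 : ∀ a ∈ (univ.filter (· ∈ A') ×ˢ univ.filter (· ≠ (0 : k))),
          #{y | y ∈ F ∧ ¬ P (a.1 + a.2 • y)} * 3 ^ r ≤ 2 ^ r * cd F := fun a ha => by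
        refine le_trans (Nat.mul_le_mul_right _ ?_) (hP a.1)
        have : a.2 ≠ 0 := by simpa using (mem_product.1 ha).2
        refine card_le_card_of_injOn (fun y => a.2 • y) (fun y hy => ?_)
          (smul_right_injective V this).injOn
        simp only [coe_filter, mem_univ, true_and, Set.mem_ofPred_eq] at hy ⊢
        exact ⟨F.smul_mem _ hy.1, hy.2⟩
      have b3 := (Nat.mul_le_mul_right (3 ^ r) b1).trans
        ((sum_mul ..).trans_le (sum_le_card_nsmul _ _ _ b2))
      have b4 : #(univ.filter (· ∈ A') ×ˢ univ.filter (· ≠ (0 : k))) ≤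
          Fintype.card k ^ (finrank k A + (#I + 1)) := by
        rw [card_product, ← add_assoc, pow_succ]
        exact Nat.mul_le_mul ((cd_eq A').trans_le (Nat.pow_le_pow_right hQ h4)) (card_le_univ _)
      have b5 := cd_pos F
      rw [smul_eq_mul] at b3
      have b6 := Nat.mul_le_mul_right (2 ^ r * cd F) b4
      nlinarith
    have h7 : ∀ c : σ → k, ∑ S ∈ I, c S • Function.update y T z S = ∑ S ∈ I, c S • y S :=
      fun c => sum_congr rfl fun S hS => by
        rw [Function.update_of_ne (by rintro rfl; exact hT hS)]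
    refine ⟨Function.update y T z, A' ⊔ k ∙ z, fun S => ?_, h2.trans le_sup_left, fun S hS => ?_,
      ?_, fun a ha c hc => ?_⟩
    · rw [Function.update_apply]; split_ifs; exacts [hz, h1 S]
    · rw [Function.update_apply]
      split_ifs with h
      · exact Submodule.mem_sup_right (Submodule.mem_span_singleton_self z)
      · exact Submodule.mem_sup_left (h3 S ((mem_insert.1 hS).resolve_left h))
    · have := Submodule.finrank_add_le_finrank_add_finrank A' (k ∙ z)
      have := finrank_span_le_card (R := k) {z}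
      simp only [Set.toFinset_singleton, card_singleton] at this
      omega
    · rw [sum_insert hT, h7, Function.update_self]
      by_cases h : c T = 0
      · rw [h, zero_smul, zero_add]
        obtain ⟨S, hS, hc⟩ := hc
        exact h5 a ha c ⟨S, (mem_insert.1 hS).resolve_left (by rintro rfl; exact hc h), hc⟩
      · rw [add_comm (c T • z), ← add_assoc]
        exact h6 _ (A'.add_mem (h2 ha) (A'.sum_mem fun S hS => A'.smul_mem _ (h3 S hS))) _ h

theorem halving {π : Type} (U : Submodule k V) (g : π → Dual k V) (a : ℕ) :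
    ∀ L : Finset π, #L < 2 ^ a → (∀ f ∈ L, ¬ U ≤ LinearMap.ker (g f)) →
    ∃ Z ≤ U, finrank k Z ≤ a ∧ ∀ f ∈ L, ¬ Z ≤ LinearMap.ker (g f) := by
  induction a with
  | zero =>
    intro L h _
    obtain rfl : L = ∅ := by simpa using h
    exact ⟨⊥, bot_le, by simp, by simp⟩
  | succ a ih =>
    intro L h hL
    obtain ⟨y, hy, h1⟩ : ∃ y ∈ univ.filter (· ∈ U), 2 * #{f ∈ L | g f y = 0} ≤ #L := by
      refine exists_le_of_sum_le ⟨0, by simp⟩ ?_
      calc _ = ∑ f ∈ L, 2 * cd (U ⊓ LinearMap.ker (g f)) := by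
            simp only [card_filter, mul_sum, cd]
            rw [sum_comm]
            refine sum_congr rfl fun f _ => ?_
            rw [sum_filter]
            exact sum_congr rfl fun y _ => by by_cases h : y ∈ U <;> simp [h]
        _ ≤ ∑ f ∈ L, cd U := sum_le_sum fun f hf => two_mul_cd (inf_ker_lt (hL f hf))
        _ = _ := by simp [cd, mul_comm]
    obtain ⟨Z, h2, h3, h4⟩ := ih {f ∈ L | g f y = 0} (by rw [pow_succ] at h; omega)
      fun f hf => hL f (mem_filter.1 hf).1
    refine ⟨Z ⊔ k ∙ y, sup_le h2 ((Submodule.span_singleton_le_iff_mem _ _).2 (by simpa using hy)),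
      ?_, fun f hf h5 => ?_⟩
    · have := Submodule.finrank_add_le_finrank_add_finrank Z (k ∙ y)
      have := finrank_span_le_card (R := k) {y}
      simp only [Set.toFinset_singleton, card_singleton] at this
      omega
    · exact h4 f (mem_filter.2 ⟨hf, h5
        (Submodule.mem_sup_right (Submodule.mem_span_singleton_self y))⟩) (le_sup_left.trans h5)

theorem few_patterns {κ : Type} [Fintype κ] [DecidableEq κ] {M g : ℕ} (hM : 0 < M)
    (hn : Fintype.card κ ≤ 2 * M * g) :
    #{f : κ → k | 8 * M ^ 2 * Fintype.card k * #{w | f w ≠ 0} ≤ Fintype.card κ} <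
      2 ^ (2 * g + 1) := by
  set Q := Fintype.card k with hQ
  have hQ0 : 0 < Q := Fintype.card_pos
  set X := 4 * M * Q with hX
  have hX0 : (0 : ℝ) < X := by positivity
  have h1 : ∑ f : κ → k, ∏ w, (if f w ≠ 0 then (X : ℝ)⁻¹ else 1) ≤ 2 ^ g := by
    rw [← Fintype.piFinset_univ, ← prod_univ_sum (fun _ => univ)
      fun _ (c : k) => if c ≠ 0 then (X : ℝ)⁻¹ else 1, prod_const, card_univ]
    have b1 : ∑ c : k, (if c ≠ 0 then (X : ℝ)⁻¹ else 1) ≤ Real.exp (4 * M : ℝ)⁻¹ := by
      refine le_trans ?_ (Real.add_one_le_exp _)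
      calc _ ≤ ∑ c : k, ((X : ℝ)⁻¹ + if c = 0 then 1 else 0) := sum_le_sum fun c _ => by
            by_cases h : c = 0 <;> simp [h]
        _ = _ := by
            rw [sum_add_distrib]
            simp [hX, ← hQ]
            field_simp
    calc _ ≤ Real.exp (4 * M : ℝ)⁻¹ ^ Fintype.card κ := by gcongr
      _ ≤ Real.exp (4 * M : ℝ)⁻¹ ^ (2 * M * g) :=
          pow_le_pow_right₀ (Real.one_le_exp (by positivity)) hn
      _ = Real.exp (1 / 2) ^ g := by
          rw [pow_mul, ← Real.exp_nat_mul]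
          congr 2
          push_cast
          field_simp
          norm_num
      _ ≤ 2 ^ g := by
          gcongr
          rw [← Real.le_log_iff_exp_le two_pos]
          linarith [Real.log_two_gt_d9]
  set L : Finset (κ → k) := {f | 8 * M ^ 2 * Q * #{w | f w ≠ 0} ≤ Fintype.card κ} with hL
  have h2 : ∀ f ∈ L, ((2 : ℝ) ^ g)⁻¹ ≤ ∏ w, (if f w ≠ 0 then (X : ℝ)⁻¹ else 1) := fun f hf => by
    rw [prod_ite, prod_const_one, mul_one, prod_const, inv_pow]
    have b1 := (mem_filter.1 hf).2.trans hn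
    have b2 : X * #{w | f w ≠ 0} ≤ g := by
      refine Nat.le_of_mul_le_mul_left ?_ (by omega : 0 < 2 * M)
      calc _ = 8 * M ^ 2 * Q * #{w | f w ≠ 0} := by rw [hX]; ring
        _ ≤ _ := b1
    have b3 : X ^ #{w | f w ≠ 0} ≤ 2 ^ g :=
      (Nat.pow_le_pow_left Nat.lt_two_pow_self.le _).trans
        (by rw [← pow_mul]; exact Nat.pow_le_pow_right two_pos b2)
    gcongr
    exact_mod_cast b3
  have h3 := (card_nsmul_le_sum _ _ _ h2).trans ((sum_le_sum_of_subset_of_nonneg (subset_univ L)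
    fun f _ _ => prod_nonneg fun w _ => by split_ifs <;> positivity).trans h1)
  rw [nsmul_eq_mul, ← div_eq_mul_inv, div_le_iff₀ (by positivity)] at h3
  have h4 : #L ≤ 2 ^ g * 2 ^ g := by exact_mod_cast h3
  rw [pow_succ, two_mul, pow_add]
  have := Nat.two_pow_pos g
  nlinarith

theorem code_Z (W : Finset V) (U : Submodule k V) (hU : U ≤ Submodule.span k W) {M g : ℕ}
    (hM : 0 < M) (hn : #W ≤ 2 * M * g) :
    ∃ Z ≤ U, finrank k Z ≤ 2 * g + 1 ∧ ∀ ψ : Dual k V, Z ≤ LinearMap.ker ψ →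
      ¬ U ≤ LinearMap.ker ψ → #W < 8 * M ^ 2 * Fintype.card k * #{w ∈ W | ψ w ≠ 0} := by
  have h1 := few_patterns (k := k) (κ := W) hM (by simpa using hn)
  let R : (W → k) → Dual k V → Prop := fun f ψ => (∀ w : W, ψ w = f w) ∧ ¬ U ≤ LinearMap.ker ψ
  obtain ⟨Z, h2, h3, h4⟩ := halving U (fun f => Classical.epsilon (R f)) _
    ((univ.filter fun f : W → k => 8 * M ^ 2 * Fintype.card k * #{w | f w ≠ 0} ≤
      Fintype.card W).filter fun f => ∃ ψ, R f ψ) ((card_filter_le _ _).trans_lt h1)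
      fun f hf => (Classical.epsilon_spec (mem_filter.1 hf).2).2
  refine ⟨Z, h2, h3, fun ψ h5 h6 => ?_⟩
  by_contra h7
  have h8 : ∃ ψ', R (fun w => ψ w) ψ' := ⟨ψ, fun _ => rfl, h6⟩
  refine h4 (fun w => ψ w) (mem_filter.2 ⟨mem_filter.2 ⟨mem_univ _, ?_⟩, h8⟩) fun x hx => ?_
  · rw [Fintype.card_coe]
    refine le_trans (Nat.mul_le_mul_left _ (le_of_eq ?_)) (not_lt.1 h7)
    rw [univ_eq_attach, filter_attach (fun w => ψ w ≠ 0), card_map, card_attach]
  · rw [LinearMap.mem_ker, LinearMap.eqOn_span (g := ψ)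
      (fun w hw => (Classical.epsilon_spec h8).1 ⟨w, hw⟩) (hU (h2 hx))]
    exact h5 hx

omit [Fintype k] in
theorem few_gens {S : Set V} (hS : Submodule.span k S = ⊤) (n : ℕ) : ∀ F : Submodule k V,
    finrank k V ≤ finrank k F + n →
    ∃ W : Finset V, (∀ w ∈ W, w ∈ S) ∧ #W ≤ n ∧ F ⊔ Submodule.span k W = ⊤ := by
  induction n with
  | zero =>
    intro F h
    exact ⟨∅, by simp, by simp, by
      simpa using Submodule.eq_top_of_finrank_eq (le_antisymm (Submodule.finrank_le F) h)⟩
  | succ n ih =>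
    intro F h
    by_cases h1 : S ⊆ F
    · exact ⟨∅, by simp, by simp, by simpa using top_unique (hS ▸ Submodule.span_le.2 h1)⟩
    obtain ⟨w, hw, h2⟩ := Set.not_subset.1 h1
    have h3 : F < F ⊔ k ∙ w := lt_of_le_of_ne le_sup_left fun h' =>
      h2 (h' ▸ Submodule.mem_sup_right (Submodule.mem_span_singleton_self w))
    obtain ⟨W, h4, h5, h6⟩ := ih (F ⊔ k ∙ w) (by
      have := Submodule.finrank_lt_finrank_of_lt h3; omega)
    refine ⟨insert w W, fun x hx => ?_, (card_insert_le _ _).trans (by omega), ?_⟩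
    · rcases mem_insert.1 hx with rfl | hx
      exacts [hw, h4 x hx]
    · rw [coe_insert, Submodule.span_insert, ← sup_assoc, h6]

end Pool.Agent.Lib.MP_b76e55_an.Inv
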