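import Pool.Agent.Lib.MP_b76e55_an.InvA

/-!
The chain of subspaces, the selection of levels, the inner codes and the outer code.
-/

namespace Pool.Agent.Lib.MP_b76e55_an.Inv

open Finset Module
open scoped Classical

variable {k V : Type} [Field k] [Fintype k] [AddCommGroup V] [Module k V] [Fintype V]

omit [Fintype k] in
theorem chain (φ : Submodule k V → ℝ) (T : ℝ)
    (h0 : ∀ E, φ E - φ ⊤ ≤ T * (finrank k V - finrank k E)) :
    ∃ F : ℕ → Submodule k V, F 0 = ⊤ ∧ (∀ j, F (j + 1) ≤ F j) ∧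
      (∀ j, ∀ E ≤ F j, φ E - φ (F j) ≤ T / 2 ^ j * (finrank k (F j) - finrank k E)) ∧
      ∀ j, T / 2 ^ (j + 1) * (finrank k (F j) - finrank k (F (j + 1))) ≤
        φ (F (j + 1)) - φ (F j) := by
  have h1 : ∀ (j : ℕ) (F : Submodule k V), ∃ G ≤ F, ∀ E ≤ F,
      φ E + T / 2 ^ (j + 1) * finrank k E ≤ φ G + T / 2 ^ (j + 1) * finrank k G := fun j F =>
    Set.exists_max_image {E | E ≤ F} _ (Set.toFinite _) ⟨F, le_refl F⟩
  choose nx h1 h2 using h1
  refine ⟨fun j => Nat.rec ⊤ nx j, rfl, fun j => h1 j _, fun j E hE => ?_, fun j => ?_⟩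
  · cases j with
    | zero => simpa using h0 E
    | succ j => have := h2 j _ E (hE.trans (h1 j _)); simp only at this ⊢; linarith
  · have := h2 j (Nat.rec ⊤ nx j) _ le_rfl; simp only at this ⊢; linarith

theorem select {T : ℝ} (hT : 0 ≤ T) (D : ℕ → ℕ) {μ : ℕ → ℝ} (h0 : ∀ j, 0 ≤ μ j)
    (h1 : ∀ j, μ j ≤ T / 2 ^ j * D j) {M : ℕ} (hM : 0 < M) (K : ℕ) :
    ∃ J : Finset ℕ, (∀ j ∈ J, j < K ∧ T / 2 ^ j * D j ≤ 16 * μ j ∧
        M * (∑ i ∈ J with i < j, D i + 2 ^ #{i ∈ J | i < j}) ≤ D j) ∧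
      ∑ j ∈ range K with T / 2 ^ j * D j ≤ 16 * μ j ∧ M ≤ D j, μ j +
        4 * M * (T / 2 ^ K) * ((∑ i ∈ J, D i + 2 ^ #J : ℕ) - 1) ≤ (1 + 96 * M) * ∑ j ∈ J, μ j := by
  induction K with
  | zero => exact ⟨∅, by simp, by simp⟩
  | succ K ih =>
    obtain ⟨J, h2, h3⟩ := ih
    have b0 : T / 2 ^ (K + 1) = T / 2 ^ K / 2 := by rw [pow_succ, div_div]
    have b1 : 0 ≤ T / 2 ^ K := by positivity
    have b2 : (1 : ℝ) ≤ M := by exact_mod_cast hM
    have b3 := Nat.two_pow_pos #J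
    have b4 : (1 : ℝ) ≤ (∑ i ∈ J, D i + 2 ^ #J : ℕ) := by exact_mod_cast (by omega)
    have b5 := h1 K
    have b6 : ∑ j ∈ range (K + 1) with T / 2 ^ j * D j ≤ 16 * μ j ∧ M ≤ D j, μ j =
        ∑ j ∈ range K with T / 2 ^ j * D j ≤ 16 * μ j ∧ M ≤ D j, μ j +
          if T / 2 ^ K * D K ≤ 16 * μ K ∧ M ≤ D K then μ K else 0 := by
      rw [sum_filter, sum_filter, sum_range_succ]
    have b7 := h0 K
    rw [b6, b0]
    by_cases hs : T / 2 ^ K * D K ≤ 16 * μ K ∧ M * (∑ i ∈ J, D i + 2 ^ #J) ≤ D K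
    · have hK : K ∉ J := fun h => lt_irrefl _ (h2 K h).1
      refine ⟨insert K J, fun j hj => ?_, ?_⟩
      · rcases mem_insert.1 hj with rfl | hj
        · rw [filter_insert, if_neg (lt_irrefl _), filter_true_of_mem fun i hi => (h2 i hi).1]
          exact ⟨lt_add_one _, hs⟩
        · rw [filter_insert, if_neg (h2 j hj).1.not_gt]
          exact ⟨(h2 j hj).1.trans (lt_add_one _), (h2 j hj).2⟩
      · rw [sum_insert hK, sum_insert hK, card_insert_of_notMem hK]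
        have c1 : D K + ∑ i ∈ J, D i + 2 ^ (#J + 1) ≤ 3 * D K := by
          have := (Nat.le_mul_of_pos_left _ hM).trans hs.2
          omega
        have c2 : ((D K + ∑ i ∈ J, D i + 2 ^ (#J + 1) : ℕ) : ℝ) ≤ 3 * D K := by exact_mod_cast c1
        have c3 : (if T / 2 ^ K * D K ≤ 16 * μ K ∧ M ≤ D K then μ K else 0) ≤ μ K := by
          split_ifs <;> linarith
        have c4 := hs.1
        generalize T / 2 ^ K = l at *
        have c5 := mul_le_mul_of_nonneg_left c2 b1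
        have c6 := mul_nonneg b1 (sub_nonneg.2 b4)
        nlinarith
    · refine ⟨J, fun j hj => ⟨(h2 j hj).1.trans (lt_add_one _), (h2 j hj).2⟩, ?_⟩
      have c6 := mul_nonneg b1 (sub_nonneg.2 b4)
      split_ifs with h
      · have c1 := not_le.1 (not_and.1 hs h.1)
        have c2 : 2 ≤ ∑ i ∈ J, D i + 2 ^ #J := by
          by_contra c
          have := Nat.mul_le_mul_left M (by omega : ∑ i ∈ J, D i + 2 ^ #J ≤ 1)
          omega
        have c3 : (D K : ℝ) ≤ M * (∑ i ∈ J, D i + 2 ^ #J : ℕ) := by exact_mod_cast c1.le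
        have c4 : (2 : ℝ) ≤ (∑ i ∈ J, D i + 2 ^ #J : ℕ) := by exact_mod_cast c2
        generalize T / 2 ^ K = l at *
        generalize ((∑ i ∈ J, D i + 2 ^ #J : ℕ) : ℝ) = Y at *
        have c5 := mul_le_mul_of_nonneg_left c3 b1
        have c7 := mul_nonneg (mul_nonneg b1 (sub_nonneg.2 c4)) (zero_le_one.trans b2)
        nlinarith
      · generalize T / 2 ^ K = l at *
        nlinarith

/-- The mass of the functionals that vanish on a subspace. -/
noncomputable def ph {ι : Type} [Fintype ι] (m : ι → ℝ) (ψ : ι → Dual k V) (F : Submodule k V) :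
    ℝ := ∑ i with F ≤ LinearMap.ker (ψ i), m i

/-- The functionals that vanish on `E` and not on `F`. -/
noncomputable def gap {ι : Type} [Fintype ι] (ψ : ι → Dual k V) (E F : Submodule k V) : Finset ι :=
  {i | E ≤ LinearMap.ker (ψ i) ∧ ¬ F ≤ LinearMap.ker (ψ i)}

variable {ι : Type} [Fintype ι] {m : ι → ℝ}

omit [Fintype k] [Fintype V] in
theorem ph_sub (m : ι → ℝ) (ψ : ι → Dual k V) {E F : Submodule k V} (h : E ≤ F) :
    ph m ψ E - ph m ψ F = ∑ i ∈ gap ψ E F, m i := by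
  simp only [ph, gap, sum_filter, ← sum_sub_distrib]
  refine sum_congr rfl fun i _ => ?_
  by_cases h1 : F ≤ LinearMap.ker (ψ i)
  · simp [h1, h.trans h1]
  · simp [h1]

theorem unit_code {σ : Type} (hm : ∀ i, 0 ≤ m i) (ψ : ι → Dual k V) {F F' : Submodule k V}
    (hF : F' ≤ F) {l : ℝ} (hl : 0 ≤ l)
    (hE : ∀ E ≤ F, ph m ψ E - ph m ψ F ≤ l * (finrank k F - finrank k E)) {D : ℕ}
    (hg : l * D ≤ 16 * (ph m ψ F' - ph m ψ F)) (W : Finset V) (hW : #W ≤ D)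
    (hs : F' ⊔ Submodule.span k W = ⊤) (A : Submodule k V) (I : Finset σ) (hI : 0 < #I)
    (hA : 256 * Fintype.card k * (finrank k A + #I) ≤ D) :
    ∃ (Z : Submodule k V) (y : σ → V), Z ≤ Submodule.span k W ⊓ F ∧
      (∀ S, y S ∈ Submodule.span k W ⊓ F) ∧
      (∀ χ : Dual k V, Z ≤ LinearMap.ker χ → ¬ Submodule.span k W ⊓ F ≤ LinearMap.ker χ →
        #W < 8 * (256 * Fintype.card k) ^ 2 * Fintype.card k * #{w ∈ W | χ w ≠ 0}) ∧
      ∀ a ∈ A, ∀ z ∈ Z, ∀ f ∈ F', ∀ c : σ → k, (∃ S ∈ I, c S ≠ 0) →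
        (ph m ψ F' - ph m ψ F) / 8 ≤ wt (gap ψ F' F) m ψ (a + (z + ∑ S ∈ I, c S • y S) + f) := by
  set Q := Fintype.card k with hQ
  have hQ0 : 0 < Q := Fintype.card_pos
  set g := D / (256 * Q) with hgd
  have g1 : finrank k A + #I ≤ g := (Nat.le_div_iff_mul_le (by omega)).2 (by rwa [mul_comm])
  have g2 : 256 * Q * g ≤ D := Nat.mul_div_le _ _
  have g3 : D < 256 * Q * (g + 1) := Nat.lt_mul_div_succ _ (by omega)
  obtain ⟨Z, z1, z2, z3⟩ := code_Z W (Submodule.span k W ⊓ F) inf_le_left (M := 256 * Q) (g := g)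
    (by omega) (by nlinarith)
  set μ := ph m ψ F' - ph m ψ F with hμ
  obtain ⟨y, -, y1, -, -, -, y2⟩ := code_X F (fun x => μ / 8 ≤ wt (gap ψ F' F) m ψ x) (8 * Q * g)
    (fun q => by
      simp only [not_le]
      refine large_dev _ hm ψ μ _ F q fun E h1 h2 => ?_
      have b1 := sum_filter_add_sum_filter_not (gap ψ F' F) (fun i => E ≤ LinearMap.ker (ψ i)) m
      have b2 : ∑ i ∈ gap ψ F' F with E ≤ LinearMap.ker (ψ i), m i ≤ ∑ i ∈ gap ψ E F, m i :=
        sum_le_sum_of_subset_of_nonneg (fun i => by simp +contextual [gap]) fun i _ _ => hm i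
      rw [← ph_sub m ψ hF] at b1
      rw [← ph_sub m ψ h1] at b2
      have b3 := hE E h1
      have b4 : ((32 * finrank k F : ℕ) : ℝ) ≤ (32 * finrank k E + D : ℕ) := by
        exact_mod_cast (by nlinarith)
      push_cast at b4
      nlinarith) (A ⊔ Z) I (by
      have b1 := Submodule.finrank_add_le_finrank_add_finrank A Z
      have b2 : Q * 2 ^ (2 * Q) < 3 ^ (2 * Q) := by
        calc _ < 2 ^ Q * 2 ^ (2 * Q) := by gcongr; exact Nat.lt_two_pow_self
          _ = 8 ^ Q := by rw [pow_mul, ← mul_pow]; norm_num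
          _ ≤ 9 ^ Q := by gcongr; norm_num
          _ = _ := by rw [pow_mul]; norm_num
      calc _ ≤ Q ^ (4 * g) * 2 ^ (8 * Q * g) :=
            Nat.mul_le_mul_right _ (Nat.pow_le_pow_right hQ0 (by omega))
        _ = (Q * 2 ^ (2 * Q)) ^ (4 * g) := by rw [mul_pow, ← pow_mul]; congr 2; ring
        _ < (3 ^ (2 * Q)) ^ (4 * g) := Nat.pow_lt_pow_left b2 (by omega)
        _ = _ := by rw [← pow_mul]; congr 1; ring)
  have h1 : ∀ S, ∃ u ∈ F', y S - u ∈ Submodule.span k W := fun S => by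
    obtain ⟨u, hu, v, hv, h⟩ := Submodule.mem_sup.1 (hs ▸ Submodule.mem_top (x := y S))
    exact ⟨u, hu, by rw [← h]; simpa using hv⟩
  choose u u1 u2 using h1
  refine ⟨Z, fun S => y S - u S, z1, fun S => ⟨u2 S, F.sub_mem (y1 S) (hF (u1 S))⟩, z3,
    fun a ha z hz f hf c hc => (y2 _ (Submodule.add_mem_sup ha hz) c hc).trans_eq ?_⟩
  refine sum_congr (filter_congr fun i hi => ?_) fun _ _ => rfl
  have h2 : ∀ x ∈ F', ψ i x = 0 := fun x hx => (mem_filter.1 hi).2.1 hx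
  simp [h2 f hf, h2 _ (u1 _), add_assoc]

omit [Fintype k] in
theorem share {A I : Finset ℕ} (h : ¬ A ⊆ I) :
    ∑ j ∈ A, (if j ∉ I ∧ A.filter (· < j) ⊆ I then (1 : k) else 0) = 1 := by
  have h0 : (A \ I).Nonempty := sdiff_nonempty.2 h
  have h1 := mem_sdiff.1 (min'_mem _ h0)
  rw [sum_eq_single_of_mem _ h1.1 fun j hj hn => if_neg fun hc => h1.2 (hc.2 (mem_filter.2
    ⟨h1.1, lt_of_le_of_ne (min'_le _ _ (mem_sdiff.2 ⟨hj, hc.1⟩)) hn.symm⟩)), if_pos]
  refine ⟨h1.2, fun i hi => by_contra fun hc => ?_⟩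
  exact (mem_filter.1 hi).2.not_ge (min'_le _ _ (mem_sdiff.2 ⟨(mem_filter.1 hi).1, hc⟩))

omit [Fintype k] [Fintype V] in
theorem outer (J : Finset ℕ) (μ : ℕ → ℝ) (h0 : ∀ j, 0 ≤ μ j) (hT : 0 < ∑ j ∈ J, μ j)
    (U Z : ℕ → Submodule k V) (y : ℕ → Finset ℕ → V) (hy : ∀ j ∈ J, ∀ S, y j S ∈ U j) (w : V → ℝ)
    (hw : ∀ (z : ℕ → V) (c : ℕ → Finset ℕ → k), (∀ j, z j ∈ Z j) →
      (∑ j ∈ J with ∃ S ∈ (J.filter (· < j)).powerset, c j S ≠ 0, μ j) / 8 ≤
        w (∑ j ∈ J, (z j + ∑ S ∈ (J.filter (· < j)).powerset, c j S • y j S))) :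
    ∃ (H : Submodule k V) (b : V), (∀ j ∈ J, Z j ≤ H) ∧
      (∀ h ∈ H, (∑ j ∈ J, μ j) / 16 ≤ w (b + h)) ∧ ∀ χ : Dual k V, H ≤ LinearMap.ker χ → χ b ≠ 0 →
        (∑ j ∈ J, μ j) / 2 ≤ ∑ j ∈ J with ¬ U j ≤ LinearMap.ker χ, μ j := by
  let e : (ℕ → V) → (ℕ → Finset ℕ → k) → V := fun z c =>
    ∑ j ∈ J, (z j + ∑ S ∈ (J.filter (· < j)).powerset, c j S • y j S)
  have e1 : ∀ z z' c c', e (z + z') (c + c') = e z c + e z' c' := fun z z' c c' => by
    simp only [e, Pi.add_apply, add_smul, sum_add_distrib]; abel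
  have e2 : ∀ (t : k) z c, e (t • z) (t • c) = t • e z c := fun t z c => by
    simp only [e, Pi.smul_apply, smul_sum, smul_add, smul_assoc]
  let R : (ℕ → Finset ℕ → k) → k → Prop := fun c t =>
    ∀ A ⊆ J, (∑ j ∈ J, μ j) / 2 ≤ ∑ j ∈ A, μ j → ∑ j ∈ A, c j (A.filter (· < j)) = t
  have r1 : ∀ c c' t t', R c t → R c' t' → R (c + c') (t + t') := fun c c' t t' h h' A a b => by
    simp only [Pi.add_apply, sum_add_distrib, h A a b, h' A a b]
  have r2 : ∀ (u : k) c t, R c t → R (u • c) (u * t) := fun u c t h A a b => by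
    simp only [Pi.smul_apply, smul_eq_mul, ← mul_sum, h A a b]
  let d : Finset ℕ → ℕ → Finset ℕ → k := fun I j S => if j ∉ I ∧ S ⊆ I then 1 else 0
  have r3 : ∀ I, ∑ j ∈ I, μ j < (∑ j ∈ J, μ j) / 2 → R (d I) 1 := fun I h A _ b =>
    share fun hc => (h.trans_le b).not_ge (sum_le_sum_of_subset_of_nonneg hc fun i _ _ => h0 i)
  have r4 : R (d ∅) 1 := r3 ∅ (by simpa using hT)
  let H : Submodule k V :=
    { carrier := {x | ∃ z c, (∀ j, z j ∈ Z j) ∧ R c 0 ∧ x = e z c}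
      add_mem' := by
        rintro _ _ ⟨z, c, a1, a2, rfl⟩ ⟨z', c', b1, b2, rfl⟩
        exact ⟨z + z', c + c', fun j => (Z j).add_mem (a1 j) (b1 j),
          by simpa using r1 _ _ _ _ a2 b2, (e1 ..).symm⟩
      zero_mem' := ⟨0, 0, by simp, by simp [R], by simp [e]⟩
      smul_mem' := by
        rintro t _ ⟨z, c, a1, a2, rfl⟩
        exact ⟨t • z, t • c, fun j => (Z j).smul_mem t (a1 j), by simpa using r2 t _ _ a2,
          (e2 ..).symm⟩ }
  refine ⟨H, e 0 (d ∅), fun j hj x hx => ⟨Pi.single j x, 0, fun i => ?_, by simp [R], ?_⟩, ?_,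
    fun χ h1 h2 => ?_⟩
  · by_cases h : i = j
    · simpa [h] using hx
    · simp [h]
  · simp [e, Pi.single_apply, hj]
  · rintro _ ⟨z, c, a1, a2, rfl⟩
    rw [← e1, zero_add]
    refine le_trans ?_ (hw z _ a1)
    have b1 := sum_filter_add_sum_filter_not J
      (fun j => ∃ S ∈ (J.filter (· < j)).powerset, (d ∅ + c) j S ≠ 0) μ
    by_contra hc
    have b2 := r1 _ _ _ _ r4 a2 _ (filter_subset (fun j => ¬ ∃ S ∈ (J.filter (· < j)).powerset,
      (d ∅ + c) j S ≠ 0) J) (by linarith)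
    rw [sum_eq_zero fun j hj => ?_] at b2
    · simp at b2
    · by_contra hc
      exact (mem_filter.1 hj).2 ⟨_, mem_powerset.2 (filter_subset_filter _ (filter_subset _ _)), hc⟩
  · by_contra hc
    set I := J.filter fun j => ¬ U j ≤ LinearMap.ker χ with hI
    have b1 : χ (e 0 (d I)) = 0 := by
      simp only [e, map_sum, Pi.zero_apply, zero_add, map_smul]
      refine sum_eq_zero fun j hj => sum_eq_zero fun S _ => ?_
      by_cases h : j ∈ I
      · simp [d, h]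
      · have : U j ≤ LinearMap.ker χ := by simpa [hI, hj] using h
        rw [show χ (y j S) = 0 from this (hy j hj S), smul_zero]
    have b2 : χ (e (0 + (-1 : k) • 0) (d ∅ + (-1 : k) • d I)) = 0 := h1 ⟨_, _, by simp,
      by simpa using r1 _ _ _ _ r4 (r2 (-1) _ _ (r3 I (not_le.1 hc))), rfl⟩
    rw [e1, e2, map_add, map_smul, b1] at b2
    exact h2 (by simpa using b2)

end Pool.Agent.Lib.MP_b76e55_an.Inv
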