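import Pool.Agent.Lib.MP_b76e55_an.InvB

/-!
A vector space over a finite field all of whose quotients embed into `L₁` and which is spanned by
short vectors has small diameter.
-/

namespace Pool.Agent.Lib.MP_b76e55_an.Inv

open Finset Module
open scoped Classical

variable {k V : Type} [Field k] [Fintype k] [AddCommGroup V] [Module k V] [Fintype V]
  {ι : Type} [Fintype ι]

omit [Fintype k] [Fintype V] in
theorem flip_bound {m : ι → ℝ} (hm : ∀ i, 0 ≤ m i) (ψ : ι → Dual k V) (W : Finset V) {β a b : ℝ}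
    (hb : 0 ≤ b) (hW : ∀ w ∈ W, wt univ m ψ w ≤ β) (L : Finset ι)
    (hL : ∀ i ∈ L, a ≤ b * #{w ∈ W | ψ i w ≠ 0}) : a * ∑ i ∈ L, m i ≤ b * (#W * β) := by
  calc _ = ∑ i ∈ L, a * m i := mul_sum ..
    _ ≤ ∑ i ∈ L, b * #{w ∈ W | ψ i w ≠ 0} * m i :=
        sum_le_sum fun i hi => mul_le_mul_of_nonneg_right (hL i hi) (hm i)
    _ ≤ ∑ i, b * #{w ∈ W | ψ i w ≠ 0} * m i := sum_le_sum_of_subset_of_nonneg (subset_univ _)
        fun i _ _ => mul_nonneg (by positivity) (hm i)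
    _ = b * ∑ w ∈ W, wt univ m ψ w := by
        simp only [wt, sum_filter, card_filter, mul_assoc, ← mul_sum]
        rw [sum_comm]
        congr 1
        refine sum_congr rfl fun i _ => ?_
        push_cast
        rw [sum_mul]
        exact sum_congr rfl fun y _ => by split_ifs <;> simp
    _ ≤ _ := mul_le_mul_of_nonneg_left ((sum_le_card_nsmul _ _ _ hW).trans_eq (nsmul_eq_mul ..)) hb

omit [Fintype V] in
theorem split_sum (x : ℕ → V) {J : Finset ℕ} {j : ℕ} (hj : j ∈ J) :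
    ∑ i ∈ J, x i = ∑ i ∈ J with i < j, x i + x j + ∑ i ∈ J with j < i, x i := by
  rw [← sum_ite_eq_of_mem' J j x hj, sum_filter, sum_filter, ← sum_add_distrib, ← sum_add_distrib]
  refine sum_congr rfl fun i _ => ?_
  rcases lt_trichotomy i j with h | h | h
  · simp [h, h.ne, h.not_gt]
  · simp [h]
  · simp [h, h.ne', h.not_gt]

omit [Fintype k] [Fintype V] in
theorem gap_sum {m : ι → ℝ} (hm : ∀ i, 0 ≤ m i) (ψ : ι → Dual k V) {F : ℕ → Submodule k V}
    (ha : Antitone F) (J : Finset ℕ) (x : V) :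
    ∑ j ∈ J, wt (gap ψ (F (j + 1)) (F j)) m ψ x ≤ wt univ m ψ x := by
  unfold wt
  rw [← sum_biUnion]
  · refine sum_le_sum_of_subset_of_nonneg (fun i => ?_) fun i _ _ => hm i
    simp +contextual
  · have : ∀ i j, i < j → Disjoint (gap ψ (F (i + 1)) (F i)) (gap ψ (F (j + 1)) (F j)) :=
      fun i j h => disjoint_left.2 fun t h1 h2 =>
        (mem_filter.1 h2).2.2 ((ha h).trans (mem_filter.1 h1).2.1)
    intro i _ j _ h
    refine disjoint_filter_filter ?_
    rcases lt_or_gt_of_ne h with h | h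
    exacts [this _ _ h, (this _ _ h).symm]

variable (k ι) in
/-- Every quotient is normed by weighted functionals. -/
def TestL (N : V → ℝ) (D : ℝ) : Prop :=
  ∀ H : Submodule k V, ∃ (m : ι → ℝ) (ψ : ι → Dual k V), (∀ i, 0 ≤ m i) ∧
    (∀ i, H ≤ LinearMap.ker (ψ i)) ∧
    (∀ x ρ, (∀ h ∈ H, ρ ≤ N (x + h)) → ρ ≤ wt univ m ψ x) ∧ ∀ x, wt univ m ψ x ≤ D * N x

theorem code_bound {N : V → ℝ} {D s : ℝ} (hN : TestL k ι N D) (hD : 0 < D) (hs : 0 ≤ s)
    {m : ι → ℝ} (hm : ∀ i, 0 ≤ m i) {ψ : ι → Dual k V} (hu : ∀ x, wt univ m ψ x ≤ D * N x)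
    {F : ℕ → Submodule k V} (hF : ∀ j, F (j + 1) ≤ F j) {l : ℕ → ℝ} (hl : ∀ j, 0 ≤ l j)
    (hE : ∀ j, ∀ E ≤ F j, ph m ψ E - ph m ψ (F j) ≤ l j * (finrank k (F j) - finrank k E))
    {d : ℕ → ℕ} {W : ℕ → Finset V} (w1 : ∀ j, ∀ w ∈ W j, N w ≤ s) (w2 : ∀ j, #(W j) ≤ d j)
    (w3 : ∀ j, F (j + 1) ⊔ Submodule.span k (W j) = ⊤) {J : Finset ℕ}
    (hJ : ∀ j ∈ J, l j * d j ≤ 16 * (ph m ψ (F (j + 1)) - ph m ψ (F j)) ∧
      256 * Fintype.card k * (∑ i ∈ J with i < j, d i + 2 ^ #{i ∈ J | i < j}) ≤ d j) :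
    ∑ j ∈ J, (ph m ψ (F (j + 1)) - ph m ψ (F j)) ≤
      32 * (8 * (256 * Fintype.card k) ^ 2 * Fintype.card k) * D ^ 2 * s := by
  set μ : ℕ → ℝ := fun j => ph m ψ (F (j + 1)) - ph m ψ (F j) with hμ
  have m0 : ∀ j, 0 ≤ μ j := fun j => (sum_nonneg fun i _ => hm i).trans_eq (ph_sub m ψ (hF j)).symm
  rcases le_or_gt (∑ j ∈ J, μ j) 0 with hT | hT
  · exact hT.trans (by positivity)
  have ha : Antitone F := antitone_nat_of_succ_le hF
  have h1 := fun j (hj : j ∈ J) => unit_code hm ψ (hF j) (hl j) (hE j) (hJ j hj).1 (W j) (w2 j)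
    (w3 j) (Submodule.span k ((J.filter (· < j)).biUnion W : Finset V))
    (J.filter (· < j)).powerset (card_pos.2 (powerset_nonempty _)) (by
      refine le_trans (Nat.mul_le_mul_left _ ?_) (hJ j hj).2
      rw [card_powerset]
      exact Nat.add_le_add_right ((finrank_span_finset_le_card _).trans
        (card_biUnion_le.trans (sum_le_sum fun i _ => w2 i))) _)
  choose! Z y z1 z2 z3 z4 using h1
  have hw : ∀ (z : ℕ → V) (c : ℕ → Finset ℕ → k), (∀ j, z j ∈ Z j) →
      (∑ j ∈ J with ∃ S ∈ (J.filter (· < j)).powerset, c j S ≠ 0, μ j) / 8 ≤ wt univ m ψ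
        (∑ j ∈ J, (z j + ∑ S ∈ (J.filter (· < j)).powerset, c j S • y j S)) := fun z c hz => by
    have b1 := fun j (hj : j ∈ J) => add_mem (z1 j hj (hz j)) (Submodule.sum_mem _
      fun S (_ : S ∈ (J.filter (· < j)).powerset) => Submodule.smul_mem _ (c j S) (z2 j hj S))
    rw [sum_div]
    refine le_trans (sum_le_sum fun j hj => ?_) (gap_sum hm ψ ha _ _)
    have hj' := (mem_filter.1 hj).1
    rw [split_sum _ hj']
    refine z4 j hj' _ (Submodule.sum_mem _ fun i hi => ?_) _ (hz j) _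
      (Submodule.sum_mem _ fun i hi => ?_) _ (mem_filter.1 hj).2
    · exact Submodule.span_mono (coe_subset.2 (subset_biUnion_of_mem W hi))
        (b1 i (mem_filter.1 hi).1).1
    · exact ha (mem_filter.1 hi).2 (b1 i (mem_filter.1 hi).1).2
  obtain ⟨H, b, h1, h2, h3⟩ := outer J μ m0 hT _ Z y z2 (wt univ m ψ) hw
  obtain ⟨m', ψ', a1, a2, a3, a4⟩ := hN H
  set B : ℝ := 8 * (256 * Fintype.card k) ^ 2 * Fintype.card k with hB
  have hB0 : 0 ≤ B := by positivity
  have c1 : (∑ j ∈ J, μ j) / 16 / D ≤ wt univ m' ψ' b :=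
    a3 b _ fun h hh => (div_le_iff₀' hD).2 ((h2 h hh).trans (hu _))
  have c2 : ∀ j ∈ J, ∑ i with ¬ Submodule.span k (W j) ⊓ F j ≤ LinearMap.ker (ψ' i), m' i ≤
      B * (D * s) := fun j hj => by
    rcases (univ.filter fun i => ¬ Submodule.span k (W j) ⊓ F j ≤
      LinearMap.ker (ψ' i)).eq_empty_or_nonempty with h | ⟨i, hi⟩
    · rw [h, sum_empty]; positivity
    have b1 := fun i (hi : i ∈ univ.filter fun i => ¬ Submodule.span k (W j) ⊓ F j ≤
      LinearMap.ker (ψ' i)) => z3 j hj _ ((h1 j hj).trans (a2 i)) (mem_filter.1 hi).2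
    have b2 : (0 : ℝ) < #(W j) := by
      exact_mod_cast (Nat.pos_of_mul_pos_left (Nat.zero_lt_of_lt (b1 i hi))).trans_le
        (card_filter_le _ _)
    have b3 := flip_bound a1 ψ' (W j) (a := #(W j)) hB0 (fun w hw => (a4 w).trans
      (mul_le_mul_of_nonneg_left (w1 j w hw) hD.le)) _ fun i hi => by
        rw [hB]; exact_mod_cast (b1 i hi).le
    exact le_of_mul_le_mul_left (b3.trans_eq (by ring)) b2
  have c3 : (∑ j ∈ J, μ j) / 2 * wt univ m' ψ' b ≤ (∑ j ∈ J, μ j) * (B * (D * s)) := by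
    calc _ = ∑ i with ψ' i b ≠ 0, (∑ j ∈ J, μ j) / 2 * m' i := mul_sum ..
      _ ≤ ∑ i with ψ' i b ≠ 0, (∑ j ∈ J with ¬ Submodule.span k (W j) ⊓ F j ≤
            LinearMap.ker (ψ' i), μ j) * m' i := sum_le_sum fun i hi =>
          mul_le_mul_of_nonneg_right (h3 _ (a2 i) (mem_filter.1 hi).2) (a1 i)
      _ ≤ ∑ i, (∑ j ∈ J with ¬ Submodule.span k (W j) ⊓ F j ≤
            LinearMap.ker (ψ' i), μ j) * m' i := sum_le_sum_of_subset_of_nonneg (subset_univ _)
          fun i _ _ => mul_nonneg (sum_nonneg fun j _ => m0 j) (a1 i)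
      _ = ∑ j ∈ J, μ j * ∑ i with ¬ Submodule.span k (W j) ⊓ F j ≤
            LinearMap.ker (ψ' i), m' i := by
          simp only [sum_filter, sum_mul, mul_sum]
          rw [sum_comm]
          exact sum_congr rfl fun j _ => sum_congr rfl fun i _ => by split_ifs <;> simp
      _ ≤ ∑ j ∈ J, μ j * (B * (D * s)) :=
          sum_le_sum fun j hj => mul_le_mul_of_nonneg_left (c2 j hj) (m0 j)
      _ = _ := (sum_mul ..).symm
  rw [div_le_iff₀ hD] at c1
  have c4 : wt univ m' ψ' b ≤ 2 * (B * (D * s)) := le_of_mul_le_mul_left (by linarith) hT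
  nlinarith

theorem core : ∃ C : ℕ → ℝ, (∀ Q, 0 ≤ C Q) ∧ ∀ (k V : Type) [Field k] [Fintype k] [AddCommGroup V]
    [Module k V] [Fintype V] (ι : Type) [Fintype ι] (N : V → ℝ) (D s : ℝ), TestL k ι N D →
    1 ≤ D → 0 ≤ s → Submodule.span k {x | N x ≤ s} = ⊤ →
    ∀ x, N x ≤ C (Fintype.card k) * D ^ 2 * s := by
  refine ⟨fun Q => 2 * (256 * Q) + 2 * (1 + 96 * (256 * Q)) * (32 * (8 * (256 * Q) ^ 2 * Q)),
    fun Q => by positivity, fun k V _ _ _ _ _ ι _ N D s hN hD hs hS x => ?_⟩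
  obtain ⟨m, ψ, hm, -, a3, a4⟩ := hN ⊥
  set T := ph m ψ ⊥ - ph m ψ ⊤ with hT
  have p0 : ∀ {E F : Submodule k V}, E ≤ F → ph m ψ F ≤ ph m ψ E := fun h =>
    sub_nonneg.1 ((sum_nonneg fun i _ => hm i).trans_eq (ph_sub m ψ h).symm)
  have hT0 : 0 ≤ T := sub_nonneg.2 (p0 le_top)
  have h1 : N x ≤ T := by
    refine (a3 x _ (by simp)).trans ?_
    rw [hT, ph_sub m ψ le_top]
    refine sum_le_sum_of_subset_of_nonneg (fun i hi => ?_) fun i _ _ => hm i
    exact mem_filter.2 ⟨mem_univ _, bot_le, fun h => (mem_filter.1 hi).2 (h Submodule.mem_top)⟩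
  obtain ⟨F, f0, f1, f2, f3⟩ := chain (ph m ψ) T fun E => by
    rcases eq_or_lt_of_le (le_top (a := E)) with rfl | h
    · simp
    have b1 := Submodule.finrank_lt_finrank_of_lt h
    rw [finrank_top] at b1
    have b2 : (finrank k E : ℝ) + 1 ≤ finrank k V := by exact_mod_cast b1
    nlinarith [p0 (bot_le (a := E))]
  let d : ℕ → ℕ := fun j => finrank k V - finrank k (F (j + 1))
  have d1 : ∀ j, (d j : ℝ) = finrank k V - finrank k (F (j + 1)) := fun j =>
    Nat.cast_sub (Submodule.finrank_le _)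
  have d2 : ∀ j, (finrank k (F j) : ℝ) ≤ finrank k V := fun j => by
    exact_mod_cast Submodule.finrank_le _
  choose W w1 w2 w3 using fun j => few_gens hS (d j) (F (j + 1)) (by simp only [d]; omega)
  set μ : ℕ → ℝ := fun j => ph m ψ (F (j + 1)) - ph m ψ (F j) with hμ
  have m0 : ∀ j, 0 ≤ μ j := fun j => sub_nonneg.2 (p0 (f1 j))
  have l0 : ∀ j : ℕ, 0 ≤ T / 2 ^ j := fun j => by positivity
  set M := 256 * Fintype.card k with hM
  obtain ⟨J, j1, j2⟩ := select hT0 d m0 (fun j => (f2 j _ (f1 j)).trans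
    (mul_le_mul_of_nonneg_left (by rw [d1]; linarith [d2 j]) (l0 j))) (M := M)
    (Nat.mul_pos (by norm_num) Fintype.card_pos) (4 * finrank k V)
  have h2 := code_bound hN (by linarith) hs hm a4 f1 l0 f2 w1 w2 w3 fun j hj => (j1 j hj).2
  have h3 : ∀ K, ∑ j ∈ range K, T / 2 ^ j * d j + 2 * (T / 2 ^ K) * (finrank k V - finrank k (F K))
      ≤ 4 * (ph m ψ (F K) - ph m ψ ⊤) := fun K => by
    induction K with
    | zero => rw [f0]; simp
    | succ K ih =>
      have := f3 K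
      rw [pow_succ, ← div_div] at this ⊢
      rw [sum_range_succ, d1]
      linarith
  have h4 : ∀ K, ∑ j ∈ range K, (if d j < M then μ j else 0) ≤
      min (ph m ψ (F K) - ph m ψ ⊤) (M * (D * s)) := fun K => by
    induction K with
    | zero => simp [f0]; positivity
    | succ K ih =>
      rw [le_min_iff] at ih
      rw [sum_range_succ, le_min_iff]
      split_ifs with h
      · have b1 := flip_bound hm ψ (W K) (a := 1) zero_le_one (fun w hw => (a4 w).trans
          (mul_le_mul_of_nonneg_left (w1 K w hw) (by linarith))) (gap ψ (F (K + 1)) ⊤)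
          fun i hi => by
            rw [one_mul, Nat.one_le_cast, one_le_card]
            by_contra hc
            refine (mem_filter.1 hi).2.2 (w3 K ▸ sup_le (mem_filter.1 hi).2.1
              (Submodule.span_le.2 fun w hw => by_contra fun hn => hc ⟨w, mem_filter.2 ⟨hw, hn⟩⟩))
        rw [← ph_sub m ψ le_top] at b1
        have b2 : (#(W K) : ℝ) ≤ M := by exact_mod_cast (w2 K).trans h.le
        have b3 := mul_le_mul_of_nonneg_right b2 (by positivity : 0 ≤ D * s)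
        simp only [hμ]
        constructor <;> linarith [ih.1]
      · constructor <;> linarith [ih.1, ih.2, p0 (f1 K)]
  set K := 4 * finrank k V with hK
  have h5 : ∑ j ∈ range K, μ j = ph m ψ (F K) - ph m ψ ⊤ := by
    rw [← f0]; exact sum_range_sub (fun j => ph m ψ (F j)) K
  have h6 : T / 2 ^ K * finrank k V ≤ T / 4 := by
    have : (4 * finrank k V : ℝ) ≤ 2 ^ K := by exact_mod_cast Nat.lt_two_pow_self.le
    rw [div_mul_eq_mul_div, div_le_div_iff₀ (by positivity) (by positivity)]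
    nlinarith
  have h7 := f2 K ⊥ bot_le
  have h8 : ∑ j ∈ range K, μ j ≤ ∑ j ∈ range K, ((if T / 2 ^ j * d j ≤ 16 * μ j ∧ M ≤ d j
      then μ j else 0) + T / 2 ^ j * d j / 16 + if d j < M then μ j else 0) :=
    sum_le_sum fun j _ => by
      have := m0 j
      have := mul_nonneg (l0 j) (Nat.cast_nonneg (d j))
      by_cases h : d j < M
      · rw [if_pos h, if_neg fun h' => h'.2.not_gt h]; linarith
      · rw [if_neg h]
        split_ifs with h'
        · linarith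
        · linarith [not_le.1 fun h'' => h' ⟨h'', not_lt.1 h⟩]
  rw [sum_add_distrib, sum_add_distrib, ← sum_filter, ← sum_div] at h8
  have h9 : (1 : ℝ) ≤ (∑ i ∈ J, d i + 2 ^ #J : ℕ) := by
    exact_mod_cast Nat.le_add_left_of_le (Nat.two_pow_pos _)
  have h10 := mul_nonneg (mul_nonneg (by positivity : (0 : ℝ) ≤ 4 * M) (l0 K)) (sub_nonneg.2 h9)
  have h11 := mul_nonneg (l0 K) (sub_nonneg.2 (d2 K))
  have h12 := mul_le_mul_of_nonneg_left h2 (by positivity : (0 : ℝ) ≤ 1 + 96 * M)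
  have h13 := mul_le_mul_of_nonneg_left (mul_le_mul_of_nonneg_right (le_self_pow₀ hD two_ne_zero)
    hs) (Nat.cast_nonneg M)
  have h14 := h3 K
  have h15 := (h4 K).trans (min_le_right _ _)
  have h16 := p0 (bot_le (a := F K))
  have h17 : (M : ℝ) = 256 * Fintype.card k := by rw [hM]; push_cast; rfl
  simp only [finrank_bot, Nat.cast_zero, sub_zero] at h7
  simp only [← h17] at h12 ⊢
  linarith

end Pool.Agent.Lib.MP_b76e55_an.Inv
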