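import Pool.Agent.Lib.MP_b76e55_an.InvC
import Pool.Agent.Lib.MP_b76e55_an.Cut

/-!
Fourier analysis of cuts on a finite abelian group with an invariant metric.
-/

namespace Pool.Agent.Lib.MP_b76e55_an.Inv

open Finset
open scoped Classical

variable {G : Type} [AddCommGroup G] [Fintype G]

theorem autocorr (f : G → ℝ) (z : G) :
    ∑ χ : AddChar G ℂ, Complex.normSq (∑ g, f g * χ g) * (χ z).re =
      Fintype.card G * ∑ g, f g * f (g + z) := by
  have h : ∑ χ : AddChar G ℂ, (Complex.normSq (∑ g, f g * χ g) : ℂ) * χ z =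
      ((Fintype.card G * ∑ g, f g * f (g + z) : ℝ) : ℂ) := by
    calc _ = ∑ χ : AddChar G ℂ, ∑ g, ∑ u, (f g * f u : ℂ) * χ (g + z - u) := by
          refine sum_congr rfl fun χ _ => ?_
          rw [← Complex.mul_conj, map_sum, sum_mul_sum, sum_mul]
          refine sum_congr rfl fun g _ => ?_
          rw [sum_mul]
          refine sum_congr rfl fun u _ => ?_
          rw [sub_eq_add_neg, χ.map_add_eq_mul, χ.map_add_eq_mul, χ.map_neg_eq_conj, map_mul,
            Complex.conj_ofReal]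
          ring
      _ = ∑ g, ∑ u, (f g * f u : ℂ) * if g + z - u = 0 then (Fintype.card G : ℂ) else 0 := by
          rw [sum_comm]
          refine sum_congr rfl fun g _ => ?_
          rw [sum_comm]
          exact sum_congr rfl fun u _ => by rw [← mul_sum, AddChar.sum_apply_eq_ite]
      _ = _ := by
          simp only [sub_eq_zero, mul_ite, mul_zero, sum_ite_eq, mem_univ, if_true]
          push_cast
          rw [mul_sum]
          exact sum_congr rfl fun g _ => mul_comm _ _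
  simpa [Complex.re_sum, -Complex.ofReal_mul, -Complex.ofReal_sum] using congrArg Complex.re h

theorem bool_meas (H : AddSubgroup G) (P : G → Prop) (hP : ∀ g, ∀ h ∈ H, P (g + h) ↔ P g) :
    ∃ m : AddChar G ℂ → ℝ, (∀ χ, 0 ≤ m χ) ∧ (∀ χ, ∀ h ∈ H, χ h ≠ 1 → m χ = 0) ∧ ∀ z,
      ∑ χ, m χ * (1 - (χ z).re) =
        ∑ g, |(if P (g + z) then 1 else 0 : ℝ) - if P g then 1 else 0| := by
  set f : G → ℝ := fun g => if P g then 1 else 0 with hf
  have h0 : (0 : ℝ) < Fintype.card G := by exact_mod_cast Fintype.card_pos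
  refine ⟨fun χ => 2 / Fintype.card G * Complex.normSq (∑ g, f g * χ g),
    fun χ => mul_nonneg (by positivity) (Complex.normSq_nonneg _), fun χ h hh h1 => ?_, fun z => ?_⟩
  · have : ∑ g, f g * χ g = (∑ g, f g * χ g) * χ h := by
      rw [sum_mul, ← Equiv.sum_comp (Equiv.addRight h)]
      exact sum_congr rfl fun g _ => by simp [hf, hP g h hh, χ.map_add_eq_mul, mul_assoc]
    rw [← sub_eq_zero, ← mul_one_sub, mul_eq_zero, sub_eq_zero] at this
    simp [this.resolve_right h1.symm]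
  · have h1 := autocorr f z
    have h2 := autocorr f 0
    have h3 : ∑ g, f (g + z) * f (g + z) = ∑ g, f g * f g :=
      Equiv.sum_comp (Equiv.addRight z) fun g => f g * f g
    simp only [AddChar.map_zero_eq_one, Complex.one_re, mul_one, add_zero] at h2
    simp only [mul_assoc, ← mul_sum, mul_sub, mul_one, sum_sub_distrib, h1, h2]
    calc _ = ∑ g, (f (g + z) * f (g + z) + f g * f g - 2 * (f g * f (g + z))) := by
          rw [sum_sub_distrib, sum_add_distrib, h3, ← mul_sum]; field_simp; ring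
      _ = _ := sum_congr rfl fun g _ => by simp only [hf]; split_ifs <;> norm_num

theorem layer {a b n : ℕ} (ha : a ≤ n) (hb : b ≤ n) : ∑ t ∈ range n,
    |(if t < a then 1 else 0 : ℝ) - if t < b then 1 else 0| = |(a : ℝ) - b| := by
  have h0 : ∀ c ≤ n, ∑ t ∈ range n, (if t < c then 1 else 0 : ℝ) = c := fun c hc => by
    rw [sum_boole, show (range n).filter (· < c) = range c by ext; simp; omega, card_range]
  wlog h : b ≤ a generalizing a b
  · simp only [abs_sub_comm (a : ℝ), ← this hb ha (by omega)]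
    exact sum_congr rfl fun t _ => abs_sub_comm _ _
  rw [abs_of_nonneg (sub_nonneg.2 (by exact_mod_cast h)), ← h0 a ha, ← h0 b hb, ← sum_sub_distrib]
  refine sum_congr rfl fun t _ => abs_of_nonneg ?_
  split_ifs <;> first | omega | norm_num

theorem nat_meas (H : AddSubgroup G) (c : G → ℕ) {n : ℕ} (hn : ∀ g, c g ≤ n)
    (hc : ∀ g, ∀ h ∈ H, c (g + h) = c g) :
    ∃ m : AddChar G ℂ → ℝ, (∀ χ, 0 ≤ m χ) ∧ (∀ χ, ∀ h ∈ H, χ h ≠ 1 → m χ = 0) ∧ ∀ z,
      ∑ χ, m χ * (1 - (χ z).re) = ∑ g, |(c (g + z) : ℝ) - c g| := by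
  choose m h1 h2 h3 using fun t => bool_meas H (fun g => t < c g) fun g h hh => by rw [hc g h hh]
  refine ⟨fun χ => ∑ t ∈ range n, m t χ, fun χ => sum_nonneg fun t _ => h1 t χ,
    fun χ h hh h4 => sum_eq_zero fun t _ => h2 t χ h hh h4, fun z => ?_⟩
  simp only [sum_mul, ← layer (hn _) (hn _)]
  rw [sum_comm, sum_comm (s := univ)]
  exact sum_congr rfl fun t _ => by convert h3 t z

theorem root_gap {ζ : ℂ} {q : ℕ} (hq : 0 < q) (h1 : ‖ζ‖ = 1) (h2 : ζ ^ q = 1) (h3 : ζ ≠ 1) :
    1 ≤ 2 * q ^ 2 * (1 - ζ.re) := by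
  have b1 : ∀ i : ℕ, ‖1 - ζ ^ i‖ ≤ i * ‖1 - ζ‖ := fun i => by
    induction i with
    | zero => simp
    | succ i ih =>
      rw [show 1 - ζ ^ (i + 1) = 1 - ζ ^ i + ζ ^ i * (1 - ζ) by ring]
      refine (norm_add_le _ _).trans ?_
      rw [norm_mul, norm_pow, h1, one_pow]
      push_cast
      linarith
  have b2 : ∑ i ∈ range q, ζ ^ i = 0 := by
    have := geom_sum_mul ζ q
    rw [h2, sub_self, mul_eq_zero, sub_eq_zero] at this
    exact this.resolve_right h3
  have b3 : (q : ℝ) ≤ q * (q * ‖1 - ζ‖) := by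
    calc _ = ‖∑ i ∈ range q, (1 - ζ ^ i)‖ := by simp [sum_sub_distrib, b2]
      _ ≤ ∑ i ∈ range q, q * ‖1 - ζ‖ := (norm_sum_le _ _).trans (sum_le_sum fun i hi =>
          (b1 i).trans (by gcongr; exact (mem_range.1 hi).le))
      _ = _ := by simp
  have b4 : (1 : ℝ) ≤ q * ‖1 - ζ‖ :=
    le_of_mul_le_mul_left (by rwa [mul_one]) (by exact_mod_cast hq : (0 : ℝ) < q)
  have b5 : ‖1 - ζ‖ ^ 2 = 2 * (1 - ζ.re) := by
    have := Complex.sq_norm ζ
    rw [Complex.sq_norm, Complex.normSq_apply]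
    rw [h1, Complex.normSq_apply] at this
    simp
    linarith
  nlinarith

/-- The mass of the characters that are not trivial at a point. -/
noncomputable def wa {ι : Type} [Fintype ι] (m : ι → ℝ) (χ : ι → AddChar G ℂ) (x : G) : ℝ :=
  ∑ i with χ i x ≠ 1, m i

/-- Every quotient is normed by weighted characters. -/
def TestA (ι : Type) [Fintype ι] (N : G → ℝ) (D : ℝ) : Prop :=
  ∀ H : AddSubgroup G, ∃ (m : ι → ℝ) (χ : ι → AddChar G ℂ), (∀ i, 0 ≤ m i) ∧
    (∀ i, ∀ h ∈ H, χ i h = 1) ∧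
    (∀ x ρ, (∀ h ∈ H, ρ ≤ N (x + h)) → ρ ≤ wa m χ x) ∧ ∀ x, wa m χ x ≤ D * N x

theorem test_of_cuts [MetricSpace G] (hi : ∀ x y z : G, dist (x + z) (y + z) = dist x y)
    {ν : Finset G → ℝ} {D : ℝ} (hν : Cuts ν D) {q : ℕ} (hq : 0 < q) (hG : ∀ x : G, q • x = 0) :
    TestA (AddChar G ℂ) (fun x : G => dist x 0) (4 * q ^ 2 * D) := fun H => by
  set L : Finset G := {h | h ∈ H} with hL
  have hd : ∀ x y : G, dist x y = dist (x - y) 0 := fun x y => by rw [← hi _ 0 y]; simp
  let c : Finset G → G → ℕ := fun A g => #{h ∈ L | g + h ∈ A}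
  have c1 : ∀ A g, (c A g : ℝ) = ∑ h ∈ L, ind A (g + h) := fun A g => by simp [c, ind]
  choose m h1 h2 h3 using fun A => nat_meas H (c A) (n := #L) (fun g => card_filter_le _ _)
    fun g h hh => card_nbij' (fun u => h + u) (fun u => -h + u)
      (fun u => by simp +contextual [hL, add_assoc, H.add_mem hh])
      (fun u => by simp +contextual [hL, add_assoc, H.add_mem (H.neg_mem hh)])
      (fun u _ => by simp) fun u _ => by simp
  have l0 : (0 : ℝ) < Fintype.card G * #L := by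
    exact_mod_cast Nat.mul_pos Fintype.card_pos (card_pos.2 ⟨0, by simp [hL]⟩)
  set M : AddChar G ℂ → ℝ := fun χ => (∑ A, ν A * m A χ) / (Fintype.card G * #L) with hM
  have m0 : ∀ χ, 0 ≤ M χ := fun χ =>
    div_nonneg (sum_nonneg fun A _ => mul_nonneg (hν.nonneg A) (h1 A χ)) l0.le
  have m1 : ∀ z, ∑ χ, M χ * (1 - (χ z).re) =
      (∑ g, ∑ A, ν A * |∑ h ∈ L, (ind A (g + z + h) - ind A (g + h))|) / (Fintype.card G * #L) :=
    fun z => by
      simp only [hM, div_mul_eq_mul_div, ← sum_div, sum_mul, mul_assoc, sum_sub_distrib, ← c1]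
      rw [sum_comm, sum_comm (s := univ) (t := univ) (f := fun g A => ν A * _)]
      simp only [← mul_sum, h3]
  have m2 : ∀ (χ : AddChar G ℂ) z, M χ * (1 - (χ z).re) ≤
      (if (if ∀ h ∈ H, χ h = 1 then χ else 0) z ≠ 1 then 2 * M χ else 0) ∧
      (if (if ∀ h ∈ H, χ h = 1 then χ else 0) z ≠ 1 then 2 * M χ else 0) ≤
        4 * q ^ 2 * (M χ * (1 - (χ z).re)) := fun χ z => by
    by_cases h : ∀ h ∈ H, χ h = 1
    · rw [if_pos h]
      split_ifs with h'
      · have b1 := root_gap hq (χ.norm_apply z)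
          (by rw [← χ.map_nsmul_eq_pow, hG, χ.map_zero_eq_one]) h'
        have b2 := (abs_le.1 ((Complex.abs_re_le_norm _).trans_eq (χ.norm_apply z))).1
        constructor <;> nlinarith [m0 χ]
      · simp [not_not.1 h']
    · push Not at h
      obtain ⟨h, hh, h'⟩ := h
      simp [hM, h2 _ χ h hh h']
  refine ⟨fun χ => 2 * M χ, fun χ => if ∀ h ∈ H, χ h = 1 then χ else 0, fun χ => by
    linarith [m0 χ], fun χ h hh => ?_, fun x ρ hρ => ?_, fun x => ?_⟩
  · beta_reduce
    split_ifs with h'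
    exacts [h' h hh, rfl]
  · refine le_trans ?_ ((sum_le_sum fun χ _ => (m2 χ x).1).trans_eq (sum_filter _ _).symm)
    rw [m1, le_div_iff₀ l0, mul_comm, mul_assoc, ← nsmul_eq_mul]
    refine card_nsmul_le_sum _ _ _ fun g _ => ?_
    let μ : G → ℝ := ∑ h ∈ L, (Pi.single (g + x + h) 1 - Pi.single (g + h) 1)
    have b1 : ∀ φ : G → ℝ, ∑ u, μ u * φ u = ∑ h ∈ L, (φ (g + x + h) - φ (g + h)) := fun φ => by
      simp only [μ, Finset.sum_apply, sum_mul]
      rw [sum_comm]
      exact sum_congr rfl fun h _ => by simp [sub_mul, Pi.single_apply]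
    have b2 := hν.lower μ (by simpa using b1 1) (fun u => Metric.infDist u {v | v - g ∈ H})
      fun u v => sub_le_iff_le_add'.2 Metric.infDist_le_infDist_add_dist
    simp only [← b1]
    rw [b1] at b2
    refine le_trans ?_ (b2.trans_eq (sum_congr rfl fun A _ => by simp [ind]))
    rw [← nsmul_eq_mul]
    refine card_nsmul_le_sum _ _ _ fun h hh => ?_
    have hh' : h ∈ H := by simpa [hL] using hh
    rw [Metric.infDist_zero_of_mem (x := g + h) (by simpa using hh'), sub_zero,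
      Metric.le_infDist ⟨g, by simp⟩]
    intro v hv
    rw [hd, show g + x + h - v = x + (h - (v - g)) by abel]
    exact hρ _ (H.sub_mem hh' hv)
  · refine (sum_filter _ _).trans_le ((sum_le_sum fun χ _ => (m2 χ x).2).trans ?_)
    rw [← mul_sum, mul_assoc _ D, m1]
    refine mul_le_mul_of_nonneg_left ?_ (by positivity)
    rw [div_le_iff₀ l0, mul_comm, mul_assoc, ← nsmul_eq_mul]
    refine sum_le_card_nsmul _ _ _ fun g _ => ?_
    calc _ ≤ ∑ A, ν A * ∑ h ∈ L, |ind A (g + x + h) - ind A (g + h)| := sum_le_sum fun A _ =>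
          mul_le_mul_of_nonneg_left (abs_sum_le_sum_abs _ _) (hν.nonneg A)
      _ = ∑ h ∈ L, ∑ A, ν A * |ind A (g + x + h) - ind A (g + h)| := by
          simp only [mul_sum]; exact sum_comm
      _ ≤ _ := (sum_le_card_nsmul _ _ _ fun h _ => (hν.upper _ _).trans_eq (by
          rw [hd, show g + x + h - (g + h) = x by abel])).trans_eq (nsmul_eq_mul ..)

variable {ι : Type} [Fintype ι]

omit [Fintype G] in
theorem TestA.transfer {N : G → ℝ} {D : ℝ} (hN : TestA ι N D) (hD : 0 ≤ D) {A B : Type}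
    [AddCommGroup A] [AddCommGroup B] (e : A →+ G) (f : A →+ B) {N' : B → ℝ}
    (h1 : ∀ a, N' (f a) ≤ N (e a)) (h2 : ∀ b, ∃ a, f a = b ∧ N (e a) ≤ N' b) : TestA ι N' D := by
  intro H
  obtain ⟨m, χ, a1, a2, a3, a4⟩ := hN ((H.comap f).map e)
  choose s s1 s2 using h2
  have b1 : ∀ i a a', f a = f a' → χ i (e a) = χ i (e a') := fun i a a' h => by
    rw [← sub_add_cancel a a', map_add, (χ i).map_add_eq_mul,
      a2 i _ ⟨a - a', by simp [h], rfl⟩, one_mul]
  refine ⟨m, fun i => ⟨fun b => χ i (e (s b)), by simpa using b1 i (s 0) 0 (by simp [s1]),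
    fun b b' => ?_⟩, a1, fun i h hh => a2 i _ ⟨s h, by simpa [s1] using hh, rfl⟩,
    fun b ρ h => a3 (e (s b)) ρ ?_, fun b => (a4 (e (s b))).trans
      (mul_le_mul_of_nonneg_left (s2 b) hD)⟩
  · rw [← (χ i).map_add_eq_mul, ← map_add]
    exact b1 i _ _ (by simp [s1])
  · rintro _ ⟨a, ha, rfl⟩
    simpa [s1] using (h _ ha).trans (by simpa [s1] using h1 (s b + a))

omit [Fintype G] in
theorem TestA.linear {p : ℕ} [Fact p.Prime] [Module (ZMod p) G] {N : G → ℝ} {D : ℝ}
    (hN : TestA ι N D) : TestL (ZMod p) ι N D := by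
  have h : ∀ χ : AddChar G ℂ, ∃ ψ : Module.Dual (ZMod p) G, ∀ x, ψ x = 0 ↔ χ x = 1 := fun χ => by
    have h1 : ∀ x, ∃ a : ZMod p, ZMod.stdAddChar a = χ x := fun x => by
      obtain ⟨i, -, hi⟩ := (Complex.isPrimitiveRoot_exp p (NeZero.ne p)).eq_pow_of_pow_eq_one
        (ξ := χ x) (by rw [← χ.map_nsmul_eq_pow, ← Nat.cast_smul_eq_nsmul (ZMod p)]; simp)
      refine ⟨(i : ℤ), ?_⟩
      rw [ZMod.stdAddChar_coe, ← hi, ← Complex.exp_nat_mul]
      congr 1
      push_cast
      ring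
    choose a ha using h1
    refine ⟨(AddMonoidHom.mk' a fun x y => ZMod.injective_stdAddChar ?_).toZModLinearMap p,
      fun x => ?_⟩
    · rw [AddChar.map_add_eq_mul, ha, ha, ha, χ.map_add_eq_mul]
    · rw [← ha, ← (ZMod.stdAddChar (N := p)).map_zero_eq_one, ZMod.injective_stdAddChar.eq_iff]; rfl
  choose ψ hψ using h
  intro H
  obtain ⟨m, χ, a1, a2, a3, a4⟩ := hN H.toAddSubgroup
  have h : ∀ x, wt univ m (fun i => ψ (χ i)) x = wa m χ x := fun x =>
    sum_congr (by ext i; simp [hψ]) fun _ _ => rfl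
  exact ⟨m, fun i => ψ (χ i), a1, fun i x hx => (hψ _ _).2 (a2 i x hx),
    fun x ρ hρ => h x ▸ a3 x ρ hρ, fun x => h x ▸ a4 x⟩

theorem bounded_exp (q : ℕ) (hq : 0 < q) : ∃ C : ℝ, 0 ≤ C ∧ ∀ (G : Type) [AddCommGroup G]
    [Fintype G] (ι : Type) [Fintype ι] (N : G → ℝ) (D s : ℝ), (∀ x : G, q • x = 0) → N 0 = 0 →
    (∀ x y, N (x + y) ≤ N x + N y) → TestA ι N D → 1 ≤ D → 0 ≤ s →
    AddSubgroup.closure {x | N x ≤ s} = ⊤ → ∀ x, N x ≤ C * D ^ 2 * s := by
  induction q using induction_on_primes with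
  | zero => omega
  | one =>
    refine ⟨0, le_rfl, fun G _ _ ι _ N D s h1 h2 _ _ _ _ _ x => ?_⟩
    rw [← one_nsmul x, h1, h2]; simp
  | prime_mul p q hp ih =>
    obtain ⟨C, hC, ih⟩ := ih (Nat.pos_of_mul_pos_left hq)
    obtain ⟨C', hC', h0⟩ := core
    refine ⟨C' p + C * p, add_nonneg (hC' p) (by positivity),
      fun G _ _ ι _ N D s h1 h2 h3 h4 hD hs h5 x => ?_⟩
    have := Fact.mk hp
    let f : G →+ G := nsmulAddMonoidHom p
    have b1 : ∀ (n : ℕ) x, N (n • x) ≤ n * N x := fun n x => by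
      induction n with
      | zero => simp [h2]
      | succ n ih => rw [succ_nsmul]; push_cast; linarith [h3 (n • x) x]
    have b2 := ih f.range ι (fun y => N y) D (p * s) (by
        rintro ⟨_, y, rfl⟩
        exact Subtype.ext (by simpa [f, smul_smul, mul_comm] using h1 y)) h2 (fun x y => h3 x y)
      (h4.transfer (by linarith) f.range.subtype (AddMonoidHom.id _) (fun a => le_rfl)
        fun b => ⟨b, rfl, le_rfl⟩) hD (by positivity) (by
        rw [eq_top_iff, ← AddSubgroup.map_top_of_surjective _ f.rangeRestrict_surjective, ← h5,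
          AddMonoidHom.map_closure]
        refine AddSubgroup.closure_mono ?_
        rintro _ ⟨y, hy, rfl⟩
        exact (b1 p y).trans (mul_le_mul_of_nonneg_left hy (Nat.cast_nonneg _)))
    have b3 : ∀ b : G ⧸ f.range, ∃ a : G, a = b ∧ ∀ a' : G, a' = b → N a ≤ N a' := fun b =>
      Set.exists_min_image {a : G | a = b} N (Set.toFinite _) (QuotientAddGroup.mk_surjective b)
    choose r r1 r2 using b3
    let _ : Module (ZMod p) (G ⧸ f.range) := QuotientAddGroup.zmodModule fun y => ⟨y, rfl⟩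
    let _ : Fintype (G ⧸ f.range) := Fintype.ofFinite _
    have b4 := h0 (ZMod p) (G ⧸ f.range) ι (fun b => N (r b)) D s
      (h4.transfer (by linarith) (AddMonoidHom.id _) (QuotientAddGroup.mk' _)
        (fun a => r2 _ a rfl) fun b => ⟨r b, r1 b, le_rfl⟩).linear hD hs (by
        rw [eq_top_iff]
        intro b _
        obtain ⟨a, rfl⟩ := QuotientAddGroup.mk_surjective b
        have : AddSubgroup.closure {x | N x ≤ s} ≤ (Submodule.span (ZMod p)
            {b | N (r b) ≤ s}).toAddSubgroup.comap (QuotientAddGroup.mk' f.range) :=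
          (AddSubgroup.closure_le _).2 fun y hy => Submodule.subset_span ((r2 _ y rfl).trans hy)
        exact this (h5 ▸ AddSubgroup.mem_top a)) x
    have b5 := b2 ⟨-r x + x, QuotientAddGroup.eq.1 (r1 x)⟩
    have b6 := h3 (r x) (-r x + x)
    rw [add_neg_cancel_left] at b6
    rw [ZMod.card] at b4
    simp only at b4 b5
    linarith

end Pool.Agent.Lib.MP_b76e55_an.Inv
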