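import Pool.Agent.Lib.MP_b76e55_an.Cut

/-!
Separated cores, greedy covers and the random sign test.
-/

namespace Pool.Agent.Lib.MP_b76e55_an

open Finset

variable {M : Type} [Fintype M] [DecidableEq M] [MetricSpace M]

/-- The mass of a closed ball. -/
noncomputable def bm (σ : M → ℝ) (x : M) (r : ℝ) : ℝ := ∑ z, if dist x z ≤ r then σ z else 0

/-- The part of `A` within `ρ` of `Z`. -/
noncomputable def cov (Z : Finset M) (ρ : ℝ) (A : Finset M) : Finset M :=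
  open Classical in A.filter fun x => ∃ z ∈ Z, dist x z ≤ ρ

omit [DecidableEq M] in
theorem bm_pos {σ : M → ℝ} (hσ : ∀ z, 0 < σ z) (x : M) {r : ℝ} (hr : 0 ≤ r) : 0 < bm σ x r :=
  sum_pos' (fun z _ => by split_ifs <;> simp [(hσ z).le]) ⟨x, mem_univ _, by simp [hr, hσ x]⟩

omit [DecidableEq M] in
theorem bm_mono {σ σ' : M → ℝ} (hσ : ∀ z, 0 ≤ σ' z) (h : ∀ z, σ z ≤ σ' z) (x : M) {r r' : ℝ}
    (hr : r ≤ r') : bm σ x r ≤ bm σ' x r' :=
  sum_le_sum fun z _ => by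
    split_ifs with h1 h2
    exacts [h z, (h2 (h1.trans hr)).elim, hσ z, le_rfl]

omit [DecidableEq M] in
theorem bm_le {σ : M → ℝ} (hσ : ∀ z, 0 ≤ σ z) (x : M) (r : ℝ) : bm σ x r ≤ ∑ z, σ z :=
  sum_le_sum fun z _ => by split_ifs <;> simp [hσ z]

theorem cores {σ : M → ℝ} (hσ : ∀ z, 0 < σ z) {r t : ℝ} (hr : 0 ≤ r) (ht : 0 ≤ t) (γ : M → ℝ)
    (U : Finset M) : ∃ (S : Finset M) (lab : M → M), S ⊆ U ∧ (∀ x ∈ S, dist x (lab x) ≤ r) ∧
      (∀ x ∈ S, ∀ y ∈ S, lab x ≠ lab y → t ≤ dist x y) ∧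
      ∑ x ∈ U, γ x * (bm σ x r / bm σ x (r + t)) ≤ ∑ x ∈ S, γ x := by
  induction U using Finset.strongInduction with
  | H U ih =>
    rcases U.eq_empty_or_nonempty with rfl | ⟨x₀, hx₀⟩
    · exact ⟨∅, id, by simp, by simp, by simp, by simp⟩
    set p : M → ℝ := fun x => bm σ x r / bm σ x (r + t) with hp
    let br : M → ℝ := fun z => ∑ x ∈ U with dist x z ≤ r, γ x - ∑ x ∈ U with dist x z ≤ r + t, γ x * p x
    have h0 : ∑ z, σ z * br z = 0 := by
      simp only [br, mul_sub, sum_sub_distrib, sum_filter, mul_sum]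
      rw [sum_comm, sum_comm (s := univ), ← sum_sub_distrib]
      refine sum_eq_zero fun x _ => ?_
      have e : ∀ (c ρ : ℝ), ∑ z, σ z * (if dist x z ≤ ρ then c else 0) = c * bm σ x ρ := fun c ρ => by
        rw [bm, mul_sum]
        exact sum_congr rfl fun z _ => by split_ifs <;> ring
      rw [e, e, hp, mul_assoc, div_mul_cancel₀ _ (bm_pos hσ x (by linarith)).ne', sub_self]
    obtain ⟨z, ⟨x₁, hx₁, hz⟩, hbr⟩ : ∃ z, (∃ x ∈ U, dist x z ≤ r + t) ∧ 0 ≤ br z := by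
      by_contra hc
      push Not at hc
      refine (sum_neg' (s := univ) (f := fun z => σ z * br z) (fun z _ => ?_)
        ⟨x₀, mem_univ _, mul_neg_of_pos_of_neg (hσ _) (hc _ ⟨x₀, hx₀, by simp; linarith⟩)⟩).ne h0
      by_cases h : ∃ x ∈ U, dist x z ≤ r + t
      · exact (mul_neg_of_pos_of_neg (hσ _) (hc _ h)).le
      · push Not at h
        simp only [br]
        rw [filter_false_of_mem fun x hx => by linarith [h x hx],
          filter_false_of_mem fun x hx => by linarith [h x hx]]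
        simp
    obtain ⟨S, lab, s1, s2, s3, s4⟩ := ih (U.filter fun x => ¬ dist x z ≤ r + t)
      (filter_ssubset.2 ⟨x₁, hx₁, by simpa using hz⟩)
    have s5 : ∀ x ∈ S, r + t < dist x z := fun x hx => not_le.1 (mem_filter.1 (s1 hx)).2
    have s6 : ∀ x ∈ S, ¬ dist x z ≤ r := fun x hx => by linarith [s5 x hx]
    refine ⟨U.filter (fun x => dist x z ≤ r) ∪ S, fun x => if dist x z ≤ r then z else lab x,
      union_subset (filter_subset _ _) (s1.trans (filter_subset _ _)), fun x hx => ?_,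
      fun x hx y hy h => ?_, ?_⟩
    · rcases mem_union.1 hx with hx | hx
      · simp [(mem_filter.1 hx).2]
      · simpa [s6 x hx] using s2 x hx
    · rcases mem_union.1 hx with hx | hx <;> rcases mem_union.1 hy with hy | hy
      · simp [(mem_filter.1 hx).2, (mem_filter.1 hy).2] at h
      · linarith [(mem_filter.1 hx).2, s5 y hy, dist_triangle y x z, dist_comm x y]
      · linarith [(mem_filter.1 hy).2, s5 x hx, dist_triangle x y z]
      · exact s3 x hx y hy (by simpa [s6 x hx, s6 y hy] using h)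
    · rw [sum_union (disjoint_left.2 fun x hx hx' => s6 x hx' (mem_filter.1 hx).2),
        ← sum_filter_add_sum_filter_not U fun x => dist x z ≤ r + t]
      simp only [br] at hbr
      linarith

theorem cover {u : M → ℝ} (hu : ∀ x, 0 ≤ u x) (A : Finset M) {η : ℝ} (hη : 0 < η) (ρ : ℝ) :
    ∃ Z : Finset M, η * Z.card ≤ 1 ∧
      ∀ z, ∑ x ∈ A \ cov Z ρ A with dist x z ≤ ρ, u x ≤ η * ∑ x ∈ A, u x := by
  have hA : 0 ≤ ∑ x ∈ A, u x := sum_nonneg fun x _ => hu x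
  rcases hA.eq_or_lt with h0 | h0
  · refine ⟨∅, by simp, fun z => ?_⟩
    rw [← h0, mul_zero, h0]
    exact sum_le_sum_of_subset_of_nonneg ((filter_subset _ _).trans sdiff_subset) fun x _ _ => hu x
  obtain ⟨Z, h1, h2⟩ := exists_max_image (univ.filter fun Z : Finset M =>
    η * Z.card * ∑ x ∈ A, u x ≤ ∑ x ∈ cov Z ρ A, u x) card ⟨∅, by simp [cov]⟩
  have h3 := (mem_filter.1 h1).2
  have h4 : ∑ x ∈ cov Z ρ A, u x ≤ ∑ x ∈ A, u x :=
    sum_le_sum_of_subset_of_nonneg (filter_subset _ _) fun x _ _ => hu x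
  refine ⟨Z, le_of_mul_le_mul_right (by linarith) h0, fun z => ?_⟩
  by_contra hc
  have hz : z ∉ Z := fun hz => hc (by
    rw [filter_false_of_mem fun x hx h => (mem_sdiff.1 hx).2
      (by simp only [cov, mem_filter]; exact ⟨(mem_sdiff.1 hx).1, z, hz, h⟩)]
    simp only [sum_empty]
    positivity)
  have h5 := h2 (insert z Z) (mem_filter.2 ⟨mem_univ _, by
    have : ∑ x ∈ cov Z ρ A ∪ (A \ cov Z ρ A).filter (fun x => dist x z ≤ ρ), u x ≤
        ∑ x ∈ cov (insert z Z) ρ A, u x := by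
      refine sum_le_sum_of_subset_of_nonneg (fun x hx => ?_) fun x _ _ => hu x
      simp only [cov, mem_union, mem_filter, mem_sdiff, mem_insert] at hx ⊢
      rcases hx with ⟨a, y, b, c⟩ | ⟨a, b⟩
      exacts [⟨a, y, Or.inr b, c⟩, ⟨a.1, z, Or.inl rfl, b⟩]
    rw [sum_union (disjoint_left.2 fun x hx hx' => (mem_sdiff.1 (mem_filter.1 hx').1).2 hx)] at this
    rw [card_insert_of_notMem hz]
    push_cast
    linarith⟩)
  rw [card_insert_of_notMem hz] at h5
  omega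

omit [MetricSpace M] in
theorem sign_l1 {a : M → ℝ} (ha : ∀ z, 0 ≤ a z) {U V θ : ℝ} (hθ : 0 < θ) (hU : 0 ≤ U)
    (h1 : ∀ z, a z ≤ U / θ ^ 2) (h2 : ∑ z, a z ≤ V) :
    ∑ ε : M → Bool, |∑ z, if ε z then a z else -a z| ≤ 2 ^ Fintype.card M * ((V + U) / (2 * θ)) := by
  have hV : 0 ≤ V := (sum_nonneg fun z _ => ha z).trans h2
  refine abs_le_of_sq_le_sq' ?_ (by positivity) |>.2
  refine (sq_sum_le_card_mul_sum_sq).trans ?_
  simp only [sq_abs, sign_sq, card_univ, Fintype.card_fun, Fintype.card_bool, Nat.cast_pow,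
    Nat.cast_ofNat]
  have h3 : ∑ z, a z ^ 2 ≤ ((V + U) / (2 * θ)) ^ 2 := by
    calc ∑ z, a z ^ 2 ≤ ∑ z, a z * (U / θ ^ 2) := sum_le_sum fun z _ => by
          rw [sq]; exact mul_le_mul_of_nonneg_left (h1 z) (ha z)
      _ ≤ V * (U / θ ^ 2) := by
          rw [← sum_mul]; exact mul_le_mul_of_nonneg_right h2 (by positivity)
      _ ≤ _ := by
          rw [div_pow, ← mul_div_assoc, div_le_div_iff₀ (by positivity) (by positivity)]
          nlinarith [mul_nonneg (sq_nonneg (V - U)) (sq_nonneg θ)]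
  rw [mul_pow, sq (2 ^ _ : ℝ), mul_assoc]
  gcongr

omit [Fintype M] [DecidableEq M] in
theorem exists_sign_fun {S : Finset M} {lab : M → M} {t : ℝ} (ht : 0 ≤ t)
    (h : ∀ x ∈ S, ∀ y ∈ S, lab x ≠ lab y → t ≤ dist x y) (ε : M → Bool) :
    ∃ f : M → ℝ, (∀ x y, f x - f y ≤ dist x y) ∧ (∀ x, |f x| ≤ t / 2) ∧
      ∀ x ∈ S, f x = if ε (lab x) then t / 2 else -(t / 2) := by
  have h1 : LipschitzOnWith 1 (fun x => if ε (lab x) then t / 2 else -(t / 2)) (S : Set M) := by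
    refine LipschitzOnWith.of_le_add fun x hx y hy => ?_
    have := dist_nonneg (x := x) (y := y)
    by_cases e : lab x = lab y
    · simp [e]
    · have := h x hx y hy e
      split_ifs <;> linarith
  obtain ⟨g, g1, g2⟩ := h1.extend_real
  refine ⟨fun x => max (-(t / 2)) (min (t / 2) (g x)), fun x y => ?_, fun x => ?_, fun x hx => ?_⟩
  · have h2 := ((g1.const_min (t / 2)).const_max (-(t / 2))).dist_le_mul x y
    rw [Real.dist_eq, NNReal.coe_one, one_mul] at h2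
    exact (le_abs_self _).trans h2
  · exact abs_le.2 ⟨le_max_left _ _, max_le (by linarith) (min_le_left _ _)⟩
  · beta_reduce
    rw [← g2 hx]
    beta_reduce
    split_ifs
    · rw [min_self, max_eq_right (by linarith)]
    · rw [min_eq_right (by linarith), max_self]

section
variable {ι : Type} [Fintype ι] {C : Finset M} {a : ι → ℝ} {Pc : ι → Finset M} {Γ t : ℝ}

theorem level0 (ha : ∀ i, 0 ≤ a i) (hPc : ∀ i, Pc i ⊆ C) (ht : 0 < t)
    (hΓ : ∀ u : M → ℝ, (∀ x, 0 ≤ u x) → ∑ i, a i * ∑ x ∈ Pc i, u x ≤ Γ * ∑ x ∈ C, u x)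
    (hT : ∀ μ f : M → ℝ, (∀ x y, f x - f y ≤ dist x y) → (∀ x, |f x| ≤ t / 2) →
      ∑ x ∈ C, μ x * f x ≤ ∑ i, a i * |∑ x ∈ Pc i, μ x|)
    {σ : M → ℝ} (hσ : ∀ z, 0 < σ z) {r ρ p₀ θ : ℝ} (hr : 0 ≤ r) (hρ : r ≤ ρ) (hp₀ : 0 < p₀)
    (hθ : 0 < θ) (hθ' : 4 * Γ ≤ θ * t) {u : M → ℝ} (hu : ∀ x, 0 ≤ u x)
    (hp : ∀ x, 0 < u x → p₀ ≤ bm σ x r / bm σ x (r + t)) :
    ∃ Z : ι → Finset M, (∀ i, p₀ / θ ^ 2 * (Z i).card ≤ 1) ∧
      t / 4 * ∑ x ∈ C, u x ≤ ∑ i, a i * ∑ x ∈ cov (Z i) ρ (Pc i), u x := by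
  choose Z z1 z2 using fun i => cover hu (Pc i) (η := p₀ / θ ^ 2) (by positivity) ρ
  refine ⟨Z, z1, ?_⟩
  set p : M → ℝ := fun x => bm σ x r / bm σ x (r + t) with hpd
  have p0 : ∀ x, 0 < p x := fun x => div_pos (bm_pos hσ x hr) (bm_pos hσ x (by linarith))
  set v : M → ℝ := fun x => u x / p x with hv
  have v0 : ∀ x, 0 ≤ v x := fun x => div_nonneg (hu x) (p0 x).le
  have v1 : ∀ x, v x ≤ u x / p₀ := fun x => by
    rcases (hu x).eq_or_lt with h | h
    · simp [hv, ← h]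
    · exact div_le_div_of_nonneg_left (hu x) hp₀ (hp x h)
  set H : ι → Finset M := fun i => cov (Z i) ρ (Pc i) with hH
  have H1 : ∀ i, H i ⊆ Pc i := fun i => filter_subset _ _
  have sind : ∀ (S A : Finset M) (g : M → ℝ), ∑ x ∈ S, g x * ind A x = ∑ x ∈ A ∩ S, g x :=
    fun S A g => by simp [ind, inter_comm]
  have expand : ∀ (S : Finset M) (g : M → ℝ), ∑ x ∈ S, g x *
      (t / 2 - ∑ i, a i * (ind (H i) x + ind (Pc i) x / (2 * θ))) = t / 2 * ∑ x ∈ S, g x -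
        ∑ i, a i * (∑ x ∈ H i ∩ S, g x + (∑ x ∈ Pc i ∩ S, g x) / (2 * θ)) := fun S g => by
    simp only [mul_sub, sum_sub_distrib, mul_sum, ← sind, sum_div, ← sum_add_distrib]
    rw [sum_comm]
    congr 1
    · exact sum_congr rfl fun x _ => mul_comm _ _
    · exact sum_congr rfl fun i _ => sum_congr rfl fun x _ => by ring
  obtain ⟨S, lab, s1, s2, s3, s4⟩ := cores hσ hr ht.le
    (fun x => v x * (t / 2 - ∑ i, a i * (ind (H i) x + ind (Pc i) x / (2 * θ)))) C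
  have e1 : ∀ x c, v x * c * (bm σ x r / bm σ x (r + t)) = u x * c := fun x c => by
    change u x / p x * c * p x = _
    field_simp [(p0 x).ne']
  simp only [e1, expand] at s4
  simp only [inter_eq_left.2 (hPc _), inter_eq_left.2 ((H1 _).trans (hPc _))] at s4
  let μ : (M → Bool) → M → ℝ := fun ε x => if x ∈ S then (if ε (lab x) then v x else -v x) else 0
  have t1 : ∀ ε, t / 2 * ∑ x ∈ S, v x ≤ ∑ i, a i * |∑ x ∈ Pc i, μ ε x| := fun ε => by
    obtain ⟨f, f1, f2, f3⟩ := exists_sign_fun ht.le s3 ε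
    refine le_trans (le_of_eq ?_) (hT _ f f1 f2)
    rw [← sum_subset s1 fun x _ hx => by simp [μ, hx], mul_sum]
    refine sum_congr rfl fun x hx => ?_
    simp only [μ, hx, if_true, f3 x hx]
    split_ifs <;> ring
  have t2 : ∀ i, ∑ ε, |∑ x ∈ Pc i, μ ε x| ≤ 2 ^ Fintype.card M *
      (∑ x ∈ H i ∩ S, v x + (∑ x ∈ Pc i ∩ S, v x + ∑ x ∈ Pc i, u x) / (2 * θ)) := fun i => by
    let b : M → ℝ := fun z => ∑ x ∈ (Pc i \ H i) ∩ S with lab x = z, v x
    have b1 := sign_l1 (a := b) (U := ∑ x ∈ Pc i, u x) (V := ∑ x ∈ Pc i ∩ S, v x)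
      (fun z => sum_nonneg fun x _ => v0 x) hθ (sum_nonneg fun x _ => hu x) (fun z => by
        have c1 := z2 i z
        have c2 : b z ≤ ∑ x ∈ Pc i \ H i with dist x z ≤ ρ, u x / p₀ := by
          refine (sum_le_sum fun x _ => v1 x).trans (sum_le_sum_of_subset_of_nonneg
            (fun x hx => ?_) fun x _ _ => div_nonneg (hu x) hp₀.le)
          simp only [mem_filter, mem_inter] at hx ⊢
          exact ⟨hx.1.1, hx.2 ▸ (s2 x hx.1.2).trans hρ⟩
        rw [← sum_div] at c2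
        refine c2.trans ((div_le_div_of_nonneg_right c1 hp₀.le).trans (le_of_eq ?_))
        field_simp) (by
        simp only [b]
        rw [sum_fiberwise]
        exact sum_le_sum_of_subset_of_nonneg (inter_subset_inter_right sdiff_subset)
          fun x _ _ => v0 x)
    have b2 : ∀ ε, |∑ x ∈ Pc i, μ ε x| ≤ ∑ x ∈ H i ∩ S, v x + |∑ z, if ε z then b z else -b z| := by
      intro ε
      rw [← sum_sdiff (H1 i), add_comm]
      refine (abs_add_le _ _).trans (add_le_add ?_ (le_of_eq (congrArg _ ?_)))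
      · rw [← sum_ite_mem]
        refine (abs_sum_le_sum_abs _ _).trans (sum_le_sum fun x _ => ?_)
        simp only [μ]
        split_ifs <;> simp [abs_of_nonneg (v0 x)]
      · simp only [μ, b]
        rw [sum_ite_mem, ← sum_fiberwise _ lab]
        refine sum_congr rfl fun z _ => ?_
        split_ifs with hz
        · exact sum_congr rfl fun x hx => by simp [(mem_filter.1 hx).2, hz]
        · rw [← sum_neg_distrib]
          exact sum_congr rfl fun x hx => by simp [(mem_filter.1 hx).2, hz]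
    refine (sum_le_sum fun ε _ => b2 ε).trans ?_
    rw [sum_add_distrib, sum_const, card_univ, Fintype.card_fun, Fintype.card_bool, nsmul_eq_mul,
      mul_add]
    push_cast
    linarith
  have t3 := sum_le_sum fun ε (_ : ε ∈ univ) => t1 ε
  rw [sum_const, card_univ, Fintype.card_fun, Fintype.card_bool, nsmul_eq_mul, sum_comm] at t3
  simp only [← mul_sum] at t3
  have t4 := t3.trans (sum_le_sum fun i _ => mul_le_mul_of_nonneg_left (t2 i) (ha i))
  simp only [mul_left_comm (a _), ← mul_sum] at t4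
  push_cast at t4
  have t5 := le_of_mul_le_mul_left t4 (by positivity)
  have t6 := hΓ u hu
  have t7 : Γ * (∑ x ∈ C, u x) / θ ≤ t / 4 * ∑ x ∈ C, u x := by
    rw [div_le_iff₀ hθ]
    nlinarith [sum_nonneg fun x (_ : x ∈ C) => hu x]
  have t8 := div_le_div_of_nonneg_right t6 hθ.le
  simp only [mul_add, add_div, sum_add_distrib, ← mul_div_assoc, ← sum_div] at s4 t5
  have t9 : ∀ y : ℝ, y / (2 * θ) = y / θ / 2 := fun y => by field_simp
  simp only [t9] at s4 t5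
  linarith

theorem level (ha : ∀ i, 0 ≤ a i) (hPc : ∀ i, Pc i ⊆ C) (ht : 0 < t)
    (hΓ : ∀ u : M → ℝ, (∀ x, 0 ≤ u x) → ∑ i, a i * ∑ x ∈ Pc i, u x ≤ Γ * ∑ x ∈ C, u x)
    (hT : ∀ μ f : M → ℝ, (∀ x y, f x - f y ≤ dist x y) → (∀ x, |f x| ≤ t / 2) →
      ∑ x ∈ C, μ x * f x ≤ ∑ i, a i * |∑ x ∈ Pc i, μ x|)
    {σ : M → ℝ} (hσ : ∀ z, 0 < σ z) (hσ1 : ∑ z, σ z ≤ 1) {ρ G θ : ℝ} (hρ : 0 ≤ ρ)
    (hθ : 0 < θ) (hθ' : 4 * Γ ≤ θ * t) {u : M → ℝ} (hu : ∀ x, 0 ≤ u x)
    (hG : ∀ x, 0 < u x → -Real.log (bm σ x ρ) ≤ G) :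
    ∃ Z : ι → Finset M, (∀ i, Real.exp (-G / 2) / θ ^ 2 * (Z i).card ≤ 1) ∧
      t / 8 * ∑ x ∈ C, u x ≤ ∑ i, a i * ∑ x ∈ cov (Z i) (ρ + 2 * t) (Pc i), u x := by
  let v : ℝ → M → ℝ := fun r x =>
    if Real.exp (-G / 2) ≤ bm σ x r / bm σ x (r + t) then u x else 0
  have v0 : ∀ r x, 0 ≤ v r x := fun r x => by
    simp only [v]
    split_ifs <;> simp [hu x]
  have v1 : ∀ r x, v r x ≤ u x := fun r x => by
    simp only [v]
    split_ifs <;> simp [hu x]
  have v2 : ∀ x, u x ≤ v ρ x + v (ρ + t) x := fun x => by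
    rcases (hu x).eq_or_lt with h | h
    · linarith [v0 ρ x, v0 (ρ + t) x]
    by_cases h1 : Real.exp (-G / 2) ≤ bm σ x ρ / bm σ x (ρ + t)
    · simpa [v, h1] using v0 (ρ + t) x
    by_cases h2 : Real.exp (-G / 2) ≤ bm σ x (ρ + t) / bm σ x (ρ + t + t)
    · simpa [v, h2] using v0 ρ x
    exfalso
    have p0 := bm_pos hσ x hρ
    have p1 := bm_pos hσ x (r := ρ + t) (by linarith)
    have p2 := bm_pos hσ x (r := ρ + t + t) (by linarith)
    have p3 := (bm_le (fun z => (hσ z).le) x (ρ + t + t)).trans hσ1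
    have p4 : Real.exp (-G / 2) * Real.exp (-G / 2) ≤ bm σ x ρ := by
      rw [← Real.exp_add, add_halves, ← Real.le_log_iff_exp_le p0]
      linarith [hG x h]
    rw [not_le, div_lt_iff₀ (by assumption)] at h1 h2
    have p5 := Real.exp_pos (-G / 2)
    nlinarith [mul_lt_mul_of_pos_left h2 p5, mul_le_mul_of_nonneg_left p3 (mul_pos p5 p5).le]
  obtain ⟨r, r1, r2, r3⟩ : ∃ r, 0 ≤ r ∧ r ≤ ρ + 2 * t ∧ ∑ x ∈ C, u x ≤ 2 * ∑ x ∈ C, v r x := by
    have := sum_le_sum fun x (_ : x ∈ C) => v2 x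
    rw [sum_add_distrib] at this
    rcases le_total (∑ x ∈ C, v ρ x) (∑ x ∈ C, v (ρ + t) x) with h | h
    · exact ⟨ρ + t, by linarith, by linarith, by linarith⟩
    · exact ⟨ρ, hρ, by linarith, by linarith⟩
  obtain ⟨Z, z1, z2⟩ := level0 ha hPc ht hΓ hT hσ r1 r2 (Real.exp_pos (-G / 2)) hθ hθ' (v0 r)
    (fun x hx => by
      by_contra h
      simp [v, h] at hx)
  refine ⟨Z, z1, le_trans (by nlinarith) (z2.trans (sum_le_sum fun i _ =>
    mul_le_mul_of_nonneg_left (sum_le_sum fun x _ => v1 r x) (ha i)))⟩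

end
end Pool.Agent.Lib.MP_b76e55_an
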