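import Mathlib

/-!
Small vertex sets in a graph of large girth are sparse; balls in a graph of bounded degree are
small.
-/

namespace Pool.Agent.Lib.MP_b76e55_an

open Finset SimpleGraph

variable {M : Type*} [DecidableEq M] (G : SimpleGraph M) [DecidableRel G.Adj]

/-- Ordered adjacent pairs inside `S`. -/
def darts (S : Finset M) : Finset (M × M) := (S ×ˢ S).filter fun e => G.Adj e.1 e.2

variable {G}

theorem mem_darts {S : Finset M} {e : M × M} :
    e ∈ darts G S ↔ e.1 ∈ S ∧ e.2 ∈ S ∧ G.Adj e.1 e.2 := by simp [darts, and_assoc]

omit [DecidableRel G.Adj] in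
theorem girth_le_of_walk {u v : M} (h : G.Adj u v) (w : G.Walk v u) (hw : s(u, v) ∉ w.edges) :
    G.girth ≤ w.length + 1 := by
  have := girth_le_length ((Walk.cons_isCycle_iff w.bypass h).2
    ⟨w.bypass_isPath, fun he => hw (w.edges_bypass_subset he)⟩)
  have := w.length_bypass_le
  simp only [Walk.length_cons] at *
  omega

omit [DecidableRel G.Adj] in
theorem geo (hc : G.Connected) (x u : M) : ∃ p : G.Walk x u, p.length = G.dist x u ∧
    ∀ y ∈ p.support, y = u ∨ G.dist x y < G.dist x u := by
  obtain ⟨p, hp⟩ := hc.exists_walk_length_eq_dist x u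
  refine ⟨p, hp, fun y hy => or_iff_not_imp_left.2 fun hne => ?_⟩
  have a1 := G.dist_le (p.takeUntil y hy)
  have a2 := congrArg Walk.length (p.take_spec hy)
  have a3 : (p.dropUntil y hy).length ≠ 0 := fun h => hne (Walk.eq_of_length_eq_zero h)
  rw [Walk.length_append] at a2
  omega

omit [DecidableRel G.Adj] in
theorem no_tie (hc : G.Connected) {k : ℕ} (hk : 2 * k + 2 ≤ G.girth) {x u v : M} (h : G.Adj u v)
    (hu : G.dist x u ≤ k) : G.dist x u ≠ G.dist x v := by
  intro e
  obtain ⟨p, p1, p2⟩ := geo hc x u
  obtain ⟨q, q1, q2⟩ := geo hc x v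
  have := girth_le_of_walk h (q.reverse.append p) (by
    simp only [Walk.edges_append, Walk.edges_reverse, List.mem_append, List.mem_reverse, not_or]
    refine ⟨fun he => ?_, fun he => ?_⟩
    · rcases q2 u (q.fst_mem_support_of_mem_edges he) with a | a
      · exact h.ne a
      · omega
    · rcases p2 v (p.snd_mem_support_of_mem_edges he) with a | a
      · exact h.ne' a
      · omega)
  simp only [Walk.length_append, Walk.length_reverse] at this
  omega

omit [DecidableRel G.Adj] in
theorem one_parent (hc : G.Connected) {k : ℕ} (hk : 2 * k + 2 ≤ G.girth) {x u u' v : M}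
    (h : G.Adj u v) (h' : G.Adj u' v) (hv : G.dist x v ≤ k) (hu : G.dist x u < G.dist x v)
    (hu' : G.dist x u' < G.dist x v) : u = u' := by
  by_contra hne
  obtain ⟨p, p1, p2⟩ := geo hc x u
  obtain ⟨q, q1, q2⟩ := geo hc x u'
  have := girth_le_of_walk h (Walk.cons h'.symm (q.reverse.append p)) (by
    simp only [Walk.edges_cons, Walk.edges_append, Walk.edges_reverse, List.mem_cons,
      List.mem_append, List.mem_reverse, not_or]
    refine ⟨fun he => ?_, fun he => ?_, fun he => ?_⟩
    · rcases Sym2.eq_iff.1 he with a | a
      · exact h.ne a.1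
      · exact hne a.1
    · rcases q2 v (q.snd_mem_support_of_mem_edges he) with a | a
      · exact h'.ne' a
      · omega
    · rcases p2 v (p.snd_mem_support_of_mem_edges he) with a | a
      · exact h.ne' a
      · omega)
  simp only [Walk.length_cons, Walk.length_append, Walk.length_reverse] at this
  omega

theorem moore (hc : G.Connected) {k : ℕ} (hk : 2 * k + 2 ≤ G.girth) {τ : ℝ} (hτ : 0 ≤ τ)
    {S : Finset M} (hS : S.Nonempty) (hd : 2 * τ * S.card ≤ (darts G S).card) :
    τ ^ k ≤ S.card := by
  obtain ⟨H, h1, h2⟩ := exists_max_image (S.powerset.filter fun H => H.Nonempty)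
    (fun H => ((darts G H).card : ℝ) - 2 * τ * H.card) ⟨S, by simp [hS]⟩
  simp only [mem_filter, mem_powerset] at h1 h2
  obtain ⟨x, hx⟩ := h1.2
  let B : ℕ → Finset M := fun j => H.filter fun v => G.dist x v ≤ j
  have key : ∀ j ≤ k, τ ^ j ≤ (B j).card := by
    intro j
    induction j with
    | zero =>
      intro _
      have : 0 < (B 0).card := card_pos.2 ⟨x, by simp [B, hx]⟩
      simpa using this
    | succ j ih =>
      intro hj
      have a1 : ((darts G (H \ B j)).card : ℝ) - 2 * τ * (H \ B j).card ≤
          (darts G H).card - 2 * τ * H.card := by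
        rcases (H \ B j).eq_empty_or_nonempty with e | e
        · have := h2 S ⟨subset_rfl, hS⟩
          rw [e]
          simp only [darts, empty_product, filter_empty, card_empty, Nat.cast_zero] at this ⊢
          unfold darts at hd
          linarith
        · exact h2 _ ⟨sdiff_subset.trans h1.1, e⟩
      have a2 : (H \ B j).card + (B j).card = H.card := card_sdiff_add_card_eq_card (filter_subset _ _)
      let D1 := (darts G H).filter fun e => G.dist x e.1 < G.dist x e.2 ∧ G.dist x e.2 ≤ j + 1
      let D2 := (darts G H).filter fun e => G.dist x e.2 < G.dist x e.1 ∧ G.dist x e.1 ≤ j + 1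
      have a3 : D1.card ≤ (B (j + 1)).card := by
        refine card_le_card_of_injOn Prod.snd (fun e he => ?_) fun e he e' he' h => ?_
        · simp only [D1, coe_filter, mem_darts, Set.mem_setOf_eq, B] at he ⊢
          exact ⟨he.1.2.1, he.2.2⟩
        · simp only [D1, coe_filter, mem_darts, Set.mem_setOf_eq] at he he'
          exact Prod.ext (one_parent hc hk he.1.2.2 (h ▸ he'.1.2.2) (he.2.2.trans hj) he.2.1
            (h ▸ he'.2.1)) h
      have a4 : D2.card ≤ (B (j + 1)).card := by
        refine card_le_card_of_injOn Prod.fst (fun e he => ?_) fun e he e' he' h => ?_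
        · simp only [D2, coe_filter, mem_darts, Set.mem_setOf_eq, B] at he ⊢
          exact ⟨he.1.1, he.2.2⟩
        · simp only [D2, coe_filter, mem_darts, Set.mem_setOf_eq] at he he'
          exact Prod.ext h (one_parent hc hk he.1.2.2.symm (h ▸ he'.1.2.2.symm) (he.2.2.trans hj)
            he.2.1 (h ▸ he'.2.1))
      have a5 : darts G H ⊆ darts G (H \ B j) ∪ (D1 ∪ D2) := by
        intro e he
        have he' := mem_darts.1 he
        have b1 := he'.2.2.diff_dist_adj (u := x)
        simp only [mem_union, D1, D2, mem_filter, he, true_and, mem_darts, mem_sdiff, B, he', and_true]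
        by_cases c1 : G.dist x e.1 ≤ j
        · have := no_tie hc hk he'.2.2 (x := x) (by omega)
          omega
        · by_cases c2 : G.dist x e.2 ≤ j
          · omega
          · exact Or.inl ⟨c1, c2⟩
      have a6 := (card_le_card a5).trans ((card_union_le _ _).trans
        (Nat.add_le_add_left (card_union_le _ _) _))
      have a7 : ((darts G H).card : ℝ) ≤ (darts G (H \ B j)).card + 2 * (B (j + 1)).card := by
        exact_mod_cast (by omega)
      have a8 : ((H \ B j).card : ℝ) + (B j).card = H.card := by exact_mod_cast a2
      have a9 := mul_le_mul_of_nonneg_left (ih (by omega)) hτ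
      rw [pow_succ']
      nlinarith
  exact (key k le_rfl).trans (by exact_mod_cast card_le_card ((filter_subset _ _).trans h1.1))

theorem darts_card_le [Fintype M] (S : Finset M) : (darts G S).card ≤ G.maxDegree * S.card := by
  have : darts G S ⊆ S.biUnion fun u => (G.neighborFinset u).image fun v => (u, v) := by
    intro e he
    have he' := mem_darts.1 he
    simp only [mem_biUnion, mem_image, mem_neighborFinset]
    exact ⟨_, he'.1, _, he'.2.2, rfl⟩
  refine (card_le_card this).trans (card_biUnion_le.trans ?_)
  rw [mul_comm]
  exact sum_le_card_nsmul _ _ _ fun u _ => card_image_le.trans (G.degree_le_maxDegree u)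

theorem darts_univ [Fintype M] : (darts G univ).card = ∑ v, G.degree v := by
  simp only [darts, card_filter, sum_product, ← card_neighborFinset_eq_degree,
    neighborFinset_eq_filter]

theorem ball_card_le [Fintype M] (hc : G.Connected) (x : M) (j : ℕ) :
    (univ.filter fun v => G.dist x v ≤ j).card ≤ (G.maxDegree + 1) ^ j := by
  induction j with
  | zero =>
    refine card_le_one.2 fun a ha b hb => ?_
    simp only [mem_filter, mem_univ, true_and, Nat.le_zero, hc.dist_eq_zero_iff] at ha hb
    rw [← ha, ← hb]
  | succ j ih =>
    have : (univ.filter fun v => G.dist x v ≤ j + 1) ⊆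
        (univ.filter fun v => G.dist x v ≤ j).biUnion fun u => insert u (G.neighborFinset u) := by
      intro v hv
      simp only [mem_filter, mem_univ, true_and, mem_biUnion, mem_insert, mem_neighborFinset] at hv ⊢
      obtain ⟨p, hp⟩ := hc.exists_walk_length_eq_dist v x
      cases p with
      | nil => exact ⟨x, by simp, Or.inl rfl⟩
      | cons h q =>
        have := G.dist_le q
        rw [Walk.length_cons, G.dist_comm] at hp
        rw [G.dist_comm] at this
        exact ⟨_, by omega, Or.inr h.symm⟩
    refine (card_le_card this).trans (card_biUnion_le.trans ((sum_le_card_nsmul _ _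
      (G.maxDegree + 1) fun u _ => (card_insert_le _ _).trans
        (Nat.succ_le_succ (G.degree_le_maxDegree u))).trans ?_))
    rw [pow_succ]
    exact Nat.mul_le_mul_right _ ih

end Pool.Agent.Lib.MP_b76e55_an
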