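import Pool.Agent.Lib.MP_b76e55_an.Level

/-!
Pieces of a cluster, region growing and the decomposition of one cluster.
-/

namespace Pool.Agent.Lib.MP_b76e55_an

open Finset

variable {M : Type} [Fintype M] [DecidableEq M] [MetricSpace M]

theorem exists_pos_lt {ι : Type} [Fintype ι] {a f g : ι → ℝ} (ha : ∀ i, 0 ≤ a i)
    (h : ∑ i, a i * f i < ∑ i, a i * g i) : ∃ i, 0 < a i ∧ f i < g i := by
  by_contra hc
  push Not at hc
  refine h.not_ge (sum_le_sum fun i _ => ?_)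
  rcases (ha i).eq_or_lt with e | e
  · simp [← e]
  · exact mul_le_mul_of_nonneg_left (hc i e) e.le

/-- The lighter of the two parts of `C` cut by `A`. -/
noncomputable def side (w : M → ℝ) (C A : Finset M) : Finset M :=
  if ∑ x ∈ C ∩ A, w x ≤ ∑ x ∈ C \ A, w x then C ∩ A else C \ A

/-- The weight of the ordered pairs of `C` separated by `A`. -/
noncomputable def cut (m : M → M → ℝ) (C A : Finset M) : ℝ :=
  ∑ x ∈ C, ∑ y ∈ C, m x y * |ind A x - ind A y|

/-- The weight of the ordered pairs of `C` with different labels. -/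
noncomputable def cost (m : M → M → ℝ) (C : Finset M) (p : M → M) : ℝ :=
  ∑ x ∈ C, ∑ y ∈ C, if p x = p y then 0 else m x y

/-- The length of the pairs that start at `x`. -/
noncomputable def wt (m : M → M → ℝ) (x : M) : ℝ := ∑ y, m x y * dist x y

section
variable {w : M → ℝ} {C A : Finset M} {ν : Finset M → ℝ} {D δ : ℝ}

omit [Fintype M] [MetricSpace M] in
theorem side_sub : side w C A ⊆ C := by
  unfold side
  split_ifs
  exacts [inter_subset_left, sdiff_subset]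

omit [Fintype M] [MetricSpace M] in
theorem side_half : 2 * ∑ x ∈ side w C A, w x ≤ ∑ x ∈ C, w x := by
  have := sum_inter_add_sum_sdiff C A w
  unfold side
  split_ifs <;> linarith

omit [Fintype M] [MetricSpace M] in
theorem side_ind {x y : M} (hx : x ∈ C) (hy : y ∈ C) :
    |ind (side w C A) x - ind (side w C A) y| = |ind A x - ind A y| := by
  unfold side
  split_ifs <;> by_cases h1 : x ∈ A <;> by_cases h2 : y ∈ A <;> simp [ind, hx, hy, h1, h2]

omit [Fintype M] [MetricSpace M] in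
theorem side_abs {μ : M → ℝ} (h : ∑ x ∈ C, μ x = 0) :
    |∑ x ∈ C ∩ A, μ x| = |∑ x ∈ side w C A, μ x| := by
  have := sum_inter_add_sum_sdiff C A μ
  unfold side
  split_ifs
  · rfl
  · rw [abs_eq_abs]
    right
    linarith

theorem side_sum (hν : Cuts ν D) (hD : 0 ≤ D) (hw : ∀ x, 0 ≤ w x) (hC : 0 < ∑ x ∈ C, w x)
    (hδ : ∀ x ∈ C, ∀ y ∈ C, dist x y ≤ δ) {u : M → ℝ} (hu : ∀ x, 0 ≤ u x) :
    ∑ A, ν A * ∑ x ∈ side w C A, u x ≤ 2 * D * δ * ∑ x ∈ C, u x := by
  have h1 : ∀ A, (∑ x ∈ side w C A, u x) * ∑ x ∈ C, w x ≤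
      2 * ∑ x ∈ C, ∑ y ∈ C, u x * w y * |ind A x - ind A y| := fun A => by
    have a1 := side_half (w := w) (C := C) (A := A)
    have a2 := sum_sdiff (f := w) (side_sub (w := w) (C := C) (A := A))
    have a3 : (∑ x ∈ side w C A, u x) * ∑ y ∈ C \ side w C A, w y ≤
        ∑ x ∈ C, ∑ y ∈ C, u x * w y * |ind A x - ind A y| := by
      rw [sum_mul_sum]
      refine le_trans (sum_le_sum fun x hx => ?_) (sum_le_sum_of_subset_of_nonneg
        (side_sub (w := w) (A := A)) fun x _ _ => sum_nonneg fun y _ =>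
          mul_nonneg (mul_nonneg (hu x) (hw y)) (abs_nonneg _))
      refine le_trans (sum_le_sum fun y hy => ?_) (sum_le_sum_of_subset_of_nonneg
        (sdiff_subset (t := side w C A)) fun y _ _ =>
          mul_nonneg (mul_nonneg (hu x) (hw y)) (abs_nonneg _))
      rw [← side_ind (w := w) (side_sub hx) (mem_sdiff.1 hy).1]
      simp [ind, hx, (mem_sdiff.1 hy).2]
    nlinarith [sum_nonneg fun x (_ : x ∈ side w C A) => hu x]
  refine le_of_mul_le_mul_right ?_ hC
  rw [sum_mul]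
  refine (sum_le_sum fun A _ => (mul_assoc _ _ _).le.trans
    (mul_le_mul_of_nonneg_left (h1 A) (hν.nonneg A))).trans ?_
  simp only [mul_left_comm (ν _) 2, ← mul_sum, mul_assoc (2 : ℝ)]
  refine mul_le_mul_of_nonneg_left ?_ zero_le_two
  simp only [mul_sum, sum_mul]
  rw [sum_comm]
  rw [sum_comm (s := C) (t := C)]
  refine sum_le_sum fun x hx => ?_
  rw [sum_comm]
  refine sum_le_sum fun y hy => ?_
  have := mul_le_mul_of_nonneg_left ((hν.upper x y).trans
    (mul_le_mul_of_nonneg_left (hδ x hx y hy) hD)) (mul_nonneg (hu x) (hw y))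
  rw [mul_sum] at this
  refine le_trans (le_of_eq (sum_congr rfl fun A _ => by ring)) (this.trans (le_of_eq (by ring)))

theorem side_test (hν : Cuts ν D) (hD : 0 ≤ D) (hw : ∀ x, 0 ≤ w x) (hC : 0 < ∑ x ∈ C, w x)
    (hδ : ∀ x ∈ C, ∀ y ∈ C, dist x y ≤ δ) {t : ℝ} (μ f : M → ℝ) (hf : ∀ x y, f x - f y ≤ dist x y)
    (hf' : ∀ x, |f x| ≤ t / 2) : ∑ x ∈ C, μ x * f x ≤
      ∑ A, ν A * |∑ x ∈ side w C A, μ x| + (t / 2 + 2 * D * δ) * |∑ x ∈ C, μ x| := by
  set c := (∑ x ∈ C, μ x) / ∑ x ∈ C, w x with hc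
  have c0 : |c| * ∑ x ∈ C, w x = |∑ x ∈ C, μ x| := by
    rw [hc, abs_div, abs_of_pos hC, div_mul_cancel₀ _ hC.ne']
  have h0 : ∑ x ∈ C, (μ x - c * w x) = 0 := by
    rw [sum_sub_distrib, ← mul_sum, hc, div_mul_cancel₀ _ hC.ne', sub_self]
  have h1 := hν.lower (fun x => if x ∈ C then μ x - c * w x else 0) (by simpa using h0) f hf
  simp only [ite_mul, zero_mul, sum_ite_mem, inter_comm _ C, inter_univ, side_abs (w := w) h0] at h1
  have h2 : ∑ A, ν A * |∑ x ∈ side w C A, (μ x - c * w x)| ≤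
      ∑ A, ν A * (|∑ x ∈ side w C A, μ x| + |c| * ∑ x ∈ side w C A, w x) :=
    sum_le_sum fun A _ => mul_le_mul_of_nonneg_left (by
      rw [sum_sub_distrib, ← mul_sum]
      refine (abs_sub _ _).trans (le_of_eq ?_)
      rw [abs_mul, abs_of_nonneg (sum_nonneg fun x _ => hw x)]) (hν.nonneg A)
  simp only [mul_add, sum_add_distrib, mul_left_comm _ |c|, ← mul_sum] at h2
  have h3 := mul_le_mul_of_nonneg_left (side_sum hν hD hw hC hδ hw) (abs_nonneg c)
  have h4 : ∑ x ∈ C, c * w x * f x ≤ ∑ x ∈ C, |c| * (t / 2) * w x := sum_le_sum fun x _ => by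
    refine (le_abs_self _).trans ?_
    rw [abs_mul, abs_mul, abs_of_nonneg (hw x), mul_right_comm _ (t / 2)]
    exact mul_le_mul_of_nonneg_left (hf' x) (mul_nonneg (abs_nonneg _) (hw x))
  have h5 := h1.trans h2
  simp only [sub_mul, sum_sub_distrib] at h5
  rw [← mul_sum] at h4
  rw [← c0]
  linarith

end

section
variable {m : M → M → ℝ} {C B : Finset M}

omit [DecidableEq M] in
theorem wt_nonneg (hm : ∀ x y, 0 ≤ m x y) (x : M) : 0 ≤ wt m x :=
  sum_nonneg fun y _ => mul_nonneg (hm x y) dist_nonneg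

omit [DecidableEq M] in
theorem le_wt (hm : ∀ x y, 0 ≤ m x y) (x : M) : ∑ y ∈ C, m x y * dist x y ≤ wt m x :=
  sum_le_sum_of_subset_of_nonneg (subset_univ _) fun y _ _ => mul_nonneg (hm x y) dist_nonneg

omit [Fintype M] [MetricSpace M] in
theorem cut_nonneg (hm : ∀ x y, 0 ≤ m x y) : 0 ≤ cut m C B :=
  sum_nonneg fun x _ => sum_nonneg fun y _ => mul_nonneg (hm x y) (abs_nonneg _)

theorem cut_sum (hm : ∀ x y, 0 ≤ m x y) {ν : Finset M → ℝ} {D : ℝ} (hν : Cuts ν D) (hD : 0 ≤ D) :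
    ∑ A, ν A * cut m C A ≤ D * ∑ x ∈ C, wt m x := by
  simp only [cut, mul_sum]
  rw [sum_comm]
  refine sum_le_sum fun x _ => ?_
  rw [sum_comm]
  refine le_trans (sum_le_sum fun y _ => ?_) ((mul_sum _ _ _).ge.trans
    (mul_le_mul_of_nonneg_left (le_wt (C := C) hm x) hD))
  simp only [mul_left_comm _ (m x y), ← mul_sum]
  exact mul_le_mul_of_nonneg_left (hν.upper x y) (hm x y)

theorem grow (hm : ∀ x y, 0 ≤ m x y) (hs : ∀ x y, m x y = m y x) {z : M} {R : ℝ} (hR : 0 < R)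
    {N : ℕ} (hC : 0 < ∑ x ∈ C, wt m x)
    (h : ∑ x ∈ C, wt m x ≤ 2 ^ N * ∑ x ∈ C with dist x z ≤ R / 4, wt m x) :
    ∃ B ⊆ C, B.Nonempty ∧ (∀ x ∈ B, ∀ y ∈ B, dist x y ≤ R) ∧
      cut m C B ≤ 20 * (N + 1) / R * ∑ x ∈ B, wt m x := by
  set φ : ℝ → ℝ := fun r => ∑ x ∈ C with dist x z ≤ r, wt m x with hφ
  have φ1 : ∀ r r', r ≤ r' → φ r ≤ φ r' := fun r r' h =>
    sum_le_sum_of_subset_of_nonneg (monotone_filter_right _ fun x _ hx => hx.trans h)
      fun x _ _ => wt_nonneg hm x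
  have φ2 : ∀ r, φ r ≤ ∑ x ∈ C, wt m x := fun r =>
    sum_le_sum_of_subset_of_nonneg (filter_subset _ _) fun x _ _ => wt_nonneg hm x
  have φ3 : 0 < φ (R / 4) := (mul_pos_iff_of_pos_left (by positivity)).1 (hC.trans_le h)
  set l := R / (4 * (N + 1)) with hl
  have l0 : 0 < l := by positivity
  have l1 : (N + 1) * l = R / 4 := by
    rw [hl]
    field_simp
  obtain ⟨i, hi, hi'⟩ : ∃ i : ℕ, i < N + 1 ∧ φ (R / 4 + (i + 1 : ℕ) * l) ≤ 2 * φ (R / 4 + i * l) := by
    by_contra hc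
    push Not at hc
    have : ∀ i : ℕ, i ≤ N + 1 → 2 ^ i * φ (R / 4) ≤ φ (R / 4 + i * l) := fun i hi => by
      induction i with
      | zero => simp
      | succ i ih =>
        rw [pow_succ]
        linarith [ih (by omega), hc i hi]
    have h1 := (this _ le_rfl).trans ((φ2 _).trans h)
    rw [pow_succ] at h1
    nlinarith [mul_pos (pow_pos two_pos N) φ3]
  set a := R / 4 + i * l with ha
  have a1 : R / 4 + (i + 1 : ℕ) * l = a + l := by
    push_cast
    ring
  have a2 : R / 4 ≤ a := by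
    have : 0 ≤ i * l := by positivity
    linarith
  have a3 : a + l ≤ R / 2 := by
    have : (i + 1 : ℝ) * l ≤ (N + 1) * l := by
      gcongr
      exact_mod_cast (by omega)
    linarith
  rw [a1] at hi'
  have a4 := φ3.trans_le (φ1 _ _ a2)
  have diam : ∀ B : Finset M, (∀ x ∈ B, dist x z ≤ a + l) → ∀ x ∈ B, ∀ y ∈ B, dist x y ≤ R :=
    fun B hB x hx y hy => by linarith [hB x hx, hB y hy, dist_triangle_right x y z]
  by_cases h0 : ∀ y ∈ C, dist y z ≤ a + l
  · refine ⟨C, Subset.rfl, nonempty_of_sum_ne_zero hC.ne', diam C h0, le_trans (le_of_eq ?_)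
      (mul_pos (by positivity) hC).le⟩
    exact sum_eq_zero fun x hx => sum_eq_zero fun y hy => by simp [ind, hx, hy]
  push Not at h0
  obtain ⟨y₀, hy₀, hy⟩ := h0
  let g : M → ℝ := fun x => max 0 (min l (a + l - dist x z))
  have g0 : ∀ x, a + l < dist x z → g x = 0 := fun x hx =>
    max_eq_left (min_le_of_right_le (by linarith))
  have g1 : ∀ x, dist x z ≤ a → g x = l := fun x hx => by
    simp only [g]
    rw [min_eq_left (by linarith), max_eq_right l0.le]
  have g2 : ∀ x y, |g x - g y| ≤ dist x y := fun x y =>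
    (abs_max_sub_max_le_max _ _ _ _).trans (max_le (by simp)
      ((abs_min_sub_min_le_max _ _ _ _).trans (max_le (by simp) (by
        rw [sub_sub_sub_cancel_left, dist_comm x y]
        exact abs_dist_sub_le _ _ _))))
  have g3 := g1 z (by simp only [dist_self]; linarith)
  have k1 := kap_sum g z y₀
  rw [g3, g0 _ hy, sub_zero, max_eq_left l0.le] at k1
  have k2 : ∑ A, kap g A * cut m C A ≤ 2 * φ (a + l) := by
    have e : ∑ A, kap g A * cut m C A = ∑ x ∈ C, ∑ y ∈ C, m x y * |g x - g y| := by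
      simp only [cut, mul_sum, ← kap_abs g]
      rw [sum_comm]
      refine sum_congr rfl fun x _ => ?_
      rw [sum_comm]
      exact sum_congr rfl fun y _ => sum_congr rfl fun A _ => by ring
    have e2 : ∑ x ∈ C, ∑ y ∈ C, (if dist x z ≤ a + l then m x y * dist x y else 0) ≤ φ (a + l) := by
      simp only [hφ, sum_filter]
      refine sum_le_sum fun x _ => ?_
      split_ifs
      · exact le_wt hm x
      · simp
    have e3 : ∑ x ∈ C, ∑ y ∈ C, m x y * |g x - g y| ≤ ∑ x ∈ C, ∑ y ∈ C,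
        ((if dist x z ≤ a + l then m x y * dist x y else 0) +
          if dist y z ≤ a + l then m y x * dist y x else 0) :=
      sum_le_sum fun x _ => sum_le_sum fun y _ => by
        have b1 := mul_le_mul_of_nonneg_left (g2 x y) (hm x y)
        have b2 := mul_nonneg (hm x y) (dist_nonneg (x := x) (y := y))
        rw [hs y x, dist_comm y x]
        split_ifs with h1 h2 h2
        · linarith
        · linarith
        · linarith
        · simp [g0 x (not_le.1 h1), g0 y (not_le.1 h2)]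
    simp only [sum_add_distrib] at e3
    rw [sum_comm (f := fun x y => if dist y z ≤ a + l then m y x * dist y x else 0)] at e3
    linarith
  have i0 : ∀ A : Finset M, 0 ≤ ind A z * (1 - ind A y₀) ∧ ind A z * (1 - ind A y₀) ≤ 1 := fun A => by
    by_cases h1 : z ∈ A <;> by_cases h2 : y₀ ∈ A <;> simp [ind, h1, h2]
  obtain ⟨A, A1, A2⟩ := exists_pos_lt (a := fun A => kap g A * (ind A z * (1 - ind A y₀)))
    (f := fun A => cut m C A) (g := fun _ => 5 * φ a / l)
    (fun A => mul_nonneg (kap_nonneg _ _) (i0 A).1) (by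
      rw [← sum_mul, k1, mul_div_cancel₀ _ l0.ne']
      refine lt_of_le_of_lt (le_trans (sum_le_sum fun A _ => ?_) k2) (by linarith)
      exact mul_le_mul_of_nonneg_right (mul_le_of_le_one_right (kap_nonneg _ _) (i0 A).2)
        (cut_nonneg hm))
  obtain ⟨τ, hτ⟩ : ((fun τ : ℝ => univ.filter fun x => τ < g x) ⁻¹' {A}).Nonempty := by
    by_contra hc
    rw [Set.not_nonempty_iff_eq_empty] at hc
    simp [kap, hc] at A1
  have A3 : ∀ x, x ∈ A ↔ τ < g x := fun x => by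
    rw [← (hτ : _ = A)]
    simp
  have A4 : z ∈ A ∧ y₀ ∉ A := by
    by_cases h1 : z ∈ A <;> by_cases h2 : y₀ ∈ A <;> simp [ind, h1, h2] at A1 ⊢
  rw [A3, A3, g3, g0 _ hy] at A4
  have A5 : φ a ≤ ∑ x ∈ C ∩ A, wt m x := sum_le_sum_of_subset_of_nonneg (fun x hx =>
    mem_inter.2 ⟨(mem_filter.1 hx).1, (A3 x).2 (by rw [g1 x (mem_filter.1 hx).2]; exact A4.1)⟩)
      fun x _ _ => wt_nonneg hm x
  refine ⟨C ∩ A, inter_subset_left, nonempty_of_sum_ne_zero (a4.trans_le A5).ne',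
    diam _ fun x hx => ?_, ?_⟩
  · by_contra hc
    exact A4.2 (g0 x (not_le.1 hc) ▸ (A3 x).1 (mem_inter.1 hx).2)
  · have e : cut m C (C ∩ A) = cut m C A :=
      sum_congr rfl fun x hx => sum_congr rfl fun y hy => by simp [ind, hx, hy]
    refine e.le.trans (A2.le.trans ((div_le_div_of_nonneg_right
      (mul_le_mul_of_nonneg_left A5 (by norm_num)) l0.le).trans (le_of_eq ?_)))
    rw [hl]
    field_simp
    ring

omit [Fintype M] in
theorem combine (hm : ∀ x y, 0 ≤ m x y) (hB : B ⊆ C) {R : ℝ} {p q : M → M}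
    (p1 : ∀ x ∈ B, p x ∈ B) (p2 : ∀ x ∈ B, ∀ y ∈ B, p x = p y → dist x y ≤ R)
    (q1 : ∀ x ∈ C \ B, q x ∈ C \ B) (q2 : ∀ x ∈ C \ B, ∀ y ∈ C \ B, q x = q y → dist x y ≤ R) :
    ∃ s : M → M, (∀ x ∈ C, s x ∈ C) ∧ (∀ x ∈ C, ∀ y ∈ C, s x = s y → dist x y ≤ R) ∧
      cost m C s ≤ cut m C B + cost m B p + cost m (C \ B) q := by
  refine ⟨fun x => if x ∈ B then p x else q x, fun x hx => ?_, fun x hx y hy h => ?_, ?_⟩
  · beta_reduce
    split_ifs with h
    exacts [hB (p1 x h), sdiff_subset (q1 x (mem_sdiff.2 ⟨hx, h⟩))]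
  · by_cases h1 : x ∈ B <;> by_cases h2 : y ∈ B <;> simp only [h1, h2, if_true, if_false] at h
    · exact p2 x h1 y h2 h
    · exact ((mem_sdiff.1 (q1 y (mem_sdiff.2 ⟨hy, h2⟩))).2 (h ▸ p1 x h1)).elim
    · exact ((mem_sdiff.1 (q1 x (mem_sdiff.2 ⟨hx, h1⟩))).2 (h ▸ p1 y h2)).elim
    · exact q2 x (mem_sdiff.2 ⟨hx, h1⟩) y (mem_sdiff.2 ⟨hy, h2⟩) h
  · have e : ∀ (S : Finset M) (s : M → M), S ⊆ C → cost m S s = ∑ x ∈ C, ∑ y ∈ C,
        if x ∈ S then if y ∈ S then if s x = s y then 0 else m x y else 0 else 0 := fun S s h => by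
      simp only [cost, sum_ite_irrel, sum_const_zero, sum_ite_mem, inter_eq_right.2 h]
    rw [e B p hB, e _ q sdiff_subset, cost, cut, ← sum_add_distrib, ← sum_add_distrib]
    refine sum_le_sum fun x hx => ?_
    rw [← sum_add_distrib, ← sum_add_distrib]
    refine sum_le_sum fun y hy => ?_
    have := hm x y
    by_cases h1 : x ∈ B <;> by_cases h2 : y ∈ B <;> simp [ind, hx, hy, h1, h2] <;>
      split_ifs <;> simp [this]

end

/-- The cost of level `j` for the point `x`. -/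
noncomputable def term (T : ℕ) (t K : ℝ) (g : ℕ → ℝ) (σ : ℕ → M → ℝ) (x : M) (j : ℕ) : ℝ :=
  (T - j : ℝ) + max (-Real.log (bm (σ j) x (j * (2 * t))) - g j) 0 / K

/-- The potential of the point `x`. -/
noncomputable def psi (T : ℕ) (t K : ℝ) (g : ℕ → ℝ) (σ : ℕ → M → ℝ) (x : M) : ℝ :=
  (range (T + 1)).inf' nonempty_range_add_one (term T t K g σ x)

/-- Admissible sequences of reference measures. -/
structure Valid (g : ℕ → ℝ) (σ : ℕ → M → ℝ) : Prop where
  pos : ∀ j z, 0 < σ j z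
  sum : ∀ j, ∑ z, σ j z ≤ 1
  zero : ∀ x, -Real.log (bm (σ 0) x 0) ≤ g 0

section
variable {T : ℕ} {t K : ℝ} {g : ℕ → ℝ} {σ : ℕ → M → ℝ}

omit [DecidableEq M] in
theorem psi_le_term (x : M) {j : ℕ} (hj : j ≤ T) : psi T t K g σ x ≤ term T t K g σ x j :=
  inf'_le _ (mem_range.2 (by omega))

omit [DecidableEq M] in
theorem psi_eq (x : M) : ∃ j ≤ T, psi T t K g σ x = term T t K g σ x j := by
  obtain ⟨j, h1, h2⟩ := exists_mem_eq_inf' (nonempty_range_add_one (n := T)) (term T t K g σ x)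
  exact ⟨j, by simpa [Nat.lt_succ_iff] using h1, h2⟩

omit [DecidableEq M] in
theorem le_term (hK : 0 < K) (x : M) (j : ℕ) : (T - j : ℝ) ≤ term T t K g σ x j :=
  le_add_of_nonneg_right (div_nonneg (le_max_right _ _) hK.le)

omit [DecidableEq M] in
theorem psi_nonneg (hK : 0 < K) (x : M) : 0 ≤ psi T t K g σ x := by
  obtain ⟨j, h1, h2⟩ := psi_eq (T := T) (t := t) (K := K) (g := g) (σ := σ) x
  exact h2 ▸ (sub_nonneg.2 (by exact_mod_cast h1)).trans (le_term hK x j)

omit [DecidableEq M] in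
theorem psi_le (hσ : Valid g σ) (x : M) : psi T t K g σ x ≤ T := by
  refine (psi_le_term x (Nat.zero_le _)).trans (le_of_eq ?_)
  simp [term, max_eq_right (sub_nonpos.2 (hσ.zero x))]

omit [DecidableEq M] in
theorem log_le_of_psi (hK : 0 < K) (hσ : Valid g σ) {x : M} {j : ℕ} (hj : j ≤ T)
    (h : psi T t K g σ x = term T t K g σ x j) :
    -Real.log (bm (σ j) x (j * (2 * t))) ≤ g j + K * T := by
  have h1 := psi_le (T := T) (t := t) (K := K) hσ x
  rw [h, term, ← le_sub_iff_add_le', div_le_iff₀ hK] at h1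
  have h2 : (j : ℝ) ≤ T := by exact_mod_cast hj
  nlinarith [le_max_left (-Real.log (bm (σ j) x (j * (2 * t))) - g j) 0]

variable {ι : Type} [Fintype ι] {C : Finset M} {a : ι → ℝ} {Pc : ι → Finset M} {Γ θ : ℝ}

theorem gain (ha : ∀ i, 0 ≤ a i) (hPc : ∀ i, Pc i ⊆ C) (ht : 0 < t)
    (hΓ : ∀ u : M → ℝ, (∀ x, 0 ≤ u x) → ∑ i, a i * ∑ x ∈ Pc i, u x ≤ Γ * ∑ x ∈ C, u x)
    (hT : ∀ μ f : M → ℝ, (∀ x y, f x - f y ≤ dist x y) → (∀ x, |f x| ≤ t / 2) →
      ∑ x ∈ C, μ x * f x ≤ ∑ i, a i * |∑ x ∈ Pc i, μ x|)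
    (hσ : Valid g σ) (hK : 0 < K) (hθ : 0 < θ) (hθ' : 4 * Γ ≤ θ * t) (hK' : 32 * Γ ≤ K * t)
    (hg : ∀ j, Real.exp (-g (j + 1)) ≤ Real.exp (-(g j + K * T) / 2) / θ ^ 2 / 2)
    {w : M → ℝ} (hw : ∀ x, 0 ≤ w x) {J : M → ℕ} (hJ : ∀ x, J x ≤ T)
    (hJ' : ∀ x, psi T t K g σ x = term T t K g σ x (J x))
    (hh : ∑ x ∈ C, w x ≤ 2 * ∑ x ∈ C with J x < T, w x) :
    ∃ σ' : ι → ℕ → M → ℝ, (∀ i, Valid g (σ' i)) ∧ t / 32 * ∑ x ∈ C, w x ≤
      ∑ i, a i * ∑ x ∈ Pc i, w x * (psi T t K g σ x - psi T t K g (σ' i) x) := by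
  let u : ℕ → M → ℝ := fun j x => if J x = j then w x else 0
  have u0 : ∀ j x, 0 ≤ u j x := fun j x => by
    simp only [u]
    split_ifs <;> simp [hw x]
  choose Z z1 z2 using fun j : ℕ => level ha hPc ht hΓ hT (hσ.pos j) (hσ.sum j)
    (ρ := j * (2 * t)) (G := g j + K * T) (by positivity) hθ hθ' (u0 j) (fun x hx => by
      have e : J x = j := by
        by_contra h
        simp [u, h] at hx
      exact e ▸ log_le_of_psi hK hσ (hJ x) (hJ' x))
  set η : ℕ → ℝ := fun j => Real.exp (-(g j + K * T) / 2) / θ ^ 2 with hη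
  have η0 : ∀ j, 0 < η j := fun j => by positivity
  let σ' : ι → ℕ → M → ℝ := fun i j z => Nat.casesOn j (σ 0 z) fun j =>
    σ (j + 1) z / 2 + if z ∈ Z j i then η j / 2 else 0
  have s1 : ∀ i j z, σ j z / 2 ≤ σ' i j z := fun i j z => by
    rcases j with _ | j
    · exact half_le_self (hσ.pos 0 z).le
    · refine le_add_of_nonneg_right ?_
      split_ifs <;> simp [(half_pos (η0 j)).le]
  have s2 : ∀ i j z, 0 < σ' i j z := fun i j z => (half_pos (hσ.pos j z)).trans_le (s1 i j z)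
  have s3 : ∀ i x, psi T t K g (σ' i) x ≤ psi T t K g σ x + 1 / K := fun i x => by
    refine (psi_le_term x (hJ x)).trans ?_
    rw [hJ' x, term, term, add_assoc, ← add_div]
    refine add_le_add le_rfl (div_le_div_of_nonneg_right ?_ hK.le)
    have b0 := bm_pos (hσ.pos (J x)) x (r := J x * (2 * t)) (by positivity)
    have b1 : bm (σ (J x)) x (J x * (2 * t)) / 2 ≤ bm (σ' i (J x)) x (J x * (2 * t)) := by
      refine le_trans (le_of_eq ?_) (bm_mono (fun z => (s2 i _ z).le) (s1 i (J x)) x le_rfl)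
      simp only [bm, sum_div, ite_div, zero_div]
    have b2 := Real.log_le_log (half_pos b0) b1
    rw [Real.log_div b0.ne' two_ne_zero] at b2
    have b3 := Real.log_two_lt_d9
    refine max_le ?_ (by positivity)
    linarith [le_max_left (-Real.log (bm (σ (J x)) x (J x * (2 * t))) - g (J x)) 0]
  have s4 : ∀ i x, J x < T → x ∈ cov (Z (J x) i) (J x * (2 * t) + 2 * t) (Pc i) →
      psi T t K g (σ' i) x ≤ psi T t K g σ x - 1 := fun i x h1 h2 => by
    refine (psi_le_term x (j := J x + 1) h1).trans ?_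
    simp only [cov, mem_filter] at h2
    obtain ⟨-, z, hz, hd⟩ := h2
    have b1 : η (J x) / 2 ≤ bm (σ' i (J x + 1)) x ((J x + 1 : ℕ) * (2 * t)) := by
      refine le_trans ?_ (single_le_sum (f := fun z => if dist x z ≤ (J x + 1 : ℕ) * (2 * t)
        then σ' i (J x + 1) z else 0) (fun z _ => by split_ifs <;> simp [(s2 i _ z).le])
        (mem_univ z))
      rw [if_pos (by push_cast; linarith)]
      simp only [σ', hz, if_true]
      linarith [hσ.pos (J x + 1) z]
    have b2 := Real.log_le_log (Real.exp_pos _) ((hg (J x)).trans b1)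
    rw [Real.log_exp] at b2
    have b3 := le_term (T := T) (t := t) (g := g) (σ := σ) hK x (J x)
    rw [term, max_eq_right (by linarith), hJ' x]
    push_cast
    linarith [zero_div K]
  refine ⟨σ', fun i => ⟨s2 i, fun j => ?_, hσ.zero⟩, ?_⟩
  · rcases j with _ | j
    · exact hσ.sum 0
    · simp only [σ', sum_add_distrib, ← sum_div, sum_ite_mem, univ_inter, sum_const, nsmul_eq_mul]
      linarith [hσ.sum (j + 1), z1 j i]
  have k1 : ∀ i, ∑ j ∈ range T, ∑ x ∈ cov (Z j i) (j * (2 * t) + 2 * t) (Pc i), u j x -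
      (∑ x ∈ Pc i, w x) / K ≤ ∑ x ∈ Pc i, w x * (psi T t K g σ x - psi T t K g (σ' i) x) := by
    intro i
    have e : ∀ j : ℕ, ∑ x ∈ cov (Z j i) (j * (2 * t) + 2 * t) (Pc i), u j x = ∑ x ∈ Pc i,
        if x ∈ cov (Z j i) (j * (2 * t) + 2 * t) (Pc i) then u j x else 0 := fun j => by
      rw [sum_ite_mem, inter_eq_right.2 (show cov _ _ _ ⊆ Pc i from filter_subset _ _)]
    simp only [e]
    rw [sum_comm, sum_div, ← sum_sub_distrib]
    refine sum_le_sum fun x _ => ?_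
    have b1 := mul_le_mul_of_nonneg_left (s3 i x) (hw x)
    have b2 := div_nonneg (hw x) hK.le
    rw [mul_add, mul_one_div] at b1
    by_cases h1 : J x < T ∧ x ∈ cov (Z (J x) i) (J x * (2 * t) + 2 * t) (Pc i)
    · have b3 := mul_le_mul_of_nonneg_left (s4 i x h1.1 h1.2) (hw x)
      rw [sum_eq_single (J x) (fun j _ hj => by simp [u, hj.symm])
        (fun h => (h (mem_range.2 h1.1)).elim)]
      simp only [h1.2, if_true, u]
      linarith
    · rw [sum_eq_zero fun j hj => by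
        by_cases e : J x = j
        · subst e
          exact if_neg fun h => h1 ⟨mem_range.1 hj, h⟩
        · simp [u, e]]
      linarith
  have k2 := sum_le_sum fun i (_ : i ∈ univ) => mul_le_mul_of_nonneg_left (k1 i) (ha i)
  refine le_trans ?_ k2
  simp only [mul_sub, sum_sub_distrib, ← mul_div_assoc, ← sum_div, mul_sum (range T)]
  rw [sum_comm]
  have k3 := sum_le_sum fun j (_ : j ∈ range T) => z2 j
  have k4 : ∑ j ∈ range T, ∑ x ∈ C, u j x = ∑ x ∈ C with J x < T, w x := by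
    rw [sum_comm, sum_filter]
    exact sum_congr rfl fun x _ => by simp [u]
  rw [← mul_sum, k4] at k3
  have k5 : (∑ i, a i * ∑ x ∈ Pc i, w x) / K ≤ t / 32 * ∑ x ∈ C, w x := by
    rw [div_le_iff₀ hK]
    nlinarith [hΓ w hw, sum_nonneg fun x (_ : x ∈ C) => hw x]
  nlinarith

theorem scale {m : M → M → ℝ} (hm : ∀ x y, 0 ≤ m x y) (hs : ∀ x y, m x y = m y x)
    {ν : Finset M → ℝ} {D R : ℝ} (hν : Cuts ν D) (hD : 0 < D) (hR : 0 < R) (ht : 0 < t)
    (hTt : T * (2 * t) ≤ R / 4) (hK : 0 < K) (hθ : 0 < θ) (hΓ : Γ = t / 2 + 8 * D * R)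
    (hθ' : 4 * Γ ≤ θ * t) (hK' : 32 * Γ ≤ K * t)
    (hg : ∀ j, Real.exp (-g (j + 1)) ≤ Real.exp (-(g j + K * T) / 2) / θ ^ 2 / 2)
    {N : ℕ} (hN : 2 * Real.exp (g T + K * T) ≤ 2 ^ N) (C : Finset M)
    (hC : ∀ x ∈ C, ∀ y ∈ C, dist x y ≤ 2 * R) (σ : ℕ → M → ℝ) (hσ : Valid g σ) :
    ∃ p : M → M, (∀ x ∈ C, p x ∈ C) ∧ (∀ x ∈ C, ∀ y ∈ C, p x = p y → dist x y ≤ R) ∧
      cost m C p ≤ 20 * (N + 1) / R * ∑ x ∈ C, wt m x +
        128 * D / t * ∑ x ∈ C, wt m x * psi T t K g σ x := by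
  induction C using Finset.strongInduction generalizing σ with
  | H C ih =>
  have hw := wt_nonneg hm
  let Ψ : Finset M → (ℕ → M → ℝ) → ℝ := fun B σ => ∑ x ∈ B, wt m x * psi T t K g σ x
  have Ψ0 : ∀ B σ, 0 ≤ Ψ B σ := fun B σ =>
    sum_nonneg fun x _ => mul_nonneg (hw x) (psi_nonneg hK x)
  have β0 : 0 < 128 * D / t := by positivity
  have α0 : 0 < 20 * (N + 1) / R := by positivity
  rcases (sum_nonneg fun x (_ : x ∈ C) => hw x).eq_or_lt with h0 | h0
  · refine ⟨id, fun x hx => hx, fun x _ y _ h => by simp [show x = y from h, hR.le],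
      le_trans (le_of_eq ?_) (add_nonneg (by simp [← h0]) (mul_nonneg β0.le (Ψ0 C σ)))⟩
    refine sum_eq_zero fun x hx => sum_eq_zero fun y _ => ?_
    have a1 := (sum_eq_zero_iff_of_nonneg fun x _ => hw x).1 h0.symm x hx
    have a2 := (sum_eq_zero_iff_of_nonneg fun y _ =>
      mul_nonneg (hm x y) dist_nonneg).1 a1 y (mem_univ y)
    split_ifs with h
    · rfl
    · exact (mul_eq_zero.1 a2).resolve_right (dist_ne_zero.2 h)
  have Γ0 : 0 < Γ := by
    rw [hΓ]
    positivity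
  obtain ⟨σ₁, hσ₁, m1, m2⟩ : ∃ σ₁, Valid g σ₁ ∧ Ψ C σ₁ ≤ Ψ C σ ∧ ∀ σ', Valid g σ' →
      Ψ C σ₁ ≤ Ψ C σ' + t / 64 * (∑ x ∈ C, wt m x) / Γ := by
    obtain ⟨_, ⟨σ₁, a1, rfl⟩, a2⟩ := Real.lt_sInf_add_pos (s := Ψ C '' {σ | Valid g σ})
      ⟨_, σ, hσ, rfl⟩ (ε := t / 64 * (∑ x ∈ C, wt m x) / Γ) (by positivity)
    have a3 : ∀ σ', Valid g σ' → sInf (Ψ C '' {σ | Valid g σ}) ≤ Ψ C σ' := fun σ' h =>
      csInf_le ⟨0, by rintro _ ⟨σ, -, rfl⟩; exact Ψ0 C σ⟩ ⟨σ', h, rfl⟩
    rcases le_total (Ψ C σ₁) (Ψ C σ) with h | h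
    · exact ⟨σ₁, a1, h, fun σ' h' => by linarith [a3 σ' h']⟩
    · exact ⟨σ, hσ, le_rfl, fun σ' h' => by linarith [a3 σ' h']⟩
  have rest : ∀ B ⊆ C, B.Nonempty → ∀ p : M → M, (∀ x ∈ B, p x ∈ B) →
      (∀ x ∈ B, ∀ y ∈ B, p x = p y → dist x y ≤ R) → cut m C B + cost m B p ≤
        20 * (N + 1) / R * ∑ x ∈ B, wt m x + 128 * D / t * Ψ B σ₁ →
      ∃ p : M → M, (∀ x ∈ C, p x ∈ C) ∧ (∀ x ∈ C, ∀ y ∈ C, p x = p y → dist x y ≤ R) ∧
        cost m C p ≤ 20 * (N + 1) / R * ∑ x ∈ C, wt m x + 128 * D / t * Ψ C σ := by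
    intro B hB hB' p p1 p2 p3
    obtain ⟨q, q1, q2, q3⟩ := ih (C \ B) (sdiff_ssubset hB hB')
      (fun x hx y hy => hC x (sdiff_subset hx) y (sdiff_subset hy)) σ₁ hσ₁
    obtain ⟨s, s1, s2, s3⟩ := combine hm hB p1 p2 q1 q2
    refine ⟨s, s1, s2, s3.trans ?_⟩
    have e1 := sum_sdiff (f := wt m) hB
    have e2 : Ψ (C \ B) σ₁ + Ψ B σ₁ = Ψ C σ₁ := sum_sdiff hB
    have e3 := mul_le_mul_of_nonneg_left (e2.le.trans m1) β0.le
    rw [← e1]
    linarith
  choose J hJ hJ' using psi_eq (T := T) (t := t) (K := K) (g := g) (σ := σ₁)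
  by_cases hh : ∑ x ∈ C, wt m x ≤ 2 * ∑ x ∈ C with J x < T, wt m x
  · have a0 : 0 ≤ t / 2 + 2 * D * (2 * R) := by positivity
    obtain ⟨σ', v1, v2⟩ := gain (ι := Option (Finset M)) (C := C) (Γ := Γ)
      (a := fun i => i.elim (t / 2 + 2 * D * (2 * R)) ν)
      (Pc := fun i => i.elim C (side (wt m) C))
      (by rintro (_ | A); exacts [a0, hν.nonneg A])
      (by rintro (_ | A); exacts [Subset.rfl, side_sub]) ht
      (fun u hu => by
        have := side_sum hν hD.le hw h0 hC hu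
        simp only [Fintype.sum_option, Option.elim, hΓ]
        linarith)
      (fun μ f f1 f2 => by
        have := side_test hν hD.le hw h0 hC μ f f1 f2
        simp only [Fintype.sum_option, Option.elim]
        linarith) hσ₁ hK hθ hθ' hK' hg hw hJ hJ' hh
    simp only [Fintype.sum_option, Option.elim, mul_sub (wt m _), sum_sub_distrib] at v2
    have b1 : (t / 2 + 2 * D * (2 * R)) * (Ψ C σ₁ - Ψ C (σ' none)) ≤
        t / 64 * ∑ x ∈ C, wt m x := by
      refine (mul_le_mul_of_nonneg_left (sub_le_iff_le_add'.2 (m2 _ (v1 none))) a0).trans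
        ((mul_le_mul_of_nonneg_right (c := Γ) ?_ (by positivity)).trans
          (mul_div_cancel₀ _ Γ0.ne').le)
      rw [hΓ]
      nlinarith [mul_pos hD hR]
    obtain ⟨A, -, A2⟩ := exists_pos_lt (a := ν) (f := cut m C) (g := fun A => 128 * D / t *
        (Ψ (side (wt m) C A) σ₁ - Ψ (side (wt m) C A) (σ' (some A)))) hν.nonneg (by
      refine (cut_sum hm hν hD.le).trans_lt ?_
      simp only [mul_left_comm _ (128 * D / t), ← mul_sum]
      have b2 : t / 64 * ∑ x ∈ C, wt m x ≤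
          ∑ A, ν A * (Ψ (side (wt m) C A) σ₁ - Ψ (side (wt m) C A) (σ' (some A))) := by
        linarith
      refine lt_of_lt_of_le ?_ (mul_le_mul_of_nonneg_left b2 β0.le)
      rw [← mul_assoc, show 128 * D / t * (t / 64) = 2 * D by field_simp; norm_num]
      nlinarith)
    have c1 : cut m C (side (wt m) C A) = cut m C A :=
      sum_congr rfl fun x hx => sum_congr rfl fun y hy => by rw [side_ind hx hy]
    have c2 := side_half (w := wt m) (C := C) (A := A)
    obtain ⟨p, p1, p2, p3⟩ := ih (side (wt m) C A) (ssubset_of_ne_of_subset (fun h => by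
      rw [h] at c2; linarith) side_sub)
      (fun x hx y hy => hC x (side_sub hx) y (side_sub hy)) _ (v1 (some A))
    refine rest _ side_sub (nonempty_iff_ne_empty.2 fun h => ?_) p p1 p2 (by linarith)
    simp only [h, Ψ, sum_empty, sub_self, mul_zero] at A2
    exact A2.not_ge (cut_nonneg hm)
  · have b1 := sum_filter_add_sum_filter_not C (fun x => J x < T) (wt m)
    have b2 : ∑ x ∈ C with ¬ J x < T, wt m x ≤ Real.exp (g T + K * T) *
        ∑ z, σ₁ T z * ∑ x ∈ C with dist x z ≤ R / 4, wt m x := by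
      simp only [sum_filter, mul_sum]
      rw [sum_comm]
      refine sum_le_sum fun x _ => ?_
      have e : ∑ z, Real.exp (g T + K * T) * (σ₁ T z * if dist x z ≤ R / 4 then wt m x else 0) =
          wt m x * (Real.exp (g T + K * T) * bm (σ₁ T) x (R / 4)) := by
        simp only [bm, mul_sum]
        exact sum_congr rfl fun z _ => by split_ifs <;> ring
      have c0 := bm_pos (hσ₁.pos T) x (r := T * (2 * t)) (by positivity)
      have c1 := bm_mono (fun z => (hσ₁.pos T z).le) (fun _ => le_rfl) x hTt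
      rw [e]
      split_ifs with h
      · exact mul_nonneg (hw x) (mul_pos (Real.exp_pos _) (c0.trans_le c1)).le
      · refine le_mul_of_one_le_right (hw x) ?_
        have c2 := log_le_of_psi hK hσ₁ (hJ x) (hJ' x)
        rw [le_antisymm (hJ x) (not_lt.1 h), neg_le, Real.le_log_iff_exp_le c0, Real.exp_neg,
          inv_le_iff_one_le_mul₀' (Real.exp_pos _)] at c2
        exact c2.trans (mul_le_mul_of_nonneg_left c1 (Real.exp_pos _).le)
    obtain ⟨z, -, hz⟩ := exists_pos_lt (a := σ₁ T) (f := fun _ => ∑ x ∈ C, wt m x)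
      (g := fun z => 2 ^ N * ∑ x ∈ C with dist x z ≤ R / 4, wt m x) (fun z => (hσ₁.pos T z).le) (by
        simp only [mul_left_comm _ ((2 : ℝ) ^ N), ← mul_sum, ← sum_mul]
        have c1 : 0 ≤ ∑ z, σ₁ T z * ∑ x ∈ C with dist x z ≤ R / 4, wt m x :=
          sum_nonneg fun z _ => mul_nonneg (hσ₁.pos T z).le (sum_nonneg fun x _ => hw x)
        have c2 := mul_le_mul_of_nonneg_right hN c1
        have c3 := mul_le_mul_of_nonneg_right (hσ₁.sum T) h0.le
        linarith)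
    obtain ⟨B, B1, ⟨x₀, B2⟩, B3, B4⟩ := grow hm hs hR h0 hz.le
    refine rest B B1 ⟨x₀, B2⟩ (fun _ => x₀) (fun _ _ => B2) (fun x hx y hy _ => B3 x hx y hy) ?_
    have := mul_nonneg β0.le (Ψ0 B σ₁)
    simp only [cost, if_true, sum_const_zero]
    linarith

end

end Pool.Agent.Lib.MP_b76e55_an
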