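import Pool.Agent.Lib.MP_b76e55_an.Cut

/-!
Geodesics, nets, volumes of balls and averages over automorphisms in finite vertex-transitive graphs.
-/

namespace Pool.Agent.Lib.MP_b76e55_an.Vt

open Finset

variable {M : Type} {G : SimpleGraph M}

theorem iso_dist (hG : G.Connected) (φ : G ≃g G) (x y : M) :
    G.dist (φ x) (φ y) = G.dist x y := by
  have h : ∀ (ψ : G ≃g G) (x y : M), G.dist (ψ x) (ψ y) ≤ G.dist x y := fun ψ x y => by
    obtain ⟨p, hp⟩ := hG.exists_walk_length_eq_dist x y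
    simpa [hp] using G.dist_le (p.map ψ.toHom)
  refine le_antisymm (h φ x y) ?_
  simpa using h φ.symm (φ x) (φ y)

theorem adj_dist {x y : M} (h : G.Adj x y) : G.dist x y = 1 := G.dist_eq_one_iff_adj.2 h

/-- `γ` is a geodesic on `[0, n]`. -/
def Geo (G : SimpleGraph M) (γ : ℕ → M) (n : ℕ) : Prop :=
  ∀ a b, a ≤ b → b ≤ n → G.dist (γ a) (γ b) = b - a

theorem geod (hG : G.Connected) (x y : M) :
    ∃ γ : ℕ → M, γ 0 = x ∧ γ (G.dist x y) = y ∧ Geo G γ (G.dist x y) := by
  obtain ⟨p, hp⟩ := hG.exists_walk_length_eq_dist x y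
  have h1 : ∀ a c, a + c ≤ p.length → G.dist (p.getVert a) (p.getVert (a + c)) ≤ c := by
    intro a c
    induction c with
    | zero => simp
    | succ c ih =>
      intro h
      have h2 := adj_dist (p.adj_getVert_succ (i := a + c) (by omega))
      have h3 := hG.dist_triangle (u := p.getVert a) (v := p.getVert (a + c))
        (w := p.getVert (a + c + 1))
      have := ih (by omega)
      rw [← add_assoc]
      omega
  refine ⟨p.getVert, p.getVert_zero, hp ▸ p.getVert_length, fun a b hab hb => ?_⟩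
  have h2 := h1 a (b - a) (by omega)
  have h3 := h1 0 a (by omega)
  have h4 := h1 b (p.length - b) (by omega)
  rw [show a + (b - a) = b by omega] at h2
  rw [show b + (p.length - b) = p.length by omega, p.getVert_length] at h4
  rw [zero_add, p.getVert_zero] at h3
  have h5 := hG.dist_triangle (u := x) (v := p.getVert a) (w := y)
  have h6 := hG.dist_triangle (u := p.getVert a) (v := p.getVert b) (w := y)
  omega

theorem Geo.adj {γ : ℕ → M} {n : ℕ} (h : Geo G γ n) {a : ℕ} (ha : a < n) :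
    G.Adj (γ a) (γ (a + 1)) :=
  G.dist_eq_one_iff_adj.1 (by rw [h a (a + 1) (by omega) ha]; omega)

theorem Geo.dist {γ : ℕ → M} {n : ℕ} (h : Geo G γ n) {a b : ℕ} (ha : a ≤ n) (hb : b ≤ n) :
    G.dist (γ a) (γ b) = (b - a) + (a - b) := by
  rcases le_total a b with e | e
  · rw [h a b e hb]; omega
  · rw [G.dist_comm, h b a e ha]; omega

theorem lip_of_adj (hG : G.Connected) {f : M → M → ℝ} {c : ℝ}
    (h1 : ∀ x y z, f x z ≤ f x y + f y z) (h2 : ∀ x, f x x ≤ 0)
    (h3 : ∀ x y, G.Adj x y → f x y ≤ c) (x y : M) : f x y ≤ G.dist x y * c := by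
  obtain ⟨γ, g0, g1, g2⟩ := geod hG x y
  have : ∀ a ≤ G.dist x y, f x (γ a) ≤ a * c := by
    intro a
    induction a with
    | zero => simpa [g0] using h2 x
    | succ a ih =>
      intro ha
      have := h3 _ _ (g2.adj ha)
      have := ih (by omega)
      have := h1 x (γ a) (γ (a + 1))
      push_cast
      linarith
  simpa [g1] using this _ le_rfl

theorem ivt (hG : G.Connected) {f : M → ℕ} (hf : ∀ x y, G.Adj x y → f y ≤ f x + 1) {p x : M}
    {t : ℕ} (h1 : f p ≤ t) (h2 : t ≤ f x) : ∃ q, f q = t ∧ G.dist p q ≤ G.dist p x := by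
  obtain ⟨γ, g0, g1, g2⟩ := geod hG p x
  have : ∀ a ≤ G.dist p x, f (γ a) ≤ t ∨ ∃ q, f q = t ∧ G.dist p q ≤ G.dist p x := by
    intro a
    induction a with
    | zero => intro _; left; rwa [g0]
    | succ a ih =>
      intro ha
      rcases ih (by omega) with h | h
      · rcases h.eq_or_lt with e | e
        · right
          refine ⟨γ a, e, ?_⟩
          have := g2 0 a (by omega) (by omega)
          rw [g0] at this
          omega
        · left
          have := hf _ _ (g2.adj ha)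
          omega
      · exact Or.inr h
  rcases this _ le_rfl with h | h
  · exact ⟨x, by rw [g1] at h; omega, le_rfl⟩
  · exact h

/-- Two vertices are at distance at least `n`. -/
def Far (G : SimpleGraph M) (n : ℕ) : Prop := ∃ x y, n ≤ G.dist x y

theorem Far.mono {n m : ℕ} (h : Far G n) (hm : m ≤ n) : Far G m := by
  obtain ⟨x, y, h⟩ := h
  exact ⟨x, y, hm.trans h⟩

theorem geod_at (hG : G.Connected) (hT : ∀ x y, ∃ φ : G ≃g G, φ x = y) {n : ℕ} (h : Far G n)
    (v : M) {a : ℕ} : ∃ γ : ℕ → M, γ a = v ∧ Geo G γ n := by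
  obtain ⟨x, y, h⟩ := h
  obtain ⟨γ, -, -, g⟩ := geod hG x y
  obtain ⟨φ, hφ⟩ := hT (γ a) v
  exact ⟨fun i => φ (γ i), hφ, fun a b h1 h2 => by
    rw [iso_dist hG, g a b h1 (h2.trans h)]⟩

variable [Fintype M] [DecidableEq M]

theorem net (G : SimpleGraph M) {s : ℕ} (hs : 1 ≤ s) : ∃ Z : Finset M,
    (∀ z ∈ Z, ∀ w ∈ Z, z ≠ w → s ≤ G.dist z w) ∧ ∀ x, ∃ z ∈ Z, G.dist z x < s := by
  classical
  obtain ⟨Z, h1, h2⟩ := exists_max_image
    (univ.filter fun Z : Finset M => ∀ z ∈ Z, ∀ w ∈ Z, z ≠ w → s ≤ G.dist z w) card ⟨∅, by simp⟩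
  simp only [mem_filter, mem_univ, true_and] at h1 h2
  refine ⟨Z, h1, fun x => ?_⟩
  by_contra! hc
  have hx : x ∉ Z := fun hx => by
    have := hc x hx
    simp at this
    omega
  have := h2 (insert x Z) (by
    intro z hz w hw hzw
    rcases mem_insert.1 hz with e | hz <;> rcases mem_insert.1 hw with e' | hw
    · exact absurd (e.trans e'.symm) hzw
    · rw [e, G.dist_comm]; exact hc w hw
    · rw [e']; exact hc z hz
    · exact h1 z hz w hw hzw)
  rw [card_insert_of_notMem hx] at this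
  omega

/-- The closed ball. -/
noncomputable def ball (G : SimpleGraph M) (o : M) (r : ℕ) : Finset M :=
  univ.filter fun y => G.dist o y ≤ r

omit [DecidableEq M] in
theorem mem_ball {o y : M} {r : ℕ} : y ∈ ball G o r ↔ G.dist o y ≤ r := by simp [ball]

omit [DecidableEq M] in
theorem ball_mono (o : M) {r s : ℕ} (h : r ≤ s) : #(ball G o r) ≤ #(ball G o s) :=
  card_le_card fun _ hy => mem_ball.2 ((mem_ball.1 hy).trans h)

omit [DecidableEq M] in
theorem ball_pos (o : M) (r : ℕ) : 0 < #(ball G o r) :=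
  card_pos.2 ⟨o, mem_ball.2 (by simp)⟩

omit [DecidableEq M] in
theorem ball_card (hG : G.Connected) (hT : ∀ x y, ∃ φ : G ≃g G, φ x = y) (x o : M) (r : ℕ) :
    #(ball G x r) = #(ball G o r) := by
  obtain ⟨φ, rfl⟩ := hT x o
  refine card_bijective φ φ.toEquiv.bijective fun y => ?_
  rw [mem_ball, mem_ball, iso_dist hG]

theorem packing (hG : G.Connected) (hT : ∀ x y, ∃ φ : G ≃g G, φ x = y) (o : M) {ι : Type}
    (J : Finset ι) (q : ι → M) {r : ℕ} (U : Finset M)
    (h1 : ∀ a ∈ J, ∀ b ∈ J, a ≠ b → 2 * r < G.dist (q a) (q b))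
    (h2 : ∀ a ∈ J, ball G (q a) r ⊆ U) : #J * #(ball G o r) ≤ #U := by
  classical
  have h3 : #(J.biUnion fun a => ball G (q a) r) = #J * #(ball G o r) := by
    rw [card_biUnion, sum_congr rfl fun a _ => ball_card hG hT (q a) o r]
    · simp
    · intro a ha b hb hab
      refine disjoint_left.2 fun y y1 y2 => ?_
      have := h1 a ha b hb hab
      have := hG.dist_triangle (u := q a) (v := y) (w := q b)
      rw [mem_ball] at y1 y2
      rw [G.dist_comm] at y2
      omega
  rw [← h3]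
  exact card_le_card (biUnion_subset.2 h2)

theorem covering (hG : G.Connected) (hT : ∀ x y, ∃ φ : G ≃g G, φ x = y) (o : M) {Z : Finset M}
    {r : ℕ} (h : ∀ x, ∃ z ∈ Z, G.dist z x ≤ r) : Fintype.card M ≤ #Z * #(ball G o r) := by
  have h1 : (univ : Finset M) ⊆ Z.biUnion fun z => ball G z r := fun x _ => by
    obtain ⟨z, h1, h2⟩ := h x
    exact mem_biUnion.2 ⟨z, h1, mem_ball.2 h2⟩
  refine (card_le_card h1).trans (card_biUnion_le.trans ?_)
  rw [sum_congr rfl fun a _ => ball_card hG hT a o r]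
  simp

theorem quasi_mono (hG : G.Connected) (hT : ∀ x y, ∃ φ : G ≃g G, φ x = y) (o : M) {r R : ℕ}
    (hR : Far G R) (h : r ≤ R) : (R + 1) * #(ball G o r) ≤ 3 * (r + 1) * #(ball G o R) := by
  obtain ⟨γ, g0, g⟩ := geod_at hG hT hR o (a := 0)
  have h0 : (R - r) / (2 * r + 1) * (2 * r + 1) ≤ R - r := Nat.div_mul_le_self _ _
  have h1 := packing hG hT o (range ((R - r) / (2 * r + 1) + 1)) (fun j => γ (j * (2 * r + 1)))
    (r := r) (ball G o R) (fun a ha b hb hab => by
      have a1 := Nat.mul_le_mul_right (2 * r + 1) (Nat.le_of_lt_succ (mem_range.1 ha))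
      have b1 := Nat.mul_le_mul_right (2 * r + 1) (Nat.le_of_lt_succ (mem_range.1 hb))
      rw [g.dist (by omega) (by omega)]
      rcases lt_or_gt_of_ne hab with e | e
      · have := Nat.mul_le_mul_right (2 * r + 1) (Nat.succ_le_of_lt e)
        rw [Nat.succ_mul] at this
        omega
      · have := Nat.mul_le_mul_right (2 * r + 1) (Nat.succ_le_of_lt e)
        rw [Nat.succ_mul] at this
        omega) (fun a ha y hy => by
      have a1 := Nat.mul_le_mul_right (2 * r + 1) (Nat.le_of_lt_succ (mem_range.1 ha))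
      have a2 := g 0 (a * (2 * r + 1)) (by omega) (by omega)
      have a3 := hG.dist_triangle (u := o) (v := γ (a * (2 * r + 1))) (w := y)
      rw [g0] at a2
      rw [mem_ball] at hy ⊢
      omega)
  rw [card_range] at h1
  have h2 := Nat.lt_div_mul_add (a := R - r) (b := 2 * r + 1) (by omega)
  have h3 : R + 1 ≤ 3 * (r + 1) * ((R - r) / (2 * r + 1) + 1) := by
    generalize (R - r) / (2 * r + 1) = k at h2
    have : R < r + (k * (2 * r + 1) + (2 * r + 1)) := by omega
    nlinarith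
  calc (R + 1) * #(ball G o r) ≤ 3 * (r + 1) * ((R - r) / (2 * r + 1) + 1) * #(ball G o r) :=
        Nat.mul_le_mul_right _ h3
    _ ≤ _ := by rw [mul_assoc]; exact Nat.mul_le_mul_left _ h1

variable [Fintype (G ≃g G)]

omit [DecidableEq M] in
theorem avg (hT : ∀ x y, ∃ φ : G ≃g G, φ x = y) (f : M → ℝ) (x : M) :
    Fintype.card M * ∑ φ : G ≃g G, f (φ x) = Fintype.card (G ≃g G) * ∑ z, f z := by
  have h1 : ∀ y, ∑ φ : G ≃g G, f (φ y) = ∑ φ : G ≃g G, f (φ x) := fun y => by
    obtain ⟨ψ, rfl⟩ := hT x y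
    exact Fintype.sum_equiv (Equiv.mulRight ψ) _ _ fun φ => rfl
  have h2 : ∀ φ : G ≃g G, ∑ y, f (φ y) = ∑ z, f z := fun φ =>
    Fintype.sum_equiv φ.toEquiv _ _ fun y => rfl
  have h3 : ∑ y, ∑ φ : G ≃g G, f (φ y) = ∑ φ : G ≃g G, ∑ y, f (φ y) := sum_comm
  simpa [h1, h2] using h3

theorem geom_sum_le {ι : Type} (I : Finset ι) (x : ι → ℝ) (h0 : ∀ i ∈ I, 0 ≤ x i)
    (h : ∀ i ∈ I, ∀ j ∈ I, i ≠ j → 2 * x i ≤ x j ∨ 2 * x j ≤ x i) :
    ∀ c, 0 ≤ c → (∀ i ∈ I, x i ≤ c) → ∑ i ∈ I, x i ≤ 2 * c := by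
  classical
  induction I using Finset.induction_on_max_value x with
  | empty => intro c hc _; simpa using hc
  | insert a s ha h1 ih =>
    intro c hc h2
    have a0 := h0 a (mem_insert_self _ _)
    have := ih (fun i hi => h0 i (mem_insert_of_mem hi))
      (fun i hi j hj => h i (mem_insert_of_mem hi) j (mem_insert_of_mem hj)) (x a / 2) (by linarith)
      (fun i hi => by
        rcases h i (mem_insert_of_mem hi) a (mem_insert_self _ _) (fun e => ha (e ▸ hi)) with e | e
        · linarith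
        · linarith [h1 i hi])
    rw [sum_insert ha]
    linarith [h2 a (mem_insert_self _ _)]

end Pool.Agent.Lib.MP_b76e55_an.Vt
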