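import Pool.Agent.Lib.MP_b76e55_an.VtA

/-!
Random-sign dipole tests at many scales of superlinear volume growth in a vertex-transitive graph.
-/

namespace Pool.Agent.Lib.MP_b76e55_an.Vt

open Finset

variable {M : Type} [Fintype M] [DecidableEq M] {G : SimpleGraph M} [Fintype (G ≃g G)]

/-- The number of automorphisms after which `A` separates `x` from `y`. -/
noncomputable def sp (G : SimpleGraph M) [Fintype (G ≃g G)] (A : Finset M) (x y : M) : ℝ :=
  ∑ φ : G ≃g G, |ind A (φ x) - ind A (φ y)|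

/-- The boundary of `A` summed over representatives of the orbits on edges. -/
noncomputable def bd (G : SimpleGraph M) [Fintype (G ≃g G)] (E : Finset (M × M)) (A : Finset M) : ℝ :=
  ∑ e ∈ E, sp G A e.1 e.2

omit [Fintype M] in
theorem sp_nonneg (A : Finset M) (x y : M) : 0 ≤ sp G A x y :=
  sum_nonneg fun _ _ => abs_nonneg _

omit [Fintype M] in
theorem bd_nonneg (E : Finset (M × M)) (A : Finset M) : 0 ≤ bd G E A :=
  sum_nonneg fun _ _ => sp_nonneg _ _ _

theorem bd_compl (E : Finset (M × M)) (A : Finset M) : bd G E Aᶜ = bd G E A := by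
  refine sum_congr rfl fun e _ => sum_congr rfl fun φ _ => ?_
  have : ∀ z, ind Aᶜ z = 1 - ind A z := fun z => by
    by_cases h : z ∈ A <;> simp [ind, h]
  rw [this, this, abs_sub_comm]
  congr 1
  ring

/-- `E` contains a representative of every orbit on edges. -/
def Rep (G : SimpleGraph M) (E : Finset (M × M)) : Prop :=
  ∀ x y, G.Adj x y → ∃ e ∈ E, ∃ φ : G ≃g G, (φ e.1 = x ∧ φ e.2 = y) ∨ (φ e.1 = y ∧ φ e.2 = x)

omit [Fintype M] in
theorem sp_le (hG : G.Connected) {E : Finset (M × M)} (hE : Rep G E) (A : Finset M) (x y : M) :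
    sp G A x y ≤ G.dist x y * bd G E A := by
  refine lip_of_adj hG (f := sp G A) (fun x y z => ?_) (fun x => by simp [sp]) (fun x y h => ?_) x y
  · rw [sp, sp, sp, ← sum_add_distrib]
    exact sum_le_sum fun φ _ => abs_sub_le _ _ _
  · obtain ⟨e, he, ψ, h⟩ := hE x y h
    have h1 : sp G A (ψ e.1) (ψ e.2) = sp G A e.1 e.2 :=
      Fintype.sum_equiv (Equiv.mulRight ψ) _ _ fun φ => rfl
    have h2 : sp G A e.1 e.2 ≤ bd G E A :=
      single_le_sum (f := fun e : M × M => sp G A e.1 e.2) (fun _ _ => sp_nonneg _ _ _) he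
    rcases h with ⟨rfl, rfl⟩ | ⟨rfl, rfl⟩
    · exact h1.le.trans h2
    · refine le_trans (le_of_eq ?_) (h1.le.trans h2)
      exact sum_congr rfl fun φ _ => abs_sub_comm _ _

theorem sum_ind (hT : ∀ x y, ∃ φ : G ≃g G, φ x = y) (A : Finset M) (x : M) :
    Fintype.card M * ∑ φ : G ≃g G, ind A (φ x) = Fintype.card (G ≃g G) * #A := by
  rw [avg hT]
  simp [ind]

omit [Fintype M] [Fintype (G ≃g G)] in
theorem ind_nonneg (A : Finset M) (x : M) : 0 ≤ ind A x := by
  unfold ind; split_ifs <;> simp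

theorem sp_le_card (hT : ∀ x y, ∃ φ : G ≃g G, φ x = y) (A : Finset M) (x y : M) :
    Fintype.card M * sp G A x y ≤ 2 * (Fintype.card (G ≃g G) * #A) := by
  have h1 : sp G A x y ≤ ∑ φ : G ≃g G, ind A (φ x) + ∑ φ : G ≃g G, ind A (φ y) := by
    rw [← sum_add_distrib]
    exact sum_le_sum fun φ _ => abs_sub_le_iff.2
      ⟨by linarith [ind_nonneg A (φ y)], by linarith [ind_nonneg A (φ x)]⟩
  have h2 := mul_le_mul_of_nonneg_left h1 (Nat.cast_nonneg (Fintype.card M))
  rw [mul_add, sum_ind hT, sum_ind hT] at h2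
  linarith

theorem isoper (hG : G.Connected) (hT : ∀ x y, ∃ φ : G ≃g G, φ x = y) {E : Finset (M × M)}
    (hE : Rep G E) (A : Finset M) (o : M) {ρ : ℕ} (h : 2 * #A ≤ #(ball G o ρ)) :
    (Fintype.card (G ≃g G) * #A : ℝ) ≤ Fintype.card M * (2 * ρ * bd G E A) := by
  have h1 : ∑ y ∈ ball G o ρ, sp G A o y ≤ #(ball G o ρ) * (ρ * bd G E A) := by
    refine (sum_le_card_nsmul _ _ (ρ * bd G E A) fun y hy => (sp_le hG hE A o y).trans
      (mul_le_mul_of_nonneg_right ?_ (bd_nonneg _ _))).trans (by simp)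
    exact_mod_cast mem_ball.1 hy
  have h2 : ∀ φ : G ≃g G, ind A (φ o) * (#(ball G o ρ) / 2) ≤
      ∑ y ∈ ball G o ρ, |ind A (φ o) - ind A (φ y)| := fun φ => by
    by_cases e : φ o ∈ A
    · have a1 : ∑ y ∈ ball G o ρ, ind A (φ y) ≤ #A := by
        refine (sum_le_univ_sum_of_nonneg fun y => ind_nonneg A _).trans (le_of_eq ?_)
        rw [Fintype.sum_equiv φ.toEquiv (fun y => ind A (φ y)) (ind A) fun y => rfl]
        simp [ind]
      have a2 : ∑ y ∈ ball G o ρ, (ind A (φ o) - ind A (φ y)) ≤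
          ∑ y ∈ ball G o ρ, |ind A (φ o) - ind A (φ y)| := sum_le_sum fun _ _ => le_abs_self _
      have a3 : (2 * #A : ℝ) ≤ #(ball G o ρ) := by exact_mod_cast h
      have a4 : ind A (φ o) = 1 := by simp [ind, e]
      rw [sum_sub_distrib, a4] at a2
      rw [a4]
      simp only [sum_const, nsmul_eq_mul, mul_one] at a2
      linarith
    · have a4 : ind A (φ o) = 0 := by simp [ind, e]
      rw [a4, zero_mul]
      exact sum_nonneg fun _ _ => abs_nonneg _
  have h3 := sum_le_sum fun φ (_ : φ ∈ univ) => h2 φ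
  rw [← sum_mul, sum_comm] at h3
  have h4 := h3.trans h1
  have h5 : (0 : ℝ) < #(ball G o ρ) := by exact_mod_cast ball_pos o ρ
  have h6 : ∑ φ : G ≃g G, ind A (φ o) ≤ 2 * ρ * bd G E A := by
    refine le_of_mul_le_mul_right ?_ h5
    linarith
  rw [← sum_ind hT A o]
  exact mul_le_mul_of_nonneg_left h6 (Nat.cast_nonneg _)

omit [Fintype (G ≃g G)] in
theorem dipole [MetricSpace M] {ν : Finset M → ℝ} {D : ℝ} (hν : Cuts ν D) (Z : Finset M)
    (P Q : M → M) {s : ℝ} (h : ∀ z ∈ Z, ∀ w ∈ Z, s ≤ dist (P z) (Q w)) :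
    #Z * s ≤ ∑ A, ν A * |∑ z ∈ Z, (ind A (P z) - ind A (Q z))| := by
  rcases Z.eq_empty_or_nonempty with rfl | e
  · simp
  let f : M → ℝ := fun x => Z.inf' e fun w => dist x (Q w)
  let μ : M → ℝ := fun x => ∑ z ∈ Z, ((if x = P z then 1 else 0) - (if x = Q z then 1 else 0))
  have h1 : ∀ g : M → ℝ, ∑ x, μ x * g x = ∑ z ∈ Z, (g (P z) - g (Q z)) := fun g => by
    simp only [μ, sum_mul]
    rw [sum_comm]
    simp [sub_mul]
  have h2 := hν.lower μ (by simpa using h1 1) f fun x y => by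
    obtain ⟨w, hw, e1⟩ := exists_mem_eq_inf' e fun w => dist y (Q w)
    have e2 : f x ≤ dist x (Q w) := inf'_le _ hw
    have := dist_triangle x y (Q w)
    simp only [f] at e2 ⊢
    linarith
  have h3 : ∀ A : Finset M, ∑ x ∈ A, μ x = ∑ z ∈ Z, (ind A (P z) - ind A (Q z)) := fun A => by
    rw [← h1]
    simp [ind]
  simp only [h1, h3] at h2
  refine le_trans ?_ h2
  refine le_trans (by simp) (card_nsmul_le_sum _ _ s fun z hz => ?_)
  have e1 : s ≤ f (P z) := le_inf' _ _ fun w hw => h z hz w hw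
  have e2 : f (Q z) ≤ 0 := (inf'_le _ hz).trans (by simp)
  linarith

theorem test_scale [MetricSpace M] (hG : G.Connected) (hT : ∀ x y, ∃ φ : G ≃g G, φ x = y)
    (hd : ∀ x y : M, dist x y = G.dist x y) {E : Finset (M × M)} (hE : Rep G E)
    {ν : Finset M → ℝ} {D : ℝ} (hν : Cuts ν D) (o : M) {s : ℕ} (hs : 1 ≤ s) (hF : Far G s) :
    ∃ w : Finset M → ℝ, (Fintype.card (G ≃g G) : ℝ) ≤ ∑ A, ν A * w A ∧ ∀ A, 0 ≤ w A ∧
      Fintype.card M * s * w A ^ 2 ≤ Fintype.card (G ≃g G) * bd G E A * #(ball G o (3 * s)) ∧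
      Fintype.card M * s * w A ≤ 2 * (Fintype.card (G ≃g G) * #A) ∧
      Fintype.card M * s * w A ≤ 2 * (Fintype.card (G ≃g G) * #Aᶜ) := by
  obtain ⟨Z, z1, z2⟩ := net G (s := 3 * s) (by omega)
  have z3 := covering hG hT o (Z := Z) (r := 3 * s) fun x => by
    obtain ⟨z, h1, h2⟩ := z2 x
    exact ⟨z, h1, h2.le⟩
  have hy : ∀ z, ∃ y, G.dist z y = s := fun z => by
    obtain ⟨γ, g0, g⟩ := geod_at hG hT hF z (a := 0)
    exact ⟨γ s, by simpa [g0] using g 0 s (by omega) le_rfl⟩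
  choose y hy using hy
  let a : Finset M → (G ≃g G) → M → ℝ := fun A φ z => ind A (φ z) - ind A (φ (y z))
  let W : Finset M → ℝ := fun A => ∑ φ : G ≃g G, ∑ ε : M → Bool,
    |∑ z ∈ Z, if ε z then a A φ z else -a A φ z|
  set n := Fintype.card M with hn
  set g := Fintype.card (G ≃g G) with hg
  have n0 : (0 : ℝ) < n := by have := hG.nonempty; exact_mod_cast Fintype.card_pos
  have N0 : (0 : ℝ) < #Z := by
    obtain ⟨z, h, -⟩ := z2 o
    exact_mod_cast card_pos.2 ⟨z, h⟩
  have s0 : (0 : ℝ) < s := by exact_mod_cast hs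
  have c0 : (0 : ℝ) < 2 ^ n * (#Z * s) := by positivity
  have t1 : ∀ (φ : G ≃g G) (ε : M → Bool),
      (#Z * s : ℝ) ≤ ∑ A, ν A * |∑ z ∈ Z, if ε z then a A φ z else -a A φ z| := fun φ ε => by
    have := dipole hν Z (fun z => φ (if ε z then z else y z)) (fun z => φ (if ε z then y z else z))
      (s := s) fun z hz w hw => by
        rw [hd, iso_dist hG, Nat.cast_le]
        have e1 := hy z
        have e2 := hy w
        by_cases e : z = w
        · subst e
          cases ε z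
          · simp [G.dist_comm (u := y z), e1]
          · simp [e1]
        · have e3 := z1 z hz w hw e
          have e4 := hG.dist_triangle (u := z) (v := y w) (w := w)
          have e5 := hG.dist_triangle (u := z) (v := y z) (w := w)
          have e6 := hG.dist_triangle (u := y z) (v := y w) (w := w)
          rw [G.dist_comm (u := y w)] at e4 e6
          cases ε z <;> cases ε w <;> simp <;> omega
    refine this.trans (le_of_eq (sum_congr rfl fun A _ => ?_))
    congr 2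
    refine sum_congr rfl fun z _ => ?_
    cases ε z <;> simp [a]
  have t2 : ∀ A, W A ≤ 2 ^ n * ∑ z ∈ Z, sp G A z (y z) := fun A => by
    simp only [sp]
    rw [sum_comm, mul_sum]
    refine sum_le_sum fun φ _ => (sum_le_card_nsmul _ _ (∑ z ∈ Z, |a A φ z|) fun ε _ =>
      (abs_sum_le_sum_abs _ _).trans (le_of_eq (sum_congr rfl fun z _ => ?_))).trans (by simp [a, hn])
    cases ε z <;> simp
  have t3 : ∀ A, W A ^ 2 ≤ (2 ^ n) ^ 2 * (g * ∑ z ∈ Z, sp G A z (y z)) := fun A => by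
    have b1 : ∀ φ : G ≃g G, (∑ ε : M → Bool, |∑ z ∈ Z, if ε z then a A φ z else -a A φ z|) ^ 2 ≤
        (2 ^ n) ^ 2 * ∑ z ∈ Z, |a A φ z| := fun φ => by
      refine sq_sum_le_card_mul_sum_sq.trans (le_of_eq ?_)
      simp only [sq_abs, sign_sq, card_univ, Fintype.card_fun, Fintype.card_bool, Nat.cast_pow,
        Nat.cast_ofNat]
      rw [sq, mul_assoc]
      congr 2
      refine sum_congr rfl fun z _ => ?_
      simp only [a, ind]
      split_ifs <;> simp
    refine sq_sum_le_card_mul_sum_sq.trans ?_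
    rw [mul_left_comm]
    refine mul_le_mul_of_nonneg_left ((sum_le_sum fun φ _ => b1 φ).trans (le_of_eq ?_))
      (Nat.cast_nonneg _)
    rw [← mul_sum, sum_comm]
    rfl
  have W0 : ∀ A, 0 ≤ W A := fun A => sum_nonneg fun _ _ => sum_nonneg fun _ _ => abs_nonneg _
  have t4 : ∀ A B : Finset M, (∀ x y, sp G A x y = sp G B x y) →
      n * s * (W A / (2 ^ n * (#Z * s))) ≤ 2 * (g * #B) := fun A B h => by
    have b1 : n * ∑ z ∈ Z, sp G A z (y z) ≤ #Z * (2 * (g * #B)) := by
      rw [mul_sum]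
      exact (sum_le_card_nsmul _ _ _ fun z _ => h _ _ ▸ sp_le_card hT B z (y z)).trans
        (by simp [hg])
    rw [← mul_div_assoc, div_le_iff₀ c0]
    have b2 := mul_le_mul_of_nonneg_left (t2 A) (by positivity : (0 : ℝ) ≤ n * s)
    have b3 := mul_le_mul_of_nonneg_left b1 (by positivity : (0 : ℝ) ≤ 2 ^ n * s)
    linarith
  refine ⟨fun A => W A / (2 ^ n * (#Z * s)), ?_, fun A => ⟨div_nonneg (W0 A) c0.le, ?_,
    t4 A A fun _ _ => rfl, t4 A Aᶜ fun x y => ?_⟩⟩
  · simp only [← mul_div_assoc, ← sum_div]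
    rw [le_div_iff₀ c0]
    simp only [W, mul_sum]
    rw [sum_comm]
    refine le_trans (by simp [hg]) (card_nsmul_le_sum univ _ (2 ^ n * (#Z * s) : ℝ) fun φ _ => ?_)
    rw [sum_comm]
    exact le_trans (by simp [hn]) (card_nsmul_le_sum univ _ (#Z * s : ℝ) fun ε _ => t1 φ ε)
  · have b1 : ∑ z ∈ Z, sp G A z (y z) ≤ #Z * (s * bd G E A) :=
      (sum_le_card_nsmul _ _ _ fun z _ => hy z ▸ sp_le hG hE A z (y z)).trans (by simp)
    have b2 : (n : ℝ) ≤ #Z * #(ball G o (3 * s)) := by exact_mod_cast z3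
    have b3 := (t3 A).trans (mul_le_mul_of_nonneg_left
      (mul_le_mul_of_nonneg_left b1 (Nat.cast_nonneg g)) (by positivity))
    have b0 := bd_nonneg (G := G) E A
    rw [div_pow, ← mul_div_assoc, div_le_iff₀ (by positivity)]
    have b4 := mul_le_mul b2 b3 (sq_nonneg _) (by positivity)
    have b5 := mul_le_mul_of_nonneg_left b4 s0.le
    calc _ = s * (n * W A ^ 2) := by ring
      _ ≤ _ := b5
      _ = _ := by ring
  · have := bd_compl (G := G) {(x, y)} A
    simpa [bd] using this.symm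

/-- The volume of the ball of radius `3 s` divided by `3 s + 1`. -/
noncomputable def gr (G : SimpleGraph M) (o : M) (s : ℕ) : ℝ := #(ball G o (3 * s)) / (3 * s + 1)

theorem sum_scales (hG : G.Connected) (hT : ∀ x y, ∃ φ : G ≃g G, φ x = y) {E : Finset (M × M)}
    (hE : Rep G E) (o : M) {ι : Type} (I : Finset ι) (s : ι → ℕ) (hs : ∀ i ∈ I, 1 ≤ s i)
    (hI : ∀ i ∈ I, ∀ j ∈ I, i ≠ j → (2 * s i ≤ s j ∧ 4 * gr G o (s i) ≤ gr G o (s j)) ∨
      (2 * s j ≤ s i ∧ 4 * gr G o (s j) ≤ gr G o (s i)))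
    (A : Finset M) (hA : 2 * #A ≤ Fintype.card M) (w : ι → ℝ)
    (w1 : ∀ i ∈ I, Fintype.card M * s i * w i ^ 2 ≤
      Fintype.card (G ≃g G) * bd G E A * #(ball G o (3 * s i)))
    (w2 : ∀ i ∈ I, Fintype.card M * s i * w i ≤ 2 * (Fintype.card (G ≃g G) * #A)) :
    ∑ i ∈ I, w i ≤ 38 * bd G E A := by
  classical
  set n := Fintype.card M with hn
  set g := Fintype.card (G ≃g G) with hg
  have n0 : (0 : ℝ) < n := by have := hG.nonempty; exact_mod_cast Fintype.card_pos
  have g0 : (0 : ℝ) ≤ g := Nat.cast_nonneg _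
  have b0 := bd_nonneg (G := G) E A
  set b := bd G E A with hb
  have s0 : ∀ i ∈ I, (1 : ℝ) ≤ s i := fun i hi => by exact_mod_cast hs i hi
  rcases A.eq_empty_or_nonempty with rfl | hne
  · refine (sum_nonpos fun i hi => ?_).trans (by positivity)
    have := w2 i hi
    simp only [card_empty, Nat.cast_zero, mul_zero] at this
    exact nonpos_of_mul_nonpos_right this (mul_pos n0 (by linarith [s0 i hi]))
  have hex : ∃ ρ, 2 * #A ≤ #(ball G o ρ) := ⟨univ.sup (G.dist o), hA.trans (le_of_eq (by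
    rw [hn, ← card_univ]
    congr 1
    ext y
    simpa [mem_ball] using le_sup (f := G.dist o) (mem_univ y)))⟩
  have r1 := Nat.find_spec hex
  have r2 := fun m => Nat.find_min hex (m := m)
  generalize Nat.find hex = ρ at r1 r2
  have r3 : ρ ≠ 0 := by
    rintro rfl
    have e1 : #(ball G o 0) ≤ 1 := card_le_one.2 fun x hx y hy => by
      rw [mem_ball, Nat.le_zero, hG.dist_eq_zero_iff] at hx hy
      rw [← hx, ← hy]
    have := hne.card_pos
    omega
  obtain ⟨ρ, rfl⟩ := Nat.exists_eq_succ_of_ne_zero r3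
  have r4 : #(ball G o ρ) < 2 * #A := not_le.1 (r2 ρ (Nat.lt_succ_self _))
  have r5 : Far G ρ := by
    by_contra hc
    have : ball G o ρ = univ := eq_univ_of_forall fun y => mem_ball.2 (by
      by_contra h
      exact hc ⟨o, y, by omega⟩)
    rw [this, card_univ] at r4
    omega
  have r6 := isoper hG hT hE A o r1
  rw [← hn, ← hg, ← hb] at r6
  push_cast at r6
  have p0 : (0 : ℝ) < ρ + 1 := by positivity
  have q0 : ∀ i, 0 ≤ gr G o (s i) := fun i => by unfold gr; positivity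
  have h1 : ∑ i ∈ I with 3 * s i ≤ ρ, w i ≤ 14 * b := by
    let x : ι → ℝ := fun i => Real.sqrt (4 * g * b / n * gr G o (s i))
    have c0 : 0 ≤ 4 * g * b / n := by positivity
    have x2 : ∀ i j, 4 * gr G o (s i) ≤ gr G o (s j) → 2 * x i ≤ x j := fun i j h => by
      refine Real.le_sqrt_of_sq_le ?_
      rw [mul_pow, Real.sq_sqrt (mul_nonneg c0 (q0 i))]
      nlinarith [mul_le_mul_of_nonneg_left h c0]
    refine (sum_le_sum (g := x) fun i hi => ?_).trans ((geom_sum_le _ x
      (fun i _ => Real.sqrt_nonneg _) (fun i hi j hj hij => ?_) (7 * b) (by positivity)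
      fun i hi => ?_).trans (by linarith))
    · have hi' := (mem_filter.1 hi).1
      refine Real.le_sqrt_of_sq_le ?_
      have e1 := w1 i hi'
      have e2 := s0 i hi'
      rw [gr, div_mul_div_comm, le_div_iff₀ (by positivity)]
      have e3 : w i ^ 2 * (n * (3 * s i + 1)) ≤ w i ^ 2 * (n * (4 * s i)) := by
        gcongr
        linarith
      linarith
    · rcases hI i (mem_filter.1 hi).1 j (mem_filter.1 hj).1 hij with e | e
      · exact Or.inl (x2 i j e.2)
      · exact Or.inr (x2 j i e.2)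
    · refine Real.sqrt_le_iff.2 ⟨by positivity, ?_⟩
      have e1 : ((ρ + 1) * #(ball G o (3 * s i)) : ℝ) ≤ 3 * (3 * s i + 1) * #(ball G o ρ) := by
        exact_mod_cast quasi_mono hG hT o r5 (mem_filter.1 hi).2
      have e2 : (#(ball G o ρ) : ℝ) ≤ 2 * #A := by exact_mod_cast r4.le
      have e3 : (ρ + 1) * gr G o (s i) ≤ 6 * #A := by
        rw [gr, ← mul_div_assoc, div_le_iff₀ (by positivity)]
        nlinarith [(by positivity : (0 : ℝ) ≤ 3 * (3 * s i + 1))]
      have e4 : g * gr G o (s i) ≤ 12 * n * b := by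
        refine le_of_mul_le_mul_left ?_ p0
        nlinarith [mul_le_mul_of_nonneg_left e3 g0]
      rw [div_mul_eq_mul_div, div_le_iff₀ n0]
      nlinarith [mul_le_mul_of_nonneg_left e4 b0, mul_nonneg (mul_nonneg b0 b0) n0.le]
  have h2 : ∑ i ∈ I with ¬ 3 * s i ≤ ρ, w i ≤ 24 * b := by
    let x : ι → ℝ := fun i => 2 * (g * #A) / (n * s i)
    have c0 : (0 : ℝ) ≤ 2 * (g * #A) := by positivity
    have x2 : ∀ i ∈ I, ∀ j, 2 * s i ≤ s j → 2 * x j ≤ x i := fun i hi j h => by
      have e1 : (2 * s i : ℝ) ≤ s j := by exact_mod_cast h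
      have e2 := s0 i hi
      simp only [x]
      rw [← mul_div_assoc, div_le_div_iff₀ (mul_pos n0 (by linarith)) (mul_pos n0 (by linarith))]
      nlinarith [mul_le_mul_of_nonneg_left e1 (mul_nonneg c0 n0.le)]
    refine (sum_le_sum (g := x) fun i hi => ?_).trans ((geom_sum_le _ x
      (fun i _ => by positivity) (fun i hi j hj hij => ?_) (12 * b) (by positivity)
      fun i hi => ?_).trans (by linarith))
    · have hi' := (mem_filter.1 hi).1
      have e2 := s0 i hi'
      rw [le_div_iff₀ (by positivity)]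
      linarith [w2 i hi']
    · rcases hI i (mem_filter.1 hi).1 j (mem_filter.1 hj).1 hij with e | e
      · exact Or.inr (x2 i (mem_filter.1 hi).1 j e.1)
      · exact Or.inl (x2 j (mem_filter.1 hj).1 i e.1)
    · have e2 := s0 i (mem_filter.1 hi).1
      have e1 : (ρ + 1 : ℝ) ≤ 3 * s i := by
        have := (mem_filter.1 hi).2
        exact_mod_cast (by omega : ρ + 1 ≤ 3 * s i)
      rw [div_le_iff₀ (by positivity)]
      nlinarith [mul_le_mul_of_nonneg_left e1 (mul_nonneg n0.le b0)]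
  rw [← sum_filter_add_sum_filter_not I fun i => 3 * s i ≤ ρ]
  linarith

theorem scales_le [MetricSpace M] (hG : G.Connected) (hT : ∀ x y, ∃ φ : G ≃g G, φ x = y)
    (hd : ∀ x y : M, dist x y = G.dist x y) {E : Finset (M × M)} (hE : Rep G E)
    (hE' : ∀ e ∈ E, G.Adj e.1 e.2) {ν : Finset M → ℝ} {D : ℝ} (hν : Cuts ν D) (o : M)
    {ι : Type} (I : Finset ι) (s : ι → ℕ) (hs : ∀ i ∈ I, 1 ≤ s i) (hF : ∀ i ∈ I, Far G (s i))
    (hI : ∀ i ∈ I, ∀ j ∈ I, i ≠ j → (2 * s i ≤ s j ∧ 4 * gr G o (s i) ≤ gr G o (s j)) ∨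
      (2 * s j ≤ s i ∧ 4 * gr G o (s j) ≤ gr G o (s i))) : (#I : ℝ) ≤ 38 * (#E * D) := by
  choose! w w1 w2 using fun i hi => test_scale hG hT hd hE hν o (hs i hi) (hF i hi)
  have h1 : ∀ A, ∑ i ∈ I, w i A ≤ 38 * bd G E A := fun A => by
    rcases le_total (2 * #A) (Fintype.card M) with h | h
    · exact sum_scales hG hT hE o I s hs hI A h _
        (fun i hi => (w2 i hi A).2.1) fun i hi => (w2 i hi A).2.2.1
    · rw [← bd_compl]
      exact sum_scales hG hT hE o I s hs hI Aᶜ (by rw [card_compl]; omega) _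
        (fun i hi => bd_compl (G := G) E A ▸ (w2 i hi A).2.1)
        fun i hi => (w2 i hi A).2.2.2
  have h2 : ∑ A, ν A * bd G E A ≤ #E * (Fintype.card (G ≃g G) * D) := by
    simp only [bd, sp, mul_sum]
    rw [sum_comm]
    refine (sum_le_card_nsmul _ _ (Fintype.card (G ≃g G) * D) fun e he => ?_).trans (by simp)
    rw [sum_comm]
    refine (sum_le_card_nsmul _ _ D fun φ _ => (hν.upper _ _).trans ?_).trans (by simp)
    rw [hd, iso_dist hG, adj_dist (hE' e he)]
    simp
  have h3 := card_nsmul_le_sum I _ _ w1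
  rw [sum_comm] at h3
  simp only [← mul_sum, nsmul_eq_mul] at h3
  have h4 := h3.trans (sum_le_sum fun A _ => mul_le_mul_of_nonneg_left (h1 A) (hν.nonneg A))
  simp only [mul_left_comm _ (38 : ℝ), ← mul_sum] at h4
  have g0 : (0 : ℝ) < Fintype.card (G ≃g G) := by exact_mod_cast Fintype.card_pos
  refine le_of_mul_le_mul_right ?_ g0
  nlinarith

end Pool.Agent.Lib.MP_b76e55_an.Vt
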