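import Pool.Agent.Lib.MP_b76e55_an.VtB

/-!
A vertex-transitive graph with linear volume growth over a long range of scales has no tripods at
some scale, and is then coarsely a path or a cycle.
-/

namespace Pool.Agent.Lib.MP_b76e55_an.Vt

open Finset

variable {M : Type} {G : SimpleGraph M}

/-- Three points on a sphere of radius `h` at mutual distance at least `h`. -/
def Tri (G : SimpleGraph M) (h : ℕ) : Prop := ∃ p x y z, G.dist p x = h ∧ G.dist p y = h ∧
  G.dist p z = h ∧ h ≤ G.dist x y ∧ h ≤ G.dist x z ∧ h ≤ G.dist y z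

theorem exists_near (G : SimpleGraph M) (γ : ℕ → M) (n : ℕ) : ∃ π : M → ℕ, ∀ x, π x ≤ n ∧
    ∀ c ≤ n, G.dist x (γ (π x)) ≤ G.dist x (γ c) := by
  have : ∀ x, ∃ a, a ≤ n ∧ ∀ c ≤ n, G.dist x (γ a) ≤ G.dist x (γ c) := fun x => by
    obtain ⟨a, h1, h2⟩ := exists_min_image (range (n + 1)) (fun c => G.dist x (γ c)) ⟨0, by simp⟩
    exact ⟨a, Nat.le_of_lt_succ (mem_range.1 h1), fun c hc => h2 c (mem_range.2 (by omega))⟩
  choose π h using this
  exact ⟨π, h⟩

theorem spike (hG : G.Connected) (hT : ∀ x y, ∃ φ : G ≃g G, φ x = y) {γ : ℕ → M} {n : ℕ}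
    (g : Geo G γ n) {π : M → ℕ} (hπ : ∀ x, π x ≤ n ∧ ∀ c ≤ n, G.dist x (γ (π x)) ≤ G.dist x (γ c))
    {t a : ℕ} (h : Tri G (4 * t)) (ha : a ≤ n) :
    ∃ q, G.dist q (γ (π q)) = t ∧ G.dist (γ a) q ≤ 4 * t := by
  obtain ⟨p, x, y, z, h⟩ := h
  obtain ⟨φ, hφ⟩ := hT p (γ a)
  simp only [← iso_dist hG φ p, ← iso_dist hG φ x, ← iso_dist hG φ y, hφ] at h
  generalize φ x = x at h
  generalize φ y = y at h
  generalize φ z = z at h
  obtain ⟨h1, h2, h3, h4, h5, h6⟩ := h
  have key : ∀ x, G.dist (γ a) x = 4 * t → t ≤ G.dist x (γ (π x)) →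
      ∃ q, G.dist q (γ (π q)) = t ∧ G.dist (γ a) q ≤ 4 * t := fun x e1 e2 => by
    rw [← e1]
    refine ivt hG (f := fun x => G.dist x (γ (π x))) (fun x y h => ?_) ?_ e2
    · have := (hπ y).2 _ (hπ x).1
      have := hG.dist_triangle (u := y) (v := x) (w := γ (π x))
      have := adj_dist h.symm
      omega
    · have := (hπ (γ a)).2 a ha
      simp only [G.dist_self] at this
      omega
  by_contra hc
  have k1 : ∀ x, G.dist (γ a) x = 4 * t → G.dist x (γ (π x)) < t ∧
      4 * t ≤ (π x - a) + (a - π x) + G.dist x (γ (π x)) ∧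
      (π x - a) + (a - π x) ≤ 4 * t + G.dist x (γ (π x)) := fun x e1 => by
    have e2 := g.dist ha (hπ x).1
    have e3 := hG.dist_triangle (u := γ a) (v := x) (w := γ (π x))
    have e4 := hG.dist_triangle (u := γ a) (v := γ (π x)) (w := x)
    rw [G.dist_comm (u := γ (π x))] at e4
    exact ⟨not_le.1 fun e => hc (key x e1 e), by omega, by omega⟩
  have k2 : ∀ x y, G.dist x y ≤ G.dist x (γ (π x)) + ((π y - π x) + (π x - π y)) +
      G.dist y (γ (π y)) := fun x y => by
    have e2 := g.dist (hπ x).1 (hπ y).1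
    have e3 := hG.dist_triangle (u := x) (v := γ (π x)) (w := y)
    have e4 := hG.dist_triangle (u := γ (π x)) (v := γ (π y)) (w := y)
    rw [G.dist_comm (u := γ (π y))] at e4
    omega
  have := k1 x h1
  have := k1 y h2
  have := k1 z h3
  have := k2 x y
  have := k2 x z
  have := k2 y z
  omega

theorem coord (hG : G.Connected) (hT : ∀ x y, ∃ φ : G ≃g G, φ x = y) {h : ℕ} (h1 : ¬ Tri G h)
    (h2 : Far G (82 * h)) (v : M) : ∃ π : M → ℕ, ∀ x y, G.dist v x ≤ 20 * h → G.dist v y ≤ 20 * h →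
      (π y - π x) + (π x - π y) < G.dist x y + 2 * h ∧
      G.dist x y < (π y - π x) + (π x - π y) + 2 * h := by
  obtain ⟨γ, g0, g⟩ := geod_at hG hT h2 v (a := 41 * h)
  obtain ⟨π, hπ⟩ := exists_near G γ (82 * h)
  have key : ∀ x, G.dist v x ≤ 20 * h → G.dist x (γ (π x)) < h := fun x hx => by
    by_contra! hc
    have e1 := (hπ x).2 (41 * h) (by omega)
    have e2 := g.dist (a := 41 * h) (by omega) (hπ x).1
    have e3 := hG.dist_triangle (u := v) (v := x) (w := γ (π x))
    rw [g0] at e1 e2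
    rw [G.dist_comm (v := v)] at e1
    obtain ⟨δ, d0, d1, d⟩ := geod hG (γ (π x)) x
    rw [G.dist_comm] at hc
    have e4 := d 0 h (by omega) hc
    have e5 := d h _ hc le_rfl
    rw [d0] at e4
    rw [d1] at e5
    have e6 : ∀ c ≤ 82 * h, h ≤ G.dist (γ c) (δ h) := fun c hc' => by
      have a1 := (hπ x).2 c hc'
      have a2 := hG.dist_triangle (u := γ c) (v := δ h) (w := x)
      rw [G.dist_comm] at a1
      rw [G.dist_comm (u := x)] at a1
      omega
    refine h1 ⟨γ (π x), γ (π x - h), γ (π x + h), δ h, ?_, ?_, e4, ?_, e6 _ (by omega),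
      e6 _ (by omega)⟩ <;> rw [g.dist (by omega) (by omega)] <;> omega
  refine ⟨π, fun x y hx hy => ?_⟩
  have a1 := key x hx
  have a2 := key y hy
  have e2 := g.dist (hπ x).1 (hπ y).1
  have e3 := hG.dist_triangle (u := x) (v := γ (π x)) (w := y)
  have e4 := hG.dist_triangle (u := γ (π x)) (v := γ (π y)) (w := y)
  have e5 := hG.dist_triangle (u := γ (π x)) (v := x) (w := γ (π y))
  have e6 := hG.dist_triangle (u := x) (v := y) (w := γ (π y))
  rw [G.dist_comm (u := γ (π y))] at e4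
  rw [G.dist_comm (v := x)] at e5
  omega

theorem long_path {Z : Finset M} {a : M → M → Prop} (a1 : ∀ v w, a v w → a w v)
    (a2 : ∀ v w, a v w → w ∈ Z)
    (a3 : ∀ v x y z, a v x → a v y → a v z → x = y ∨ x = z ∨ y = z) {o : M} (ho : o ∈ Z) :
    ∃ (N : ℕ) (P : ℕ → M), 0 < N ∧ N ≤ #Z ∧ P 0 ∈ Z ∧ (∀ i, i + 1 < N → a (P i) (P (i + 1))) ∧
      (∀ i < N, ∀ w, a (P i) w → ∃ j < N, P j = w) ∧
      ∀ i < N, ∀ j < N, a (P i) (P j) → (i ≤ j + 1 ∧ j ≤ i + 1) ∨ i = 0 ∨ j = 0 := by
  classical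
  let Q : ℕ → Prop := fun N => ∃ P : ℕ → M, (∀ i < N, P i ∈ Z) ∧
    (∀ i < N, ∀ j < N, P i = P j → i = j) ∧ ∀ i, i + 1 < N → a (P i) (P (i + 1))
  have q1 : ∀ N, Q N → N ≤ #Z := by
    rintro N ⟨P, p1, p2, -⟩
    simpa using card_le_card_of_injOn (s := range N) (t := Z) P
      (fun i hi => p1 i (by simpa using hi))
      fun i hi j hj => p2 i (by simpa using hi) j (by simpa using hj)
  have q2 : Q 1 := ⟨fun _ => o, fun _ _ => ho, fun i _ j _ _ => by omega, fun i _ => by omega⟩
  have q3 := Nat.findGreatest_spec (q1 1 q2) q2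
  have q4 := Nat.le_findGreatest (q1 1 q2) q2
  have q5 : ¬ Q (Nat.findGreatest Q #Z + 1) := fun h =>
    Nat.findGreatest_is_greatest (Nat.lt_succ_self _) (q1 _ h) h
  generalize Nat.findGreatest Q #Z = N at q3 q4 q5
  have q6 := q1 N q3
  obtain ⟨P, p1, p2, p3⟩ := q3
  have mid : ∀ i, 0 < i → i + 1 < N → ∀ w, a (P i) w → w = P (i - 1) ∨ w = P (i + 1) := by
    intro i h1 h2 w hw
    have b1 := a1 _ _ (p3 (i - 1) (by omega))
    rw [show i - 1 + 1 = i by omega] at b1
    rcases a3 _ _ _ _ hw b1 (p3 i h2) with e | e | e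
    · exact Or.inl e
    · exact Or.inr e
    · have := p2 _ (by omega) _ (by omega) e
      omega
  refine ⟨N, P, q4, q6, p1 0 q4, p3, fun i hi w hw => ?_, fun i hi j hj h => ?_⟩
  · by_contra! hc
    by_cases e1 : i + 1 = N
    · refine q5 ⟨fun n => if n = N then w else P n, fun n hn => ?_, fun n hn m hm => ?_,
        fun n hn => ?_⟩
      · beta_reduce
        split_ifs
        · exact a2 _ _ hw
        · exact p1 n (by omega)
      · beta_reduce
        split_ifs
        · omega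
        · exact fun e => absurd e.symm (hc m (by omega))
        · exact fun e => absurd e (hc n (by omega))
        · exact p2 n (by omega) m (by omega)
      · beta_reduce
        rw [if_neg (by omega)]
        split_ifs
        · rwa [show n = i by omega]
        · exact p3 n (by omega)
    by_cases e2 : i = 0
    · subst e2
      refine q5 ⟨fun n => if n = 0 then w else P (n - 1), fun n hn => ?_, fun n hn m hm => ?_,
        fun n hn => ?_⟩
      · beta_reduce
        split_ifs
        · exact a2 _ _ hw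
        · exact p1 _ (by omega)
      · beta_reduce
        split_ifs
        · omega
        · exact fun e => absurd e.symm (hc _ (by omega))
        · exact fun e => absurd e (hc _ (by omega))
        · exact fun e => by have := p2 _ (by omega) _ (by omega) e; omega
      · beta_reduce
        rw [if_neg (Nat.succ_ne_zero n)]
        split_ifs with e
        · subst e
          exact a1 _ _ hw
        · have := p3 (n - 1) (by omega)
          rwa [show n - 1 + 1 = n + 1 - 1 by omega] at this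
    · rcases mid i (by omega) (by omega) w hw with e | e
      · exact hc _ (by omega) e.symm
      · exact hc _ (by omega) e.symm
  · by_contra! hc
    by_cases e1 : i + 1 < N
    · rcases mid i (by omega) e1 _ h with e | e
      · have := p2 _ hj _ (by omega) e
        omega
      · have := p2 _ hj _ (by omega) e
        omega
    · rcases mid j (by omega) (by omega) _ (a1 _ _ h) with e | e
      · have := p2 _ hi _ (by omega) e
        omega
      · have := p2 _ hi _ (by omega) e
        omega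

variable [Fintype M] [DecidableEq M]

theorem count_tri (hG : G.Connected) (hT : ∀ x y, ∃ φ : G ≃g G, φ x = y) (o : M) {s T I : ℕ}
    (hs : 1 ≤ s) (hI : 28 * I ≤ T) (hF : Far G (T * s))
    (h : ∀ i < I, Tri G (4 * ((6 * s + 1) * (i + 1)))) :
    (T / 63 * ∑ i ∈ range I, 1 / (i + 1 : ℝ)) * #(ball G o (3 * s)) ≤ #(ball G o (3 * (T * s))) := by
  obtain ⟨γ, g0, g⟩ := geod_at hG hT hF o (a := 0)
  obtain ⟨π, hπ⟩ := exists_near G γ (T * s)
  let σ : ℕ → ℕ := fun i => 9 * ((6 * s + 1) * (i + 1))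
  let J : Finset (Σ _ : ℕ, ℕ) := (range I).sigma fun i => range (T * s / σ i + 1)
  have hJ : ∀ a ∈ J, a.1 < I ∧ a.2 * σ a.1 ≤ T * s := fun a ha => by
    simp only [J, mem_sigma, mem_range] at ha
    exact ⟨ha.1, (Nat.mul_le_mul_right _ (Nat.le_of_lt_succ ha.2)).trans (Nat.div_mul_le_self _ _)⟩
  have := hG.nonempty
  choose! q q1 q2 using fun a (ha : a ∈ J) => spike hG hT g hπ (h _ (hJ a ha).1) (hJ a ha).2
  have h1 := packing hG hT o J q (r := 3 * s) (ball G o (3 * (T * s))) (fun a ha b hb hab => by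
    have key : ∀ a ∈ J, ∀ b ∈ J, a.1 < b.1 → 2 * (3 * s) < G.dist (q b) (q a) := by
      intro a ha b hb e
      have e1 := (hπ (q b)).2 _ (hπ (q a)).1
      have e2 := hG.dist_triangle (u := q b) (v := q a) (w := γ (π (q a)))
      have e3 := Nat.mul_le_mul_left (6 * s + 1) (Nat.succ_le_succ (Nat.succ_le_of_lt e))
      rw [q1 a ha] at e2
      rw [q1 b hb] at e1
      rw [Nat.mul_succ] at e3
      simp only [Nat.succ_eq_add_one] at e3
      omega
    have key' : ∀ a ∈ J, ∀ b ∈ J, a.1 = b.1 → a.2 < b.2 → 2 * (3 * s) < G.dist (q a) (q b) := by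
      intro a ha b hb e e'
      have e1 := g.dist (hJ a ha).2 (hJ b hb).2
      have e2 := q2 a ha
      have e3 := q2 b hb
      have e4 := Nat.mul_le_mul_right (σ a.1) (Nat.succ_le_of_lt e')
      have e5 := hG.dist_triangle (u := γ (a.2 * σ a.1)) (v := q a) (w := γ (b.2 * σ b.1))
      have e6 := hG.dist_triangle (u := q a) (v := q b) (w := γ (b.2 * σ b.1))
      have e7 : 6 * s + 1 ≤ (6 * s + 1) * (a.1 + 1) := Nat.le_mul_of_pos_right _ (by omega)
      have e8 : σ a.1 = 9 * ((6 * s + 1) * (a.1 + 1)) := rfl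
      rw [G.dist_comm (u := q b)] at e6
      rw [Nat.succ_mul] at e4
      rw [← e] at e1 e3 e5 e6
      omega
    rcases lt_trichotomy a.1 b.1 with e | e | e
    · rw [G.dist_comm]; exact key a ha b hb e
    · rcases lt_trichotomy a.2 b.2 with e' | e' | e'
      · exact key' a ha b hb e e'
      · exact absurd (Sigma.ext e (heq_of_eq e')) hab
      · rw [G.dist_comm]; exact key' b hb a ha e.symm e'
    · exact key b hb a ha e) (fun a ha y hy => by
    have e1 := g 0 _ (Nat.zero_le _) (hJ a ha).2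
    have e2 := q2 a ha
    have e3 := hG.dist_triangle (u := o) (v := γ (a.2 * σ a.1)) (w := q a)
    have e4 := hG.dist_triangle (u := o) (v := q a) (w := y)
    have e5 := (hJ a ha).2
    have e6 : 4 * ((6 * s + 1) * (a.1 + 1)) ≤ T * s := by
      have := (hJ a ha).1
      calc 4 * ((6 * s + 1) * (a.1 + 1)) ≤ 4 * ((7 * s) * I) := by gcongr <;> omega
        _ = 28 * I * s := by ring
        _ ≤ T * s := by gcongr
    have e7 : 3 * s ≤ T * s := Nat.mul_le_mul_right _ (by have := (hJ a ha).1; omega)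
    rw [g0] at e1
    rw [mem_ball] at hy ⊢
    omega)
  have h2 : (#J * #(ball G o (3 * s)) : ℝ) ≤ #(ball G o (3 * (T * s))) := by exact_mod_cast h1
  refine le_trans (mul_le_mul_of_nonneg_right ?_ (Nat.cast_nonneg _)) h2
  simp only [J, card_sigma, card_range, Nat.cast_sum, mul_sum]
  refine sum_le_sum fun i _ => ?_
  have e1 : ((T * s : ℕ) : ℝ) ≤ ((T * s / σ i + 1) * σ i : ℕ) := by
    have := Nat.lt_div_mul_add (a := T * s) (b := σ i) (by simp only [σ]; positivity)
    rw [Nat.succ_mul]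
    exact_mod_cast this.le
  have e2 : (σ i : ℝ) ≤ 63 * (i + 1) * s := by
    have : σ i ≤ 63 * (i + 1) * s := by simp only [σ]; nlinarith
    exact_mod_cast this
  have s0 : (0 : ℝ) < s := by exact_mod_cast hs
  rw [Nat.cast_mul, Nat.cast_mul] at e1
  rw [div_mul_div_comm, mul_one, div_le_iff₀ (by positivity)]
  refine le_of_mul_le_mul_right (e1.trans ?_) s0
  rw [mul_assoc]
  gcongr

/-- `t` is a tree metric dominating the graph metric. -/
def DomTree (G : SimpleGraph M) (t : M → M → ℝ) : Prop :=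
  (∀ x, t x x = 0) ∧ (∀ x y, t x y = t y x) ∧
    (∀ x y z u, t x y + t z u ≤ max (t x z + t y u) (t x u + t y z)) ∧
    ∀ x y, (G.dist x y : ℝ) ≤ t x y

omit [Fintype M] in
theorem caterpillar (F : M → ℝ) {c : ℝ} (hc : 0 ≤ c)
    (h : ∀ x y, x ≠ y → (G.dist x y : ℝ) ≤ |F x - F y| + c) :
    DomTree G fun x y => |F x - F y| + if x = y then 0 else c := by
  refine ⟨fun x => by simp, fun x y => by simp only [abs_sub_comm, eq_comm], fun x y z u => ?_,
    fun x y => ?_⟩
  · have tri : ∀ x y z : M, (|F x - F y| + if x = y then 0 else c) ≤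
        (|F x - F z| + if x = z then 0 else c) + (|F y - F z| + if y = z then 0 else c) := by
      intro x y z
      have := abs_sub_le (F x) (F z) (F y)
      rw [abs_sub_comm (F z)] at this
      split_ifs <;> first | linarith | simp_all
    have sy : ∀ x y : M, (|F x - F y| + if x = y then 0 else c) =
        (|F y - F x| + if y = x then 0 else c) := fun x y => by
      simp only [abs_sub_comm, eq_comm]
    beta_reduce
    by_cases e1 : x = y
    · subst e1
      have := tri z u x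
      rw [sy z x, sy u x] at this
      exact le_max_of_le_left (by simpa using this)
    by_cases e2 : z = u
    · subst e2
      exact le_max_of_le_left (by simpa using tri x y z)
    by_cases e3 : x = z
    · subst e3
      exact le_max_of_le_right (by rw [sy y x, add_comm])
    by_cases e4 : y = u
    · subst e4
      exact le_max_of_le_right (by rw [sy y z])
    by_cases e5 : x = u
    · subst e5
      exact le_max_of_le_left (by rw [sy y x, sy z x, add_comm])
    by_cases e6 : y = z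
    · subst e6
      exact le_max_of_le_left le_rfl
    simp only [e1, e2, e3, e4, e5, e6, if_false]
    rw [le_max_iff]
    simp only [abs]
    grind
  · by_cases e : x = y
    · simp [e]
    · simpa [e] using h x y e

variable [Fintype (G ≃g G)]

theorem cyc_tree (hG : G.Connected) (hT : ∀ x y, ∃ φ : G ≃g G, φ x = y) (o : M) {h K : ℕ}
    (h0 : 1 ≤ h) (h1 : ¬ Tri G h) (h2 : Far G (82 * h))
    (h3 : #(ball G o (10 * h)) ≤ K * #(ball G o (4 * h))) :
    ∃ t, DomTree G t ∧ ∀ x y, G.Adj x y →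
      ∑ φ : G ≃g G, t (φ x) (φ y) ≤ Fintype.card (G ≃g G) * (40 * h * (1 + K)) := by
  have := hG.nonempty
  obtain ⟨Z, z1, z2⟩ := net G (s := 10 * h) (by omega)
  have z3 : ∀ x, ∃ z ∈ Z, G.dist z x < 10 * h ∧ ∀ w ∈ Z, G.dist z x ≤ G.dist w x := fun x => by
    obtain ⟨z, e1, e2⟩ := z2 x
    obtain ⟨w, e3, e4⟩ := exists_min_image Z (fun w => G.dist w x) ⟨z, e1⟩
    exact ⟨w, e3, (e4 z e1).trans_lt e2, e4⟩
  choose c c1 c2 c3 using z3
  let a : M → M → Prop := fun v w => v ≠ w ∧ ∃ x y, G.Adj x y ∧ c x = v ∧ c y = w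
  have a0 : ∀ v w, a v w → G.dist v w ≤ 20 * h := by
    rintro _ _ ⟨-, x, y, e, rfl, rfl⟩
    have e1 := hG.dist_triangle (u := c x) (v := x) (w := c y)
    have e2 := hG.dist_triangle (u := x) (v := y) (w := c y)
    have e3 := adj_dist e
    have e4 := c2 x
    have e5 := c2 y
    rw [G.dist_comm (u := y)] at e2
    omega
  have a3 : ∀ v x y z, a v x → a v y → a v z → x = y ∨ x = z ∨ y = z := by
    intro v v1 v2 v3 b1 b2 b3
    obtain ⟨π, hπ⟩ := coord hG hT h1 h2 v
    have side : ∀ v' v'', a v v' → a v v'' → v' ≠ v'' →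
        ¬ (π v ≤ π v' ∧ π v' ≤ π v'') ∧ ¬ (π v'' ≤ π v' ∧ π v' ≤ π v) := by
      intro v' v'' d1 d2 d3
      have f1 := a0 _ _ d1
      have f2 := a0 _ _ d2
      obtain ⟨n1, x', y', -, -, rfl⟩ := d1
      obtain ⟨n2, x, y, e, rfl, rfl⟩ := d2
      have f3 := c2 x
      have f4 := hG.dist_triangle (u := c x) (v := x) (w := y)
      have f5 := adj_dist e
      have f0 : G.dist (c x) (c x) ≤ 20 * h := by simp
      have g1 := z1 _ (c1 _) _ (c1 _) n1
      have g2 := z1 _ (c1 _) _ (c1 _) d3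
      have g3 := c3 x _ (c1 y')
      have g4 := c3 y _ (c1 y')
      have p1 := hπ (c x) (c y') f0 f1
      have p2 := hπ (c y') (c y) f1 f2
      have p3 := hπ (c x) x f0 (by omega)
      have p4 := hπ (c y') x f1 (by omega)
      have p5 := hπ (c y') y f1 (by omega)
      have p6 := hπ (c y) y f2 (by omega)
      have p7 := hπ x y (by omega) (by omega)
      omega
    by_contra! hc
    have := side _ _ b1 b2 hc.1
    have := side _ _ b2 b1 hc.1.symm
    have := side _ _ b1 b3 hc.2.1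
    have := side _ _ b3 b1 hc.2.1.symm
    have := side _ _ b2 b3 hc.2.2
    have := side _ _ b3 b2 hc.2.2.symm
    omega
  obtain ⟨N, P, n0, n1, p0, p1, p2, p3⟩ := long_path (Z := Z) (a := a)
    (fun v w ⟨e, x, y, e1, e2, e3⟩ => ⟨e.symm, y, x, e1.symm, e3, e2⟩)
    (fun v w ⟨_, _, y, _, _, e3⟩ => e3 ▸ c1 y) a3 (c1 o)
  have p4 : ∀ i j, i + j < N → G.dist (P i) (P (i + j)) ≤ 20 * h * j := by
    intro i j
    induction j with
    | zero => simp
    | succ j ih =>
      intro e
      have e1 := a0 _ _ (p1 (i + j) e)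
      have e2 := ih (by omega)
      have e3 := hG.dist_triangle (u := P i) (v := P (i + j)) (w := P (i + j + 1))
      rw [← add_assoc, Nat.mul_succ]
      omega
  have p5 : ∀ w, (∃ x, c x = w) → ∃ j, j < N ∧ P j = w := by
    rintro _ ⟨x, rfl⟩
    obtain ⟨γ, g0, g1, g⟩ := geod hG (P 0) x
    have : ∀ i ≤ G.dist (P 0) x, ∃ j, j < N ∧ P j = c (γ i) := by
      intro i
      induction i with
      | zero =>
        intro _
        have := c3 (P 0) _ p0
        rw [G.dist_self, Nat.le_zero, hG.dist_eq_zero_iff] at this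
        exact ⟨0, n0, by rw [g0, this]⟩
      | succ i ih =>
        intro hi
        obtain ⟨j, j1, j2⟩ := ih (by omega)
        by_cases e : c (γ i) = c (γ (i + 1))
        · exact ⟨j, j1, j2.trans e⟩
        · exact p2 j j1 _ ⟨j2 ▸ e, _, _, g.adj hi, j2.symm, rfl⟩
    simpa [g1] using this _ le_rfl
  choose! ι ι1 ι2 using p5
  have i1 : ∀ x, ι (c x) < N := fun x => ι1 _ ⟨x, rfl⟩
  have i2 : ∀ x, P (ι (c x)) = c x := fun x => ι2 _ ⟨x, rfl⟩
  have hh : (0 : ℝ) ≤ 20 * h := by positivity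
  have ab : ∀ i j k : ℕ, i ≤ j + k → j ≤ i + k → |20 * h * (i : ℝ) - 20 * h * j| ≤ 20 * h * k := by
    intro i j k e1 e2
    rw [← mul_sub, abs_mul, abs_of_nonneg hh]
    have e3 : (i : ℝ) ≤ j + k := by exact_mod_cast e1
    have e4 : (j : ℝ) ≤ i + k := by exact_mod_cast e2
    exact mul_le_mul_of_nonneg_left (abs_sub_le_iff.2 ⟨by linarith, by linarith⟩) hh
  refine ⟨_, caterpillar (fun x => 20 * h * (ι (c x) : ℝ)) hh fun x y _ => ?_, fun x y e => ?_⟩
  · have key : ∀ x y, ι (c x) ≤ ι (c y) →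
        (G.dist x y : ℝ) ≤ 20 * h * ι (c y) - 20 * h * ι (c x) + 20 * h := fun x y e => by
      obtain ⟨k, hk⟩ := Nat.exists_eq_add_of_le e
      have e1 := p4 (ι (c x)) k (hk ▸ i1 y)
      rw [← hk, i2, i2] at e1
      have e2 := hG.dist_triangle (u := x) (v := c x) (w := y)
      have e3 := hG.dist_triangle (u := c x) (v := c y) (w := y)
      have e4 := c2 x
      have e5 := c2 y
      rw [G.dist_comm] at e4
      have e6 : G.dist x y ≤ 20 * h * k + 20 * h := by omega
      have e7 : (G.dist x y : ℝ) ≤ 20 * h * k + 20 * h := by exact_mod_cast e6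
      rw [hk]
      push_cast
      linarith
    rcases le_total (ι (c x)) (ι (c y)) with e | e
    · linarith [key x y e, neg_le_abs (20 * h * (ι (c x) : ℝ) - 20 * h * ι (c y))]
    · rw [G.dist_comm]
      linarith [key y x e, le_abs_self (20 * h * (ι (c x) : ℝ) - 20 * h * ι (c y))]
  · let B := ball G (P 0) (10 * h)
    have key : ∀ x y, G.Adj x y → (|20 * h * (ι (c x) : ℝ) - 20 * h * ι (c y)| +
        if x = y then 0 else 20 * (h : ℝ)) ≤ 40 * h + 20 * h * N * (ind B x + ind B y) := by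
      intro x y e
      rw [if_neg e.ne]
      have b0 := ind_nonneg B x
      have b1 := ind_nonneg B y
      have b2 : (0 : ℝ) ≤ 20 * h * N := by positivity
      have b3 : ∀ x, ι (c x) = 0 → ind B x = 1 := fun x e => by
        have := c2 x
        rw [← i2, e] at this
        simp [ind, B, mem_ball, this.le]
      have b4 := ab (ι (c x)) (ι (c y)) N (by have := i1 x; omega) (by have := i1 y; omega)
      by_cases e' : c x = c y
      · rw [e', sub_self, abs_zero]
        nlinarith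
      rcases p3 _ (i1 x) _ (i1 y) ⟨by rwa [i2, i2], x, y, e, (i2 x).symm, (i2 y).symm⟩ with
        f | f | f
      · have := ab _ _ 1 f.1 f.2
        push_cast at this
        nlinarith
      · rw [b3 x f]
        nlinarith
      · rw [b3 y f]
        nlinarith
    refine (sum_le_sum fun (φ : G ≃g G) _ => key (φ x) (φ y) (φ.map_adj_iff.2 e)).trans ?_
    have n0 : (0 : ℝ) < Fintype.card M := by exact_mod_cast Fintype.card_pos
    have b1 := packing hG hT o Z id (r := 4 * h) univ (fun a ha b hb hab => by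
      have := z1 a ha b hb hab
      simp only [id]
      omega) fun _ _ => subset_univ _
    have b2 : N * #B ≤ K * Fintype.card M := by
      rw [ball_card hG hT _ o]
      calc _ ≤ #Z * (K * #(ball G o (4 * h))) := Nat.mul_le_mul n1 h3
        _ = K * (#Z * #(ball G o (4 * h))) := by ring
        _ ≤ _ := Nat.mul_le_mul_left _ b1
    have b3 : (N * #B : ℝ) ≤ K * Fintype.card M := by exact_mod_cast b2
    have b4 := sum_ind hT B x
    have b5 := sum_ind hT B y
    rw [sum_add_distrib, sum_const, ← mul_sum, sum_add_distrib, card_univ, nsmul_eq_mul]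
    refine le_of_mul_le_mul_left ?_ n0
    have b6 := mul_le_mul_of_nonneg_left b3
      (by positivity : (0 : ℝ) ≤ 40 * h * Fintype.card (G ≃g G))
    calc _ = Fintype.card M * (Fintype.card (G ≃g G) * (40 * h)) + 20 * h * N *
          (Fintype.card M * ∑ φ : G ≃g G, ind B (φ x) +
            Fintype.card M * ∑ φ : G ≃g G, ind B (φ y) : ℝ) := by ring
      _ ≤ _ := by rw [b4, b5]; linarith

omit [Fintype M] in
theorem star_tree {R : ℕ} (h : ¬ Far G R) :
    ∃ t, DomTree G t ∧ ∀ x y, G.Adj x y →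
      ∑ φ : G ≃g G, t (φ x) (φ y) ≤ Fintype.card (G ≃g G) * R := by
  refine ⟨_, caterpillar 0 (Nat.cast_nonneg R) fun x y _ => ?_, fun x y e => ?_⟩
  · have : G.dist x y ≤ R := by
      by_contra hc
      exact h ⟨x, y, by omega⟩
    simpa using this
  · refine (sum_le_card_nsmul _ _ (R : ℝ) fun φ _ => ?_).trans (by simp)
    simp [e.ne]

theorem lin_tree : ∃ T C : ℕ, 2 ≤ T ∧ T ≤ C ∧ ∀ (M : Type) [Fintype M] [DecidableEq M]
    (G : SimpleGraph M) [Fintype (G ≃g G)], G.Connected → (∀ x y, ∃ φ : G ≃g G, φ x = y) →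
    ∀ (o : M) (s : ℕ), 1 ≤ s → Far G (T * s) → gr G o (T * s) < 4 * gr G o s →
    ∃ t, DomTree G t ∧ ∀ x y, G.Adj x y →
      ∑ φ : G ≃g G, t (φ x) (φ y) ≤ Fintype.card (G ≃g G) * (C * s) := by
  obtain ⟨I, hI⟩ := ((Real.tendsto_sum_range_one_div_nat_succ_atTop.eventually_ge_atTop 252).and
    (Filter.eventually_ge_atTop 1)).exists
  refine ⟨2400 * I, 40 * (28 * I) * (1 + 4 * (2400 * I)), by omega, by nlinarith,
    fun M _ _ G _ hG hT o s hs hF hg => ?_⟩
  have s0 : (1 : ℝ) ≤ s := by exact_mod_cast hs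
  have I0 : (1 : ℝ) ≤ I := by exact_mod_cast hI.2
  have v0 : (0 : ℝ) < #(ball G o (3 * s)) := by exact_mod_cast ball_pos o _
  have h1 : (#(ball G o (3 * (2400 * I * s))) : ℝ) < 4 * (2400 * I) * #(ball G o (3 * s)) := by
    rw [gr, gr, ← mul_div_assoc, div_lt_div_iff₀ (by positivity) (by positivity)] at hg
    push_cast at hg
    refine lt_of_mul_lt_mul_right (hg.trans_le ?_) (by positivity)
    nlinarith
  have h2 : ∃ i < I, ¬ Tri G (4 * ((6 * s + 1) * (i + 1))) := by
    by_contra! hc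
    have e1 := (count_tri hG hT o hs (by omega) hF hc).trans_lt h1
    have e2 := lt_of_mul_lt_mul_right e1 v0.le
    push_cast at e2
    nlinarith [hI.1]
  obtain ⟨i, i1, i2⟩ := h2
  have e1 : 4 * ((6 * s + 1) * (i + 1)) ≤ 28 * I * s :=
    calc 4 * ((6 * s + 1) * (i + 1)) ≤ 4 * ((7 * s) * I) := by gcongr <;> omega
      _ = 28 * I * s := by ring
  have e2 : 6 * s + 1 ≤ (6 * s + 1) * (i + 1) := Nat.le_mul_of_pos_right _ (by omega)
  generalize (6 * s + 1) * (i + 1) = k at e1 e2 i2
  rw [mul_assoc] at e1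
  obtain ⟨t, t1, t2⟩ := cyc_tree hG hT o (K := 4 * (2400 * I)) (by omega) i2
    (hF.mono (by rw [mul_assoc]; omega)) (by
      refine (ball_mono o (s := 3 * (2400 * I * s)) (by rw [mul_assoc]; omega)).trans
        ((Nat.cast_le (α := ℝ).1 ?_).trans
        (Nat.mul_le_mul_left _ (ball_mono o (r := 3 * s) (by omega))))
      push_cast
      exact h1.le)
  refine ⟨t, t1, fun x y e => (t2 x y e).trans (mul_le_mul_of_nonneg_left ?_ (Nat.cast_nonneg _))⟩
  have e3 : (4 * k : ℝ) ≤ 28 * (I * s) := by exact_mod_cast e1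
  push_cast
  nlinarith [mul_le_mul_of_nonneg_right e3 (by positivity : (0 : ℝ) ≤ 1 + 4 * (2400 * I))]

theorem vt_tree : ∃ C : ℝ, ∀ (M : Type) [Fintype M] [DecidableEq M] [MetricSpace M]
    (G : SimpleGraph M) [Fintype (G ≃g G)], G.Connected → (∀ x y, ∃ φ : G ≃g G, φ x = y) →
    (∀ x y : M, dist x y = G.dist x y) → ∀ E : Finset (M × M), Rep G E →
    ∀ (ν : Finset M → ℝ) (D : ℝ), 1 ≤ D → Cuts ν D →
    ∃ t, DomTree G t ∧ ∀ x y, ∑ φ : G ≃g G, t (φ x) (φ y) ≤
      G.dist x y * (Fintype.card (G ≃g G) * Real.exp (C * #E * D)) := by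
  classical
  obtain ⟨T, C, T2, TC, h⟩ := lin_tree
  refine ⟨39 * Real.log C, fun M _ _ _ G _ hG hT hd E hE ν D hD hν => ?_⟩
  obtain ⟨o⟩ := hG.nonempty
  let p : ℕ → Prop := fun j => Far G (T * T ^ j) ∧ 4 * gr G o (T ^ j) ≤ gr G o (T * T ^ j)
  have t1 : ∀ j, 1 ≤ T ^ j := fun j => Nat.one_le_pow _ _ (by omega)
  have h1 : ∀ J : ℕ, (∀ j < J, p j) → (J : ℝ) ≤ 38 * (#E * D) := fun J hJ => by
    have a1 : ∀ i k, i + k < J → 2 * T ^ i ≤ T ^ (i + k + 1) ∧
        4 * gr G o (T ^ i) ≤ gr G o (T ^ (i + k + 1)) := by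
      intro i k
      induction k with
      | zero =>
        intro e
        rw [add_zero, pow_succ']
        exact ⟨Nat.mul_le_mul_right _ T2, (hJ i e).2⟩
      | succ k ih =>
        intro e
        obtain ⟨b1, b2⟩ := ih (by omega)
        have b3 := (hJ (i + k + 1) e).2
        have b4 : 0 ≤ gr G o (T ^ (i + k + 1)) := by unfold gr; positivity
        rw [← add_assoc, pow_succ' T (i + k + 1)]
        exact ⟨b1.trans (Nat.le_mul_of_pos_left _ (by omega)), by linarith⟩
    have a2 : ∀ i j, i < j → j < J → 2 * T ^ i ≤ T ^ j ∧ 4 * gr G o (T ^ i) ≤ gr G o (T ^ j) := by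
      intro i j e1 e2
      obtain ⟨k, rfl⟩ := Nat.exists_eq_add_of_lt e1
      exact a1 i k (by omega)
    have := scales_le hG hT hd (E := E.filter fun e => G.Adj e.1 e.2) (fun x y e => by
      obtain ⟨u, u1, φ, u2⟩ := hE x y e
      refine ⟨u, mem_filter.2 ⟨u1, φ.map_adj_iff.1 ?_⟩, φ, u2⟩
      rcases u2 with ⟨rfl, rfl⟩ | ⟨rfl, rfl⟩
      · exact e
      · exact e.symm) (fun e he => (mem_filter.1 he).2) hν o (range J) (fun j => T ^ j)
      (fun j _ => t1 j)
      (fun j hj => (hJ j (mem_range.1 hj)).1.mono (Nat.le_mul_of_pos_left _ (by omega)))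
      fun i hi j hj hij => (lt_or_gt_of_ne hij).imp (fun e => a2 i j e (mem_range.1 hj))
        fun e => a2 j i e (mem_range.1 hi)
    rw [card_range] at this
    refine this.trans ?_
    gcongr
    exact filter_subset _ _
  have h2 : ∃ j, ¬ p j := by
    by_contra! hc
    obtain ⟨J, hJ⟩ := exists_nat_gt (38 * (#E * D))
    exact (h1 J fun j _ => hc j).not_gt hJ
  have h3 := Nat.find_spec h2
  have h4 := h1 _ fun j hj => not_not.1 (Nat.find_min h2 hj)
  generalize Nat.find h2 = J at h3 h4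
  have h5 : ∃ t, DomTree G t ∧ ∀ x y, G.Adj x y →
      ∑ φ : G ≃g G, t (φ x) (φ y) ≤ Fintype.card (G ≃g G) * (C * (T ^ J : ℕ)) := by
    by_cases e : Far G (T * T ^ J)
    · exact h M G hG hT o _ (t1 J) e (not_le.1 fun e' => h3 ⟨e, e'⟩)
    · obtain ⟨t, e1, e2⟩ := star_tree e
      refine ⟨t, e1, fun x y e => (e2 x y e).trans ?_⟩
      gcongr
      exact_mod_cast Nat.mul_le_mul_right _ TC
  obtain ⟨t, t2, t3⟩ := h5
  refine ⟨t, t2, lip_of_adj hG (f := fun x y => ∑ φ : G ≃g G, t (φ x) (φ y)) (fun x y z => ?_)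
    (fun x => by simp [t2.1]) fun x y e => (t3 x y e).trans ?_⟩
  · rw [← sum_add_distrib]
    refine sum_le_sum fun φ _ => ?_
    have := t2.2.2.1 (φ x) (φ z) (φ y) (φ y)
    rwa [t2.1, add_zero, max_self, t2.2.1 (φ z)] at this
  · obtain ⟨u, u1, -⟩ := hE x y e
    have e1 : (1 : ℝ) ≤ #E := by exact_mod_cast card_pos.2 ⟨u, u1⟩
    have e2 : (2 : ℝ) ≤ C := by exact_mod_cast T2.trans TC
    have e3 : (C * (T ^ J : ℕ) : ℝ) ≤ C ^ (J + 1) := by
      rw [pow_succ']
      gcongr
      exact_mod_cast Nat.pow_le_pow_left TC J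
    refine mul_le_mul_of_nonneg_left (e3.trans ?_) (Nat.cast_nonneg _)
    rw [← Real.log_le_iff_le_exp (by positivity), Real.log_pow]
    have e4 := Real.log_nonneg (by linarith : (1 : ℝ) ≤ C)
    have e5 : 1 ≤ #E * D := one_le_mul_of_one_le_of_one_le e1 hD
    push_cast
    nlinarith

end Pool.Agent.Lib.MP_b76e55_an.Vt
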