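import Pool.Agent.Lib.MP_b76e55_an.VtC

/-!
Vertex-transitive graphs with a weighted boundary functional.
-/

namespace Pool.Agent.Lib.MP_b76e55_an.Vt

open Finset

variable {M : Type} [Fintype M] [DecidableEq M] {G : SimpleGraph M} [Fintype (G ≃g G)]

/-- A boundary functional. -/
structure Bd (G : SimpleGraph M) [Fintype (G ≃g G)] (bw : Finset M → ℝ) : Prop where
  nonneg : ∀ A, 0 ≤ bw A
  compl : ∀ A, bw Aᶜ = bw A
  le : ∀ A x y, sp G A x y ≤ G.dist x y * bw A

theorem isoperW (_hG : G.Connected) (hT : ∀ x y, ∃ φ : G ≃g G, φ x = y) {bw : Finset M → ℝ}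
    (hE : Bd G bw) (A : Finset M) (o : M) {ρ : ℕ} (h : 2 * #A ≤ #(ball G o ρ)) :
    (Fintype.card (G ≃g G) * #A : ℝ) ≤ Fintype.card M * (2 * ρ * bw A) := by
  have h1 : ∑ y ∈ ball G o ρ, sp G A o y ≤ #(ball G o ρ) * (ρ * bw A) := by
    refine (sum_le_card_nsmul _ _ (ρ * bw A) fun y hy => (hE.le A o y).trans
      (mul_le_mul_of_nonneg_right ?_ (hE.nonneg _))).trans (by simp)
    exact_mod_cast mem_ball.1 hy
  have h2 : ∀ φ : G ≃g G, ind A (φ o) * (#(ball G o ρ) / 2) ≤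
      ∑ y ∈ ball G o ρ, |ind A (φ o) - ind A (φ y)| := fun φ => by
    by_cases e : φ o ∈ A
    · have a1 : ∑ y ∈ ball G o ρ, ind A (φ y) ≤ #A := by
        refine (sum_le_univ_sum_of_nonneg fun y => ind_nonneg A _).trans (le_of_eq ?_)
        rw [Fintype.sum_equiv φ.toEquiv (fun y => ind A (φ y)) (ind A) fun y => rfl]
        simp [ind]
      have a2 : ∑ y ∈ ball G o ρ, (ind A (φ o) - ind A (φ y)) ≤
          ∑ y ∈ ball G o ρ, |ind A (φ o) - ind A (φ y)| := sum_le_sum fun _ _ => le_abs_self _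
      have a3 : (2 * #A : ℝ) ≤ #(ball G o ρ) := by exact_mod_cast h
      have a4 : ind A (φ o) = 1 := by simp [ind, e]
      rw [sum_sub_distrib, a4] at a2
      rw [a4]
      simp only [sum_const, nsmul_eq_mul, mul_one] at a2
      linarith
    · have a4 : ind A (φ o) = 0 := by simp [ind, e]
      rw [a4, zero_mul]
      exact sum_nonneg fun _ _ => abs_nonneg _
  have h3 := sum_le_sum fun φ (_ : φ ∈ univ) => h2 φ
  rw [← sum_mul, sum_comm] at h3
  have h4 := h3.trans h1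
  have h5 : (0 : ℝ) < #(ball G o ρ) := by exact_mod_cast ball_pos o ρ
  have h6 : ∑ φ : G ≃g G, ind A (φ o) ≤ 2 * ρ * bw A := by
    refine le_of_mul_le_mul_right ?_ h5
    linarith
  rw [← sum_ind hT A o]
  exact mul_le_mul_of_nonneg_left h6 (Nat.cast_nonneg _)

theorem test_scaleW [MetricSpace M] (hG : G.Connected) (hT : ∀ x y, ∃ φ : G ≃g G, φ x = y)
    (hd : ∀ x y : M, dist x y = G.dist x y) {bw : Finset M → ℝ} (hE : Bd G bw)
    {ν : Finset M → ℝ} {D : ℝ} (hν : Cuts ν D) (o : M) {s : ℕ} (hs : 1 ≤ s) (hF : Far G s) :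
    ∃ w : Finset M → ℝ, (Fintype.card (G ≃g G) : ℝ) ≤ ∑ A, ν A * w A ∧ ∀ A, 0 ≤ w A ∧
      Fintype.card M * s * w A ^ 2 ≤ Fintype.card (G ≃g G) * bw A * #(ball G o (3 * s)) ∧
      Fintype.card M * s * w A ≤ 2 * (Fintype.card (G ≃g G) * #A) ∧
      Fintype.card M * s * w A ≤ 2 * (Fintype.card (G ≃g G) * #Aᶜ) := by
  obtain ⟨Z, z1, z2⟩ := net G (s := 3 * s) (by omega)
  have z3 := covering hG hT o (Z := Z) (r := 3 * s) fun x => by
    obtain ⟨z, h1, h2⟩ := z2 x
    exact ⟨z, h1, h2.le⟩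
  have hy : ∀ z, ∃ y, G.dist z y = s := fun z => by
    obtain ⟨γ, g0, g⟩ := geod_at hG hT hF z (a := 0)
    exact ⟨γ s, by simpa [g0] using g 0 s (by omega) le_rfl⟩
  choose y hy using hy
  let a : Finset M → (G ≃g G) → M → ℝ := fun A φ z => ind A (φ z) - ind A (φ (y z))
  let W : Finset M → ℝ := fun A => ∑ φ : G ≃g G, ∑ ε : M → Bool,
    |∑ z ∈ Z, if ε z then a A φ z else -a A φ z|
  set n := Fintype.card M with hn
  set g := Fintype.card (G ≃g G) with hg
  have n0 : (0 : ℝ) < n := by have := hG.nonempty; exact_mod_cast Fintype.card_pos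
  have N0 : (0 : ℝ) < #Z := by
    obtain ⟨z, h, -⟩ := z2 o
    exact_mod_cast card_pos.2 ⟨z, h⟩
  have s0 : (0 : ℝ) < s := by exact_mod_cast hs
  have c0 : (0 : ℝ) < 2 ^ n * (#Z * s) := by positivity
  have t1 : ∀ (φ : G ≃g G) (ε : M → Bool),
      (#Z * s : ℝ) ≤ ∑ A, ν A * |∑ z ∈ Z, if ε z then a A φ z else -a A φ z| := fun φ ε => by
    have := dipole hν Z (fun z => φ (if ε z then z else y z)) (fun z => φ (if ε z then y z else z))
      (s := s) fun z hz w hw => by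
        rw [hd, iso_dist hG, Nat.cast_le]
        have e1 := hy z
        have e2 := hy w
        by_cases e : z = w
        · subst e
          cases ε z
          · simp [G.dist_comm (u := y z), e1]
          · simp [e1]
        · have e3 := z1 z hz w hw e
          have e4 := hG.dist_triangle (u := z) (v := y w) (w := w)
          have e5 := hG.dist_triangle (u := z) (v := y z) (w := w)
          have e6 := hG.dist_triangle (u := y z) (v := y w) (w := w)
          rw [G.dist_comm (u := y w)] at e4 e6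
          cases ε z <;> cases ε w <;> simp <;> omega
    refine this.trans (le_of_eq (sum_congr rfl fun A _ => ?_))
    congr 2
    refine sum_congr rfl fun z _ => ?_
    cases ε z <;> simp [a]
  have t2 : ∀ A, W A ≤ 2 ^ n * ∑ z ∈ Z, sp G A z (y z) := fun A => by
    simp only [sp]
    rw [sum_comm, mul_sum]
    refine sum_le_sum fun φ _ => (sum_le_card_nsmul _ _ (∑ z ∈ Z, |a A φ z|) fun ε _ =>
      (abs_sum_le_sum_abs _ _).trans (le_of_eq (sum_congr rfl fun z _ => ?_))).trans (by simp [a, hn])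
    cases ε z <;> simp
  have t3 : ∀ A, W A ^ 2 ≤ (2 ^ n) ^ 2 * (g * ∑ z ∈ Z, sp G A z (y z)) := fun A => by
    have b1 : ∀ φ : G ≃g G, (∑ ε : M → Bool, |∑ z ∈ Z, if ε z then a A φ z else -a A φ z|) ^ 2 ≤
        (2 ^ n) ^ 2 * ∑ z ∈ Z, |a A φ z| := fun φ => by
      refine sq_sum_le_card_mul_sum_sq.trans (le_of_eq ?_)
      simp only [sq_abs, sign_sq, card_univ, Fintype.card_fun, Fintype.card_bool, Nat.cast_pow,
        Nat.cast_ofNat]
      rw [sq, mul_assoc]
      congr 2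
      refine sum_congr rfl fun z _ => ?_
      simp only [a, ind]
      split_ifs <;> simp
    refine sq_sum_le_card_mul_sum_sq.trans ?_
    rw [mul_left_comm]
    refine mul_le_mul_of_nonneg_left ((sum_le_sum fun φ _ => b1 φ).trans (le_of_eq ?_))
      (Nat.cast_nonneg _)
    rw [← mul_sum, sum_comm]
    rfl
  have W0 : ∀ A, 0 ≤ W A := fun A => sum_nonneg fun _ _ => sum_nonneg fun _ _ => abs_nonneg _
  have t4 : ∀ A B : Finset M, (∀ x y, sp G A x y = sp G B x y) →
      n * s * (W A / (2 ^ n * (#Z * s))) ≤ 2 * (g * #B) := fun A B h => by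
    have b1 : n * ∑ z ∈ Z, sp G A z (y z) ≤ #Z * (2 * (g * #B)) := by
      rw [mul_sum]
      exact (sum_le_card_nsmul _ _ _ fun z _ => h _ _ ▸ sp_le_card hT B z (y z)).trans
        (by simp [hg])
    rw [← mul_div_assoc, div_le_iff₀ c0]
    have b2 := mul_le_mul_of_nonneg_left (t2 A) (by positivity : (0 : ℝ) ≤ n * s)
    have b3 := mul_le_mul_of_nonneg_left b1 (by positivity : (0 : ℝ) ≤ 2 ^ n * s)
    linarith
  refine ⟨fun A => W A / (2 ^ n * (#Z * s)), ?_, fun A => ⟨div_nonneg (W0 A) c0.le, ?_,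
    t4 A A fun _ _ => rfl, t4 A Aᶜ fun x y => ?_⟩⟩
  · simp only [← mul_div_assoc, ← sum_div]
    rw [le_div_iff₀ c0]
    simp only [W, mul_sum]
    rw [sum_comm]
    refine le_trans (by simp [hg]) (card_nsmul_le_sum univ _ (2 ^ n * (#Z * s) : ℝ) fun φ _ => ?_)
    rw [sum_comm]
    exact le_trans (by simp [hn]) (card_nsmul_le_sum univ _ (#Z * s : ℝ) fun ε _ => t1 φ ε)
  · have b1 : ∑ z ∈ Z, sp G A z (y z) ≤ #Z * (s * bw A) :=
      (sum_le_card_nsmul _ _ _ fun z _ => hy z ▸ hE.le A z (y z)).trans (by simp)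
    have b2 : (n : ℝ) ≤ #Z * #(ball G o (3 * s)) := by exact_mod_cast z3
    have b3 := (t3 A).trans (mul_le_mul_of_nonneg_left
      (mul_le_mul_of_nonneg_left b1 (Nat.cast_nonneg g)) (by positivity))
    have b0 := hE.nonneg A
    rw [div_pow, ← mul_div_assoc, div_le_iff₀ (by positivity)]
    have b4 := mul_le_mul b2 b3 (sq_nonneg _) (by positivity)
    have b5 := mul_le_mul_of_nonneg_left b4 s0.le
    calc _ = s * (n * W A ^ 2) := by ring
      _ ≤ _ := b5
      _ = _ := by ring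
  · have := bd_compl (G := G) {(x, y)} A
    simpa [bd] using this.symm

theorem sum_scalesW (hG : G.Connected) (hT : ∀ x y, ∃ φ : G ≃g G, φ x = y) {bw : Finset M → ℝ}
    (hE : Bd G bw) (o : M) {ι : Type} (I : Finset ι) (s : ι → ℕ) (hs : ∀ i ∈ I, 1 ≤ s i)
    (hI : ∀ i ∈ I, ∀ j ∈ I, i ≠ j → (2 * s i ≤ s j ∧ 4 * gr G o (s i) ≤ gr G o (s j)) ∨
      (2 * s j ≤ s i ∧ 4 * gr G o (s j) ≤ gr G o (s i)))
    (A : Finset M) (hA : 2 * #A ≤ Fintype.card M) (w : ι → ℝ)
    (w1 : ∀ i ∈ I, Fintype.card M * s i * w i ^ 2 ≤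
      Fintype.card (G ≃g G) * bw A * #(ball G o (3 * s i)))
    (w2 : ∀ i ∈ I, Fintype.card M * s i * w i ≤ 2 * (Fintype.card (G ≃g G) * #A)) :
    ∑ i ∈ I, w i ≤ 38 * bw A := by
  classical
  set n := Fintype.card M with hn
  set g := Fintype.card (G ≃g G) with hg
  have n0 : (0 : ℝ) < n := by have := hG.nonempty; exact_mod_cast Fintype.card_pos
  have g0 : (0 : ℝ) ≤ g := Nat.cast_nonneg _
  have b0 := hE.nonneg A
  set b := bw A with hb
  have s0 : ∀ i ∈ I, (1 : ℝ) ≤ s i := fun i hi => by exact_mod_cast hs i hi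
  rcases A.eq_empty_or_nonempty with rfl | hne
  · refine (sum_nonpos fun i hi => ?_).trans (by positivity)
    have := w2 i hi
    simp only [card_empty, Nat.cast_zero, mul_zero] at this
    exact nonpos_of_mul_nonpos_right this (mul_pos n0 (by linarith [s0 i hi]))
  have hex : ∃ ρ, 2 * #A ≤ #(ball G o ρ) := ⟨univ.sup (G.dist o), hA.trans (le_of_eq (by
    rw [hn, ← card_univ]
    congr 1
    ext y
    simpa [mem_ball] using le_sup (f := G.dist o) (mem_univ y)))⟩
  have r1 := Nat.find_spec hex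
  have r2 := fun m => Nat.find_min hex (m := m)
  generalize Nat.find hex = ρ at r1 r2
  have r3 : ρ ≠ 0 := by
    rintro rfl
    have e1 : #(ball G o 0) ≤ 1 := card_le_one.2 fun x hx y hy => by
      rw [mem_ball, Nat.le_zero, hG.dist_eq_zero_iff] at hx hy
      rw [← hx, ← hy]
    have := hne.card_pos
    omega
  obtain ⟨ρ, rfl⟩ := Nat.exists_eq_succ_of_ne_zero r3
  have r4 : #(ball G o ρ) < 2 * #A := not_le.1 (r2 ρ (Nat.lt_succ_self _))
  have r5 : Far G ρ := by
    by_contra hc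
    have : ball G o ρ = univ := eq_univ_of_forall fun y => mem_ball.2 (by
      by_contra h
      exact hc ⟨o, y, by omega⟩)
    rw [this, card_univ] at r4
    omega
  have r6 := isoperW hG hT hE A o r1
  rw [← hn, ← hg, ← hb] at r6
  push_cast at r6
  have p0 : (0 : ℝ) < ρ + 1 := by positivity
  have q0 : ∀ i, 0 ≤ gr G o (s i) := fun i => by unfold gr; positivity
  have h1 : ∑ i ∈ I with 3 * s i ≤ ρ, w i ≤ 14 * b := by
    let x : ι → ℝ := fun i => Real.sqrt (4 * g * b / n * gr G o (s i))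
    have c0 : 0 ≤ 4 * g * b / n := by positivity
    have x2 : ∀ i j, 4 * gr G o (s i) ≤ gr G o (s j) → 2 * x i ≤ x j := fun i j h => by
      refine Real.le_sqrt_of_sq_le ?_
      rw [mul_pow, Real.sq_sqrt (mul_nonneg c0 (q0 i))]
      nlinarith [mul_le_mul_of_nonneg_left h c0]
    refine (sum_le_sum (g := x) fun i hi => ?_).trans ((geom_sum_le _ x
      (fun i _ => Real.sqrt_nonneg _) (fun i hi j hj hij => ?_) (7 * b) (by positivity)
      fun i hi => ?_).trans (by linarith))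
    · have hi' := (mem_filter.1 hi).1
      refine Real.le_sqrt_of_sq_le ?_
      have e1 := w1 i hi'
      have e2 := s0 i hi'
      rw [gr, div_mul_div_comm, le_div_iff₀ (by positivity)]
      have e3 : w i ^ 2 * (n * (3 * s i + 1)) ≤ w i ^ 2 * (n * (4 * s i)) := by
        gcongr
        linarith
      linarith
    · rcases hI i (mem_filter.1 hi).1 j (mem_filter.1 hj).1 hij with e | e
      · exact Or.inl (x2 i j e.2)
      · exact Or.inr (x2 j i e.2)
    · refine Real.sqrt_le_iff.2 ⟨by positivity, ?_⟩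
      have e1 : ((ρ + 1) * #(ball G o (3 * s i)) : ℝ) ≤ 3 * (3 * s i + 1) * #(ball G o ρ) := by
        exact_mod_cast quasi_mono hG hT o r5 (mem_filter.1 hi).2
      have e2 : (#(ball G o ρ) : ℝ) ≤ 2 * #A := by exact_mod_cast r4.le
      have e3 : (ρ + 1) * gr G o (s i) ≤ 6 * #A := by
        rw [gr, ← mul_div_assoc, div_le_iff₀ (by positivity)]
        nlinarith [(by positivity : (0 : ℝ) ≤ 3 * (3 * s i + 1))]
      have e4 : g * gr G o (s i) ≤ 12 * n * b := by
        refine le_of_mul_le_mul_left ?_ p0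
        nlinarith [mul_le_mul_of_nonneg_left e3 g0]
      rw [div_mul_eq_mul_div, div_le_iff₀ n0]
      nlinarith [mul_le_mul_of_nonneg_left e4 b0, mul_nonneg (mul_nonneg b0 b0) n0.le]
  have h2 : ∑ i ∈ I with ¬ 3 * s i ≤ ρ, w i ≤ 24 * b := by
    let x : ι → ℝ := fun i => 2 * (g * #A) / (n * s i)
    have c0 : (0 : ℝ) ≤ 2 * (g * #A) := by positivity
    have x2 : ∀ i ∈ I, ∀ j, 2 * s i ≤ s j → 2 * x j ≤ x i := fun i hi j h => by
      have e1 : (2 * s i : ℝ) ≤ s j := by exact_mod_cast h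
      have e2 := s0 i hi
      simp only [x]
      rw [← mul_div_assoc, div_le_div_iff₀ (mul_pos n0 (by linarith)) (mul_pos n0 (by linarith))]
      nlinarith [mul_le_mul_of_nonneg_left e1 (mul_nonneg c0 n0.le)]
    refine (sum_le_sum (g := x) fun i hi => ?_).trans ((geom_sum_le _ x
      (fun i _ => by positivity) (fun i hi j hj hij => ?_) (12 * b) (by positivity)
      fun i hi => ?_).trans (by linarith))
    · have hi' := (mem_filter.1 hi).1
      have e2 := s0 i hi'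
      rw [le_div_iff₀ (by positivity)]
      linarith [w2 i hi']
    · rcases hI i (mem_filter.1 hi).1 j (mem_filter.1 hj).1 hij with e | e
      · exact Or.inr (x2 i (mem_filter.1 hi).1 j e.1)
      · exact Or.inl (x2 j (mem_filter.1 hj).1 i e.1)
    · have e2 := s0 i (mem_filter.1 hi).1
      have e1 : (ρ + 1 : ℝ) ≤ 3 * s i := by
        have := (mem_filter.1 hi).2
        exact_mod_cast (by omega : ρ + 1 ≤ 3 * s i)
      rw [div_le_iff₀ (by positivity)]
      nlinarith [mul_le_mul_of_nonneg_left e1 (mul_nonneg n0.le b0)]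
  rw [← sum_filter_add_sum_filter_not I fun i => 3 * s i ≤ ρ]
  linarith

theorem scales_leW [MetricSpace M] (hG : G.Connected) (hT : ∀ x y, ∃ φ : G ≃g G, φ x = y)
    (hd : ∀ x y : M, dist x y = G.dist x y) {bw : Finset M → ℝ} (hE : Bd G bw)
    {ν : Finset M → ℝ} {D k : ℝ} (hν : Cuts ν D)
    (h2 : ∑ A, ν A * bw A ≤ k * (Fintype.card (G ≃g G) * D)) (o : M)
    {ι : Type} (I : Finset ι) (s : ι → ℕ) (hs : ∀ i ∈ I, 1 ≤ s i) (hF : ∀ i ∈ I, Far G (s i))
    (hI : ∀ i ∈ I, ∀ j ∈ I, i ≠ j → (2 * s i ≤ s j ∧ 4 * gr G o (s i) ≤ gr G o (s j)) ∨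
      (2 * s j ≤ s i ∧ 4 * gr G o (s j) ≤ gr G o (s i))) : (#I : ℝ) ≤ 38 * (k * D) := by
  choose! w w1 w2 using fun i hi => test_scaleW hG hT hd hE hν o (hs i hi) (hF i hi)
  have h1 : ∀ A, ∑ i ∈ I, w i A ≤ 38 * bw A := fun A => by
    rcases le_total (2 * #A) (Fintype.card M) with h | h
    · exact sum_scalesW hG hT hE o I s hs hI A h _
        (fun i hi => (w2 i hi A).2.1) fun i hi => (w2 i hi A).2.2.1
    · rw [← hE.compl]
      exact sum_scalesW hG hT hE o I s hs hI Aᶜ (by rw [card_compl]; omega) _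
        (fun i hi => hE.compl A ▸ (w2 i hi A).2.1)
        fun i hi => (w2 i hi A).2.2.2
  have h3 := card_nsmul_le_sum I _ _ w1
  rw [sum_comm] at h3
  simp only [← mul_sum, nsmul_eq_mul] at h3
  have h4 := h3.trans (sum_le_sum fun A _ => mul_le_mul_of_nonneg_left (h1 A) (hν.nonneg A))
  simp only [mul_left_comm _ (38 : ℝ), ← mul_sum] at h4
  have g0 : (0 : ℝ) < Fintype.card (G ≃g G) := by exact_mod_cast Fintype.card_pos
  refine le_of_mul_le_mul_right ?_ g0
  nlinarith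

theorem vt_treeW : ∃ C : ℝ, ∀ (M : Type) [Fintype M] [DecidableEq M] [MetricSpace M]
    (G : SimpleGraph M) [Fintype (G ≃g G)], G.Connected → (∀ x y, ∃ φ : G ≃g G, φ x = y) →
    (∀ x y : M, dist x y = G.dist x y) → ∀ bw : Finset M → ℝ, Bd G bw →
    ∀ (ν : Finset M → ℝ) (D k : ℝ), 1 ≤ D → Cuts ν D → (∀ x y, G.Adj x y → 1 ≤ k) → 0 ≤ k →
    ∑ A, ν A * bw A ≤ k * (Fintype.card (G ≃g G) * D) →
    ∃ t, DomTree G t ∧ ∀ x y, ∑ φ : G ≃g G, t (φ x) (φ y) ≤
      G.dist x y * (Fintype.card (G ≃g G) * Real.exp (C * k * D)) := by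
  classical
  obtain ⟨T, C, T2, TC, h⟩ := lin_tree
  refine ⟨39 * Real.log C, fun M _ _ _ G _ hG hT hd bw hE ν D k hD hν hk k0 hb => ?_⟩
  obtain ⟨o⟩ := hG.nonempty
  let p : ℕ → Prop := fun j => Far G (T * T ^ j) ∧ 4 * gr G o (T ^ j) ≤ gr G o (T * T ^ j)
  have t1 : ∀ j, 1 ≤ T ^ j := fun j => Nat.one_le_pow _ _ (by omega)
  have h1 : ∀ J : ℕ, (∀ j < J, p j) → (J : ℝ) ≤ 38 * (k * D) := fun J hJ => by
    have a1 : ∀ i m, i + m < J → 2 * T ^ i ≤ T ^ (i + m + 1) ∧
        4 * gr G o (T ^ i) ≤ gr G o (T ^ (i + m + 1)) := by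
      intro i k
      induction k with
      | zero =>
        intro e
        rw [add_zero, pow_succ']
        exact ⟨Nat.mul_le_mul_right _ T2, (hJ i e).2⟩
      | succ k ih =>
        intro e
        obtain ⟨b1, b2⟩ := ih (by omega)
        have b3 := (hJ (i + k + 1) e).2
        have b4 : 0 ≤ gr G o (T ^ (i + k + 1)) := by unfold gr; positivity
        rw [← add_assoc, pow_succ' T (i + k + 1)]
        exact ⟨b1.trans (Nat.le_mul_of_pos_left _ (by omega)), by linarith⟩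
    have a2 : ∀ i j, i < j → j < J → 2 * T ^ i ≤ T ^ j ∧ 4 * gr G o (T ^ i) ≤ gr G o (T ^ j) := by
      intro i j e1 e2
      obtain ⟨k, rfl⟩ := Nat.exists_eq_add_of_lt e1
      exact a1 i k (by omega)
    have := scales_leW hG hT hd hE hν hb o (range J) (fun j => T ^ j)
      (fun j _ => t1 j)
      (fun j hj => (hJ j (mem_range.1 hj)).1.mono (Nat.le_mul_of_pos_left _ (by omega)))
      fun i hi j hj hij => (lt_or_gt_of_ne hij).imp (fun e => a2 i j e (mem_range.1 hj))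
        fun e => a2 j i e (mem_range.1 hi)
    rwa [card_range] at this
  have h2 : ∃ j, ¬ p j := by
    by_contra! hc
    obtain ⟨J, hJ⟩ := exists_nat_gt (38 * (k * D))
    exact (h1 J fun j _ => hc j).not_gt hJ
  have h3 := Nat.find_spec h2
  have h4 := h1 _ fun j hj => not_not.1 (Nat.find_min h2 hj)
  generalize Nat.find h2 = J at h3 h4
  have h5 : ∃ t, DomTree G t ∧ ∀ x y, G.Adj x y →
      ∑ φ : G ≃g G, t (φ x) (φ y) ≤ Fintype.card (G ≃g G) * (C * (T ^ J : ℕ)) := by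
    by_cases e : Far G (T * T ^ J)
    · exact h M G hG hT o _ (t1 J) e (not_le.1 fun e' => h3 ⟨e, e'⟩)
    · obtain ⟨t, e1, e2⟩ := star_tree e
      refine ⟨t, e1, fun x y e => (e2 x y e).trans ?_⟩
      gcongr
      exact_mod_cast Nat.mul_le_mul_right _ TC
  obtain ⟨t, t2, t3⟩ := h5
  refine ⟨t, t2, lip_of_adj hG (f := fun x y => ∑ φ : G ≃g G, t (φ x) (φ y)) (fun x y z => ?_)
    (fun x => by simp [t2.1]) fun x y e => (t3 x y e).trans ?_⟩
  · rw [← sum_add_distrib]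
    refine sum_le_sum fun φ _ => ?_
    have := t2.2.2.1 (φ x) (φ z) (φ y) (φ y)
    rwa [t2.1, add_zero, max_self, t2.2.1 (φ z)] at this
  · have e1 : (1 : ℝ) ≤ k := hk x y e
    have e2 : (2 : ℝ) ≤ C := by exact_mod_cast T2.trans TC
    have e3 : (C * (T ^ J : ℕ) : ℝ) ≤ C ^ (J + 1) := by
      rw [pow_succ']
      gcongr
      exact_mod_cast Nat.pow_le_pow_left TC J
    refine mul_le_mul_of_nonneg_left (e3.trans ?_) (Nat.cast_nonneg _)
    rw [← Real.log_le_iff_le_exp (by positivity), Real.log_pow]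
    have e4 := Real.log_nonneg (by linarith : (1 : ℝ) ≤ C)
    have e5 : 1 ≤ k * D := one_le_mul_of_one_le_of_one_le e1 hD
    push_cast
    nlinarith


theorem sp_compl (A : Finset M) (x y : M) : sp G Aᶜ x y = sp G A x y := by
  simpa [bd] using bd_compl (G := G) {(x, y)} A

theorem vt_lam : ∃ C : ℝ, ∀ (M : Type) [Fintype M] [DecidableEq M] [MetricSpace M]
    (G : SimpleGraph M) [Fintype (G ≃g G)], G.Connected → (∀ x y, ∃ φ : G ≃g G, φ x = y) →
    (∀ x y : M, dist x y = G.dist x y) → ∀ l : M → M → ℝ, (∀ u v, 0 ≤ l u v) →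
    (∀ ρ : M → M → ℝ, (∀ x, ρ x x = 0) → (∀ x y, ρ x y = ρ y x) →
      (∀ x y z, ρ x z ≤ ρ x y + ρ y z) → (∀ (φ : G ≃g G) x y, ρ (φ x) (φ y) = ρ x y) →
      ∀ x y, G.Adj x y → ρ x y ≤ ∑ u, ∑ v, l u v * ρ u v) →
    ∀ (ν : Finset M → ℝ) (D : ℝ), 1 ≤ D → Cuts ν D →
    ∃ t, DomTree G t ∧ ∀ x y, ∑ φ : G ≃g G, t (φ x) (φ y) ≤
      G.dist x y * (Fintype.card (G ≃g G) * Real.exp (C * (∑ u, ∑ v, l u v * dist u v) * D)) := by
  obtain ⟨C, h⟩ := vt_treeW
  refine ⟨C, fun M _ _ _ G _ hG hT hd l l0 hl ν D hD hν => ?_⟩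
  have tri : ∀ A x y z, sp G A x z ≤ sp G A x y + sp G A y z := fun A x y z => by
    rw [sp, sp, sp, ← sum_add_distrib]
    exact sum_le_sum fun φ _ => abs_sub_le _ _ _
  refine h M G hG hT hd (fun A => ∑ u, ∑ v, l u v * sp G A u v) ⟨fun A => sum_nonneg fun u _ =>
    sum_nonneg fun v _ => mul_nonneg (l0 u v) (sp_nonneg _ _ _), fun A => by simp only [sp_compl],
    fun A x y => lip_of_adj hG (f := sp G A) (tri A) (fun x => by simp [sp]) (fun x y e =>
      hl (sp G A) (fun x => by simp [sp]) (fun x y => sum_congr rfl fun φ _ => abs_sub_comm _ _)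
        (tri A) (fun ψ x y => Fintype.sum_equiv (Equiv.mulRight ψ) _ _ fun φ => rfl) x y e) x y⟩
    ν D _ hD hν (fun x y e => ?_) (sum_nonneg fun u _ => sum_nonneg fun v _ =>
      mul_nonneg (l0 u v) dist_nonneg) ?_
  · have := hl dist dist_self dist_comm dist_triangle
      (fun φ x y => by rw [hd, hd, iso_dist hG]) x y e
    rwa [hd, adj_dist e, Nat.cast_one] at this
  · simp only [mul_sum, sum_mul]
    rw [sum_comm]
    refine sum_le_sum fun u _ => ?_
    rw [sum_comm]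
    refine sum_le_sum fun v _ => ?_
    simp only [mul_left_comm _ (l u v), ← mul_sum]
    rw [mul_assoc]
    refine mul_le_mul_of_nonneg_left ?_ (l0 u v)
    simp only [sp, mul_sum]
    rw [sum_comm]
    refine (sum_le_card_nsmul _ _ (D * dist u v) fun φ _ => (hν.upper _ _).trans ?_).trans
      (le_of_eq (by simp; ring))
    rw [hd, hd, iso_dist hG]

/-- The weights `l` bound every invariant pseudometric on edges. -/
def Dom (G : SimpleGraph M) (l : M → M → ℝ) : Prop :=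
  ∀ ρ : M → M → ℝ, (∀ x, ρ x x = 0) → (∀ x y, ρ x y = ρ y x) →
    (∀ x y z, ρ x z ≤ ρ x y + ρ y z) → (∀ (φ : G ≃g G) x y, ρ (φ x) (φ y) = ρ x y) →
    ∀ x y, G.Adj x y → ρ x y ≤ ∑ u, ∑ v, l u v * ρ u v

omit [Fintype (G ≃g G)] in
/-- Uniform weights on a ball. -/
theorem lam_ball (hG : G.Connected) (hT : ∀ x y, ∃ φ : G ≃g G, φ x = y) (o : M) (r : ℕ) :
    ∃ l : M → M → ℝ, (∀ u v, 0 ≤ l u v) ∧ Dom G l ∧
      ∑ u, ∑ v, l u v * G.dist u v ≤ 2 * (r + 1) * #(ball G o (r + 1)) / #(ball G o r) := by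
  have v0 : (0 : ℝ) < #(ball G o r) := by exact_mod_cast ball_pos o r
  have ev : ∀ f : M → M → ℝ, ∑ u, ∑ v, (if u = o ∧ v ∈ ball G o (r + 1) then
      2 / (#(ball G o r) : ℝ) else 0) * f u v =
      2 / (#(ball G o r) : ℝ) * ∑ v ∈ ball G o (r + 1), f o v := fun f => by
    rw [sum_eq_single o (fun u _ h => by simp [h]) (by simp), mul_sum]
    simp [ite_mul, sum_ite_mem]
  refine ⟨fun u v => if u = o ∧ v ∈ ball G o (r + 1) then 2 / (#(ball G o r) : ℝ) else 0,
    fun u v => by positivity, fun ρ r0 r1 r2 r3 x y e => ?_, ?_⟩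
  · have nn : ∀ a b, 0 ≤ ρ a b := fun a b => by linarith [r2 a b a, r0 a, r1 a b]
    obtain ⟨φ, hφ⟩ := hT x o
    obtain ⟨ψ, hψ⟩ := hT (φ y) o
    have ad : G.Adj o (φ y) := hφ ▸ φ.map_adj_iff.2 e
    have a1 : ∑ u ∈ ball G o r, ρ o u ≤ ∑ v ∈ ball G o (r + 1), ρ o v :=
      sum_le_sum_of_subset_of_nonneg (fun u hu => mem_ball.2 ((mem_ball.1 hu).trans
        (Nat.le_succ r))) fun v _ _ => nn o v
    have a2 : ∑ u ∈ ball G o r, ρ o (ψ u) ≤ ∑ v ∈ ball G o (r + 1), ρ o v := by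
      rw [← sum_image (f := ρ o) (g := ψ) fun a _ b _ h => ψ.injective h]
      refine sum_le_sum_of_subset_of_nonneg (fun v hv => ?_) fun v _ _ => nn o v
      obtain ⟨u, hu, rfl⟩ := mem_image.1 hv
      have b1 := mem_ball.1 hu
      have b2 := hG.dist_triangle (u := φ y) (v := o) (w := u)
      rw [adj_dist ad.symm] at b2
      rw [mem_ball, ← hψ, iso_dist hG]
      omega
    have a3 : ∀ u ∈ ball G o r, ρ x y ≤ ρ o u + ρ o (ψ u) := fun u _ => by
      have := r2 o u (φ y)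
      rwa [← r3 ψ u, hψ, r1 (ψ u), ← hφ, r3, hφ] at this
    have a4 := card_nsmul_le_sum _ _ _ a3
    rw [sum_add_distrib, nsmul_eq_mul] at a4
    rw [ev, div_mul_eq_mul_div, le_div_iff₀ v0]
    linarith
  · rw [ev fun u v => (G.dist u v : ℝ), div_mul_eq_mul_div]
    refine div_le_div_of_nonneg_right ?_ v0.le
    have := sum_le_card_nsmul (ball G o (r + 1)) (fun v => (G.dist o v : ℝ)) (r + 1 : ℝ)
      fun v hv => by exact_mod_cast mem_ball.1 hv
    rw [nsmul_eq_mul] at this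
    linarith

omit [Fintype (G ≃g G)] in
/-- Weight one on representatives of the orbits on edges. -/
theorem lam_orb {E : Finset (M × M)} (hE : Rep G E) :
    ∃ l : M → M → ℝ, (∀ u v, 0 ≤ l u v) ∧ Dom G l ∧ ∑ u, ∑ v, l u v * G.dist u v ≤ #E := by
  classical
  have ev : ∀ f : M → M → ℝ, ∑ u, ∑ v, (if (u, v) ∈ E ∧ G.Adj u v then (1 : ℝ) else 0) * f u v =
      ∑ e ∈ E with G.Adj e.1 e.2, f e.1 e.2 := fun f => by
    rw [← Fintype.sum_prod_type', ← sum_subset (subset_univ (E.filter fun e => G.Adj e.1 e.2))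
      fun e _ h => by rw [if_neg (by simpa using h), zero_mul]]
    exact sum_congr rfl fun e h => by rw [if_pos (by simpa using h), one_mul]
  refine ⟨fun u v => if (u, v) ∈ E ∧ G.Adj u v then 1 else 0, fun u v => by positivity,
    fun ρ r0 r1 r2 r3 x y e => ?_, ?_⟩
  · have nn : ∀ a b, 0 ≤ ρ a b := fun a b => by linarith [r2 a b a, r0 a, r1 a b]
    obtain ⟨u, u1, φ, u2⟩ := hE x y e
    have ad : G.Adj u.1 u.2 := φ.map_adj_iff.1 (by
      rcases u2 with ⟨rfl, rfl⟩ | ⟨rfl, rfl⟩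
      · exact e
      · exact e.symm)
    rw [ev]
    refine le_trans (le_of_eq ?_) (single_le_sum (f := fun e : M × M => ρ e.1 e.2)
      (fun a _ => nn _ _) (mem_filter.2 ⟨u1, ad⟩))
    rcases u2 with ⟨rfl, rfl⟩ | ⟨rfl, rfl⟩
    · exact r3 _ _ _
    · exact (r1 _ _).trans (r3 _ _ _)
  · rw [ev fun u v => (G.dist u v : ℝ)]
    refine (sum_le_card_nsmul _ _ (1 : ℝ) fun e h => ?_).trans ?_
    · rw [adj_dist (mem_filter.1 h).2, Nat.cast_one]
    · rw [nsmul_eq_mul, mul_one]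
      exact_mod_cast card_filter_le _ _

end Pool.Agent.Lib.MP_b76e55_an.Vt
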